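import Pool.Agent.Work.MP_60c97f_nt.Cnt

/-!
# `D` divisible by `p`
-/

set_option autoImplicit false

namespace Pool.Agent.Work.MP_60c97f_nt

variable {p : ℕ} [Fact p.Prime]

theorem dk_zero_eq (hp : p ≠ 2) : dk (0 : ZMod (p ^ 2)) 1 p = 0 := by
  have hpp : p.Prime := Fact.out
  have h1 := dk_neg (0 : ZMod (p ^ 2)) 1 p
  rw [neg_zero, Odd.neg_one_pow (hpp.odd_of_ne_two hp)] at h1
  have h2 : (2 : ZMod (p ^ 2)) * dk 0 1 p = 2 * 0 := by linear_combination h1
  exact two_cancel hp h2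

/-- a coordinate of a point of the section which vanishes modulo `p` is zero -/
theorem TP_coord (hp : p ≠ 2) {x : ZMod (p ^ 2)} (hx : dk x 1 p = x) (h : red p x = 0) :
    x = 0 := by
  rw [← hx, dk_congr' (x := 0) (x' := x) (by rw [h, map_zero]), dk_zero_eq hp]

private theorem two_zero {D : ZMod (p ^ 2)} (hD : red p D = 0) {x y z : ZMod (p ^ 2)}
    (h : (x, y, z) ∈ XStar D) : ¬ (x = 0 ∧ y = 0) ∧ ¬ (x = 0 ∧ z = 0) ∧ ¬ (y = 0 ∧ z = 0) := by
  obtain ⟨h1, h2⟩ := h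
  have h3 := congrArg (red p) h1
  simp only [map_add, map_mul, map_pow, hD] at h3
  simp only [Smooth, isUnit_iff_red, map_sub, map_mul, map_ofNat] at h2
  refine ⟨?_, ?_, ?_⟩
  · rintro ⟨rfl, rfl⟩
    have h4 : red p z = 0 := by
      simp only [map_zero] at h3
      exact pow_eq_zero_iff two_ne_zero |>.1 (by linear_combination h3)
    rcases h2 with h2 | h2 | h2 <;> apply h2 <;> simp [h4]
  · rintro ⟨rfl, rfl⟩
    have h4 : red p y = 0 := by
      simp only [map_zero] at h3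
      exact pow_eq_zero_iff two_ne_zero |>.1 (by linear_combination h3)
    rcases h2 with h2 | h2 | h2 <;> apply h2 <;> simp [h4]
  · rintro ⟨rfl, rfl⟩
    have h4 : red p x = 0 := by
      simp only [map_zero] at h3
      exact pow_eq_zero_iff two_ne_zero |>.1 (by linear_combination h3)
    rcases h2 with h2 | h2 | h2 <;> apply h2 <;> simp [h4]

theorem zero_section (hp : 5 ≤ p) {D : ZMod (p ^ 2)} (hD : red p D = 0)
    {P : ZMod (p ^ 2) × ZMod (p ^ 2) × ZMod (p ^ 2)} (hP : P ∈ XStar D) (hnf : ¬ Full D P) :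
    p ^ 2 ∣ (TP '' vorb P).ncard := by
  have hpp : p.Prime := Fact.out
  have hp2 : p ≠ 2 := by omega
  have : NeZero (p ^ 2) := ⟨pow_ne_zero 2 hpp.ne_zero⟩
  have hD4 : red p D ≠ 4 := by
    rw [hD]
    intro h
    have h2 : (2 : ZMod p) * 2 = 0 := by linear_combination -h
    rcases mul_eq_zero.1 h2 with h3 | h3 <;> exact two_ne_zero' hp2 h3
  have hfin : (TP '' vorb P).Finite := Set.toFinite _
  have hX : ∀ T ∈ TP '' vorb P, T ∈ XStar D ∧ TP T = T := by
    rintro _ ⟨Q, hQ, rfl⟩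
    exact ⟨xstar_of_redP (section_of_not_full hp hD4 (Or.inl hD) hP hnf hQ).1
      (vorb_subset hP hQ) (redP_TP Q), TP_TP Q⟩
  have hunit : ∀ x : ZMod (p ^ 2), dk x 1 p = x → x ≠ 0 → IsUnit (x ^ 2 - D) := by
    intro x hx hx0
    rw [isUnit_iff_red, map_sub, map_pow, hD, sub_zero]
    exact pow_ne_zero 2 fun h => hx0 (TP_coord hp2 hx h)
  rw [Set.ncard_eq_toFinset_card _ hfin]
  refine sq_dvd_of_pow_eq_one hp D ((red_eq_zero_iff D).1 hD) ?_
  refine pow_card_eq_one' (algebraMap _ _) D _ (omega_sq D) hfin.toFinset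
    (fun T hT => (hX T (hfin.mem_toFinset.1 hT)).1.1) ?_ ?_ ?_
  · rw [Set.Finite.coe_toFinset]
    exact stable_section hp hD4 (Or.inl hD) hP hnf
  · intro T hT
    exact two_zero hD (hX T (hfin.mem_toFinset.1 hT)).1
  · intro T hT
    have h1 := (hX T (hfin.mem_toFinset.1 hT)).2
    obtain ⟨x, y, z⟩ := T
    simp only [TP, Prod.mk.injEq] at h1
    exact ⟨hunit x h1.1, hunit y h1.2.1, hunit z h1.2.2⟩

/-- For `p ≥ 5` and `D` divisible by `p` every stable subset of `X_D^*(Z/p²)` has cardinality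
divisible by `p²`. -/
theorem sq_dvd_ncard_zero (hp : 5 ≤ p) {D : ZMod (p ^ 2)} (hD : red p D = 0)
    {O : Set (ZMod (p ^ 2) × ZMod (p ^ 2) × ZMod (p ^ 2))} (hO : Stable O) (hX : O ⊆ XStar D) :
    p ^ 2 ∣ O.ncard := by
  have hp2 : p ≠ 2 := by omega
  have hD4 : red p D ≠ 4 := by
    rw [hD]
    intro h
    have h2 : (2 : ZMod p) * 2 = 0 := by linear_combination -h
    rcases mul_eq_zero.1 h2 with h3 | h3 <;> exact two_ne_zero' hp2 h3
  exact dvd_ncard_of_stable (fun P hP => sq_dvd_vorb_of_sq_dvd hp hD4 (Or.inl hD) hP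
    (zero_section hp hD hP)) O hO hX

end Pool.Agent.Work.MP_60c97f_nt
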