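import Pool.Agent.Work.MP_60c97f_nt.StepB

/-!
# Stepanov's method: conclusion
-/

set_option autoImplicit false

namespace Pool.Agent.Work.MP_60c97f_nt

open Polynomial

variable {F : Type} [Field F] {p : ℕ} {a b : F} {Q : F[X]} [Fact p.Prime] [CharP F p]

omit [Fact p.Prime] [CharP F p] in
private theorem natDegree_Psi (hdeg : Q.natDegree ≤ 2 * p) (w₀ : F) (d nI nJ nK nL : ℕ)
    (c : ℕ → ℕ → ℕ → ℕ → F) :
    (Psi p Q w₀ d nI nJ nK nL c).natDegree ≤ p * nJ + (nI + d * nK + 2 * p * nL) := by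
  rw [Psi]
  refine natDegree_sum_le_of_forall_le _ _ fun j hj => ?_
  rw [Finset.mem_range] at hj
  refine natDegree_mul_le.trans (Nat.add_le_add ?_ ?_)
  · refine natDegree_pow_le.trans ?_
    have h1 : ((X - C w₀) ^ p).natDegree ≤ p * 1 :=
      natDegree_pow_le.trans (Nat.mul_le_mul_left p (natDegree_X_sub_C_le w₀))
    calc j * ((X - C w₀) ^ p).natDegree ≤ j * (p * 1) := Nat.mul_le_mul_left j h1
      _ ≤ nJ * (p * 1) := Nat.mul_le_mul_right _ hj.le
      _ = p * nJ := by ring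
  · refine natDegree_sum_le_of_forall_le _ _ fun i hi => ?_
    refine natDegree_sum_le_of_forall_le _ _ fun k hk => ?_
    rw [Finset.mem_range] at hi hk
    have h1 : (X ^ (i + d * k) : F[X]).natDegree ≤ i + d * k := natDegree_X_pow_le _
    have h2 : ((∑ l ∈ Finset.range nL, C (c i j k l) * X ^ l : F[X]).comp Q).natDegree ≤
        nL * (2 * p) := by
      refine natDegree_comp_le.trans (Nat.mul_le_mul ?_ hdeg)
      refine natDegree_sum_le_of_forall_le _ _ fun l hl => ?_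
      rw [Finset.mem_range] at hl
      exact (natDegree_C_mul_X_pow_le _ _).trans hl.le
    have h3 : d * k ≤ d * nK := Nat.mul_le_mul_left d hk.le
    have h4 : nL * (2 * p) = 2 * p * nL := by ring
    refine natDegree_mul_le.trans ?_
    omega

/-- **Stepanov's method.** -/
theorem stepanov (hp : p ≠ 2) (hQ : X * derivative Q = (C a * X ^ 2 - C b) *
      Ep a b ^ ((p - 1) / 2) - (C a * X ^ 2 - C b) ^ p) (hdeg : Q.natDegree ≤ 2 * p) {w₀ : F}
    (hw₀ : w₀ ≠ 0) (hE0 : (Ep a b).eval w₀ = 0) (hab : a * w₀ ^ 2 - b ≠ 0)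
    {Z : Finset F} {d : ℕ} (hZ0 : ∀ w ∈ Z, w ≠ 0) (hZE : ∀ w ∈ Z, (Ep a b).eval w ≠ 0)
    (hZd : ∀ w ∈ Z, w ^ d = 1) {gW gK ge gh : F[X]}
    (hgW : gW.natDegree ≤ 2) (hgK : gK.natDegree ≤ 4)
    (hge : ge.natDegree ≤ 4) (hgh : gh.natDegree ≤ 4)
    (vW : ∀ w ∈ Z, gW.eval w = w * (w - w₀) ^ p)
    (vK : ∀ w ∈ Z, gK.eval w = w ^ 2 * Q.eval w)
    (ve : ∀ w ∈ Z, ge.eval w = w ^ 2 * (Ep a b ^ ((p - 1) / 2)).eval w)
    (vh : ∀ w ∈ Z, gh.eval w = w ^ 2 * ((C a * X ^ 2 - C b) ^ p : F[X]).eval w)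
    {nI nJ nK nL M : ℕ} (hId : nI ≤ d)
    (hexp : ∀ i < nI, ∀ k < nK, i + d * k < p) (hLp : nL ≤ p) (hMp : M ≤ p)
    (hN : nI * nK * nL ≤ (p - 1) / 2)
    (hcount : M * (nI + 6 * M + 4 * nL + 2 * nJ) < nI * nJ * nK * nL) :
    M * Z.card ≤ p * nJ + (nI + d * nK + 2 * p * nL) := by
  classical
  have hpp : p.Prime := Fact.out
  set Nn := nI + 6 * M + 4 * nL + 2 * nJ with hNn
  -- the polynomials of the values
  have hval : ∀ (m : Fin M) (x : Fin nI × Fin nJ × Fin nK × Fin nL), ∃ g : F[X],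
      g ∈ degreeLT F Nn ∧ ∀ w ∈ Z, g.eval w = w ^ (2 * nL + nJ) *
        ((dd (up a b) ^ (m : ℕ)) (((X - C w₀) ^ p) ^ (x.2.1 : ℕ) *
          (X ^ ((x.1 : ℕ) + d * x.2.2.1) * Q ^ (x.2.2.2 : ℕ)))).eval w := by
    intro m x
    obtain ⟨g, h1, h2⟩ := value_basis hp hQ (w₀ := w₀) hZd hgW hgK hge hgh vW vK ve vh
      (nI := nI) (nJ := nJ) (nL := nL) (k := x.2.2.1) x.1.2 x.2.1.2 x.2.2.2.2 m
    refine ⟨g, ?_, h2⟩
    rw [mem_degreeLT]
    refine lt_of_le_of_lt degree_le_natDegree ?_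
    have := m.2
    exact_mod_cast (by omega : g.natDegree < Nn)
  choose g hg1 hg2 using hval
  -- the linear map
  let T : (Fin nI × Fin nJ × Fin nK × Fin nL → F) →ₗ[F] (Fin M → degreeLT F Nn) :=
    LinearMap.pi fun m => ∑ x, (LinearMap.proj x : (_ → F) →ₗ[F] F).smulRight ⟨g m x, hg1 m x⟩
  have hfin : Module.finrank F (Fin M → degreeLT F Nn) <
      Module.finrank F (Fin nI × Fin nJ × Fin nK × Fin nL → F) := by
    have h1 : Module.finrank F (degreeLT F Nn) = Nn := by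
      rw [(degreeLTEquiv F Nn).finrank_eq, Module.finrank_fin_fun]
    rw [Module.finrank_pi_fintype, Module.finrank_fintype_fun_eq_card]
    simp only [h1, Finset.sum_const, Finset.card_univ, Fintype.card_fin, smul_eq_mul,
      Fintype.card_prod]
    calc M * Nn < nI * nJ * nK * nL := hcount
      _ = nI * (nJ * (nK * nL)) := by ring
  have : Module.Finite F (degreeLT F Nn) := Module.Finite.equiv (degreeLTEquiv F Nn).symm
  obtain ⟨c', hc', hc0⟩ := Submodule.exists_mem_ne_zero_of_ne_bot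
    (LinearMap.ker_ne_bot_of_finrank_lt (f := T) hfin)
  rw [LinearMap.mem_ker] at hc'
  -- extend the coefficients
  set c : ℕ → ℕ → ℕ → ℕ → F := fun i j k l =>
    if h : i < nI ∧ j < nJ ∧ k < nK ∧ l < nL then
      c' (⟨i, h.1⟩, ⟨j, h.2.1⟩, ⟨k, h.2.2.1⟩, ⟨l, h.2.2.2⟩) else 0 with hc
  set Ψ := Psi p Q w₀ d nI nJ nK nL c with hΨ
  have hne : Ψ ≠ 0 := by
    intro h0
    have h1 := Psi_ne_zero hQ hw₀ hE0 hab hId hexp hLp hN h0
    apply hc0
    funext ⟨i, j, k, l⟩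
    have h2 := h1 j j.2 i i.2 k k.2 l l.2
    simp only [hc] at h2
    rw [dif_pos ⟨i.2, j.2, k.2, l.2⟩] at h2
    exact h2
  have hΨsum : Ψ = ∑ x : Fin nI × Fin nJ × Fin nK × Fin nL, c' x •
      (((X - C w₀) ^ p) ^ (x.2.1 : ℕ) *
          (X ^ ((x.1 : ℕ) + d * x.2.2.1) * Q ^ (x.2.2.2 : ℕ))) := by
    rw [hΨ, Psi, Fintype.sum_prod_type]
    simp only [Fintype.sum_prod_type]
    rw [Finset.sum_comm, ← Fin.sum_univ_eq_sum_range (fun j => ((X - C w₀) ^ p) ^ j *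
      ∑ i ∈ Finset.range nI, ∑ k ∈ Finset.range nK,
      X ^ (i + d * k) * (∑ l ∈ Finset.range nL, C (c i j k l) * X ^ l : F[X]).comp Q)]
    refine Finset.sum_congr rfl fun j _ => ?_
    rw [Finset.mul_sum, ← Fin.sum_univ_eq_sum_range (fun i => ((X - C w₀) ^ p) ^ (j : ℕ) *
      ∑ k ∈ Finset.range nK,
      X ^ (i + d * k) * (∑ l ∈ Finset.range nL, C (c i j k l) * X ^ l : F[X]).comp Q)]
    refine Finset.sum_congr rfl fun i _ => ?_
    rw [Finset.mul_sum, ← Fin.sum_univ_eq_sum_range (fun k => ((X - C w₀) ^ p) ^ (j : ℕ) *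
      (X ^ ((i : ℕ) + d * k) * (∑ l ∈ Finset.range nL, C (c i j k l) * X ^ l : F[X]).comp Q))]
    refine Finset.sum_congr rfl fun k _ => ?_
    rw [Polynomial.sum_comp, Finset.mul_sum, Finset.mul_sum, ← Fin.sum_univ_eq_sum_range (fun l =>
      ((X - C w₀) ^ p) ^ (j : ℕ) *
      (X ^ ((i : ℕ) + d * k) * (C (c i j k l) * X ^ l : F[X]).comp Q))]
    refine Finset.sum_congr rfl fun l _ => ?_
    have h3 : c i j k l = c' (i, j, k, l) := by
      simp only [hc]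
      rw [dif_pos ⟨i.2, j.2, k.2, l.2⟩]
    rw [h3, mul_comp, C_comp, X_pow_comp, smul_eq_C_mul]
    ring
  -- the derivatives vanish
  have hder : ∀ w ∈ Z, ∀ m < M, ((dd (up a b) ^ m) Ψ).eval w = 0 := by
    intro w hw m hm
    have h1 := congrFun hc' ⟨m, hm⟩
    have h2 : ∑ x, c' x • g ⟨m, hm⟩ x = 0 := by
      have h3 := congrArg (Subtype.val) h1
      simp only [T, LinearMap.pi_apply, LinearMap.sum_apply, LinearMap.smulRight_apply,
        LinearMap.proj_apply, Pi.zero_apply, Submodule.coe_sum, Submodule.coe_smul,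
        ZeroMemClass.coe_zero] at h3
      exact h3
    have h3 := congrArg (eval w) h2
    rw [eval_zero, eval_finsetSum] at h3
    have h4 : w ^ (2 * nL + nJ) * ((dd (up a b) ^ m) Ψ).eval w = 0 := by
      rw [hΨsum, map_sum, eval_finsetSum, Finset.mul_sum, ← h3]
      refine Finset.sum_congr rfl fun x _ => ?_
      rw [map_smul, eval_smul, eval_smul, hg2 ⟨m, hm⟩ x w hw, smul_eq_mul, smul_eq_mul]
      ring
    exact (mul_eq_zero.1 h4).resolve_left (pow_ne_zero _ (hZ0 w hw))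
  have h2F : (2 : F) ≠ 0 := by
    intro h
    have h1 : ((2 : ℕ) : F) = 0 := by exact_mod_cast h
    rw [CharP.cast_eq_zero_iff F p] at h1
    exact hp ((Nat.prime_dvd_prime_iff_eq hpp Nat.prime_two).1 h1)
  have hdvd : ∀ w ∈ Z, (X - C w) ^ M ∣ Ψ := by
    intro w hw
    refine dvd_of_iter (p := p) (u := up a b) ?_ M hMp (hder w hw)
    rw [up, eval_mul, eval_mul, eval_X, eval_ofNat]
    exact mul_ne_zero (mul_ne_zero h2F (hZ0 w hw)) (hZE w hw)
  have hprod : ∏ w ∈ Z, (X - C w) ^ M ∣ Ψ := by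
    refine Finset.prod_dvd_of_coprime ?_ hdvd
    intro w _ w' _ hne'
    exact (isCoprime_X_sub_C_of_isUnit_sub ((sub_ne_zero.2 hne').isUnit)).pow
  have h5 := natDegree_le_of_dvd hprod hne
  rw [natDegree_prod_of_monic _ _ (fun w _ => (monic_X_sub_C w).pow M)] at h5
  simp only [natDegree_pow, natDegree_X_sub_C, mul_one, Finset.sum_const, smul_eq_mul] at h5
  calc M * Z.card = Z.card * M := mul_comm _ _
    _ ≤ Ψ.natDegree := h5
    _ ≤ _ := natDegree_Psi hdeg w₀ d nI nJ nK nL c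

end Pool.Agent.Work.MP_60c97f_nt
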