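import Pool.Agent.Work.MP_60c97f_nt.Seq
import Pool.Agent.Work.MP_60c97f_nt.StepC

/-!
# The orders of the coordinates in the section are small
-/

set_option autoImplicit false

namespace Pool.Agent.Work.MP_60c97f_nt

open Polynomial

/-- the choice of the parameters -/
private theorem numeric {p d z : ℕ} (hd : 110000 * p ≤ d ^ 2) (hdp : d ≤ p + 1) (hp : 1 ≤ p)
    (hz : d ≤ 2 * z)
    (H : ∀ nI nJ nK nL M : ℕ, nI ≤ d → (∀ i < nI, ∀ k < nK, i + d * k < p) → nL ≤ p → M ≤ p →
      nI * nK * nL ≤ (p - 1) / 2 → M * (nI + 6 * M + 4 * nL + 2 * nJ) < nI * nJ * nK * nL →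
      M * z ≤ p * nJ + (nI + d * nK + 2 * p * nL)) : False := by
  have hpbig : 109990 ≤ p := by
    by_contra hlt
    push Not at hlt
    have h1 : d ^ 2 ≤ (p + 1) ^ 2 := Nat.pow_le_pow_left hdp 2
    nlinarith
  obtain ⟨K, hK1, hKexp, hKd, hKsq, hKp⟩ : ∃ K, 1 ≤ K ∧ (d * K ≤ p ∨ K = 1) ∧ p < 2 * (K * d) ∧
      105600 * K ^ 2 + 1 ≤ p ∧ K * d ≤ p + 1 := by
    rcases Nat.lt_or_ge p d with h | h
    · have hd1 : d = p + 1 := by omega
      exact ⟨1, le_rfl, Or.inr rfl, by omega, by omega, by omega⟩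
    · have hd0 : 0 < d := by
        rcases Nat.eq_zero_or_pos d with h0 | h0
        · rw [h0] at hd
          omega
        · exact h0
      have h1 : d * (p / d) ≤ p := Nat.mul_div_le p d
      have h2 : p < d * (p / d) + d := Nat.lt_mul_div_succ p hd0
      have h3 : 1 ≤ p / d := (Nat.one_le_div_iff hd0).2 h
      refine ⟨p / d, h3, Or.inl h1, ?_, ?_, ?_⟩
      · nlinarith
      · set K := p / d
        have h4 : (d * K) ^ 2 ≤ p ^ 2 := Nat.pow_le_pow_left h1 2
        have h5 : p * (110000 * K ^ 2) ≤ p * p := by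
          calc p * (110000 * K ^ 2) = (110000 * p) * K ^ 2 := by ring
            _ ≤ d ^ 2 * K ^ 2 := Nat.mul_le_mul_right _ hd
            _ = (d * K) ^ 2 := by ring
            _ ≤ p ^ 2 := h4
            _ = p * p := by ring
        have h6 := Nat.le_of_mul_le_mul_left h5 (by omega)
        nlinarith
      · rw [mul_comm]
        omega
  have hdK : 52800 * K < d := by
    have h1 : 105600 * K ^ 2 < 2 * (K * d) := by omega
    have h2 : K * (105600 * K) < K * (2 * d) := by nlinarith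
    have h3 := Nat.lt_of_mul_lt_mul_left h2
    omega
  have h1 := H (2200 * K) 24 K 24 (300 * K) (by omega) (fun i hi k hk => by
      rcases hKexp with h | h
      · have h2 : d * (k + 1) ≤ d * K := Nat.mul_le_mul_left d hk
        have h3 : d * (k + 1) = d * k + d := by ring
        omega
      · have : k = 0 := by omega
        subst this
        rw [mul_zero, add_zero]
        omega) (by omega) (by nlinarith) (by
      rw [Nat.le_div_iff_mul_le (by norm_num)]
      have : 2200 * K * K * 24 * 2 = 105600 * K ^ 2 := by ring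
      omega) (by nlinarith)
  nlinarith

theorem rs_of_rec {R : Type} [CommRing R] {x : R} {s : ℕ → R}
    (h : ∀ n, s (n + 2) = x * s (n + 1) - s n) (n : ℕ) : s n = rs x (s 0) (s 1) n := by
  induction n using Nat.twoStepInduction with
  | zero => rfl
  | one => rfl
  | more n h1 h2 => rw [h, h1, h2, rs]

variable {p : ℕ} [Fact p.Prime]

private theorem pow_t {F : Type} [Field F] (ι : ZMod p →+* F) {x : ZMod p} {t t' : F}
    (htt : t * t' = 1) (hx : t + t' = ι x) (n : ℕ) :
    t ^ n = ι (om x ^ n).re + ι (om x ^ n).im * t := by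
  induction n with
  | zero => simp [QuadraticAlgebra.re_one, QuadraticAlgebra.im_one]
  | succ n ih =>
    rw [om_pow_succ_re, om_pow_succ_im, pow_succ, ih, map_neg, map_add, map_mul, ← hx]
    linear_combination (-(ι (om x ^ n).im)) * htt

private theorem om_pow_eq_one {F : Type} [Field F] (ι : ZMod p →+* F) {x : ZMod p} {t t' : F}
    (htt : t * t' = 1) (hx : t + t' = ι x) (hne : t ≠ t') {n : ℕ}
    (hn : t ^ n = 1) : om x ^ n = 1 := by
  have h1 := pow_t ι htt hx n
  have h2 := pow_t ι (t := t') (t' := t) (by rw [mul_comm]; exact htt)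
    (by rw [add_comm]; exact hx) n
  have hn' : t' ^ n = 1 := by
    have : t ^ n * t' ^ n = 1 := by rw [← mul_pow, htt, one_pow]
    rwa [hn, one_mul] at this
  rw [hn] at h1
  rw [hn'] at h2
  have h3 : ι (om x ^ n).im * (t - t') = 0 := by linear_combination h2 - h1
  have h4 := (mul_eq_zero.1 h3).resolve_right (sub_ne_zero.2 hne)
  rw [h4, zero_mul, add_zero] at h1
  ext
  · rw [QuadraticAlgebra.re_one]
    apply ι.injective
    rw [← h1, map_one]
  · rw [QuadraticAlgebra.im_one]
    apply ι.injective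
    rw [h4, map_zero]

private theorem aux {F : Type} [Field F] [IsAlgClosed F] [CharP F p] (ι : ZMod p →+* F)
    (hp : 5 ≤ p) {D x y z : ZMod (p ^ 2)} (h : OnX D (x, y, z))
    (hx4 : red p x ^ 2 ≠ 4) (hx : dk x 1 p = x)
    (hfix : ∀ n, dk (rs x y z n) 1 p = rs x y z n) (hy4 : ∀ n, red p (rs x y z n) ^ 2 ≠ 4)
    (hxD : red p x ^ 2 ≠ red p D) (hD4 : red p D ≠ 4) :
    orderOf (om (red p x)) ^ 2 < 110000 * p := by
  classical
  by_contra hcon
  push Not at hcon
  have hpp : p.Prime := Fact.out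
  have hp2 : p ≠ 2 := by omega
  have hι : Function.Injective ι := ι.injective
  have h2F : (2 : F) ≠ 0 := by
    intro h0
    have h1 : ι 2 = ι 0 := by rw [map_ofNat, map_zero]; exact h0
    exact two_ne_zero' hp2 (hι h1)
  set X₀ : F := ι (red p x) with hX₀
  -- the eigenvalues
  obtain ⟨s, hs⟩ := IsAlgClosed.exists_eq_mul_self (X₀ ^ 2 - 4)
  set t : F := (X₀ + s) / 2 with ht
  set t' : F := (X₀ - s) / 2 with ht'
  have htx : t + t' = X₀ := by rw [ht, ht']; field_simp; ring
  have htt : t * t' = 1 := by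
    rw [ht, ht']
    field_simp
    linear_combination hs
  have hs0 : s ≠ 0 := by
    intro h0
    rw [h0, mul_zero, sub_eq_zero] at hs
    apply hx4
    apply hι
    rw [map_pow, map_ofNat]
    exact hs
  have hts : t - t' = s := by rw [ht, ht']; field_simp; ring
  have hne : t ≠ t' := sub_ne_zero.1 (by rw [hts]; exact hs0)
  have ht0 : t ≠ 0 := left_ne_zero_of_mul_eq_one htt
  -- Frobenius on elements of the prime field
  have hfrob : ∀ a : ZMod p, ι a ^ p = ι a := fun a => by rw [← map_pow, ZMod.pow_card]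
  have htp : t ^ p = t ∨ t ^ p = t' := by
    have h1 : (t ^ p) ^ 2 - X₀ * t ^ p + 1 = 0 := by
      have h2 : (t ^ 2 - X₀ * t + 1) ^ p = 0 := by
        have h3 : t ^ 2 - X₀ * t + 1 = 0 := by linear_combination t * htx - htt
        rw [h3, zero_pow hpp.ne_zero]
      rw [add_pow_char (t ^ 2 - X₀ * t) 1, sub_pow_char (t ^ 2) (X₀ * t), one_pow, mul_pow,
        hX₀, hfrob, ← pow_mul, mul_comm 2 p, pow_mul] at h2
      rw [hX₀]
      exact h2
    have h2 : (t ^ p - t) * (t ^ p - t') = 0 := by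
      linear_combination h1 - (t ^ p) * htx + htt
    rcases mul_eq_zero.1 h2 with h3 | h3
    · exact Or.inl (sub_eq_zero.1 h3)
    · exact Or.inr (sub_eq_zero.1 h3)
  have ht'p : (t ^ p = t ∧ t' ^ p = t') ∨ (t ^ p = t' ∧ t' ^ p = t) := by
    have h1 : t ^ p * t' ^ p = 1 := by rw [← mul_pow, htt, one_pow]
    rcases htp with h2 | h2
    · left
      refine ⟨h2, ?_⟩
      rw [h2] at h1
      exact mul_left_cancel₀ ht0 (by rw [h1, htt])
    · right
      refine ⟨h2, ?_⟩
      rw [h2] at h1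
      have ht'0 : t' ≠ 0 := right_ne_zero_of_mul_eq_one htt
      exact mul_left_cancel₀ ht'0 (by rw [h1, mul_comm, htt])
  -- the order of t
  set d := orderOf t with hd
  have hdpos : 0 < d ∧ d ≤ p + 1 := by
    rcases htp with h1 | h1
    · have h2 : t ^ (p - 1) = 1 := by
        apply mul_left_cancel₀ ht0
        rw [← pow_succ', Nat.sub_add_cancel hpp.one_le, h1, mul_one]
      have h3 : 0 < p - 1 := by omega
      exact ⟨orderOf_pos_iff.2 (isOfFinOrder_iff_pow_eq_one.2 ⟨p - 1, h3, h2⟩),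
        (Nat.le_of_dvd h3 (orderOf_dvd_of_pow_eq_one h2)).trans (by omega)⟩
    · have h2 : t ^ (p + 1) = 1 := by rw [pow_succ, h1, mul_comm, htt]
      exact ⟨orderOf_pos_iff.2 (isOfFinOrder_iff_pow_eq_one.2 ⟨p + 1, by omega, h2⟩),
        Nat.le_of_dvd (by omega) (orderOf_dvd_of_pow_eq_one h2)⟩
  have hdbig : 110000 * p ≤ d ^ 2 := by
    refine hcon.trans (Nat.pow_le_pow_left ?_ 2)
    refine Nat.le_of_dvd hdpos.1 (orderOf_dvd_of_pow_eq_one ?_)
    exact om_pow_eq_one ι htt htx hne (pow_orderOf_eq_one t)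
  -- the coefficients
  set Y₀ : F := ι (red p y) with hY₀
  set Z₀ : F := ι (red p z) with hZ₀
  set a : F := (Z₀ - t' * Y₀) / s with ha
  set b : F := (t * Y₀ - Z₀) / s with hb
  have hab0 : a + b = Y₀ := by
    rw [ha, hb]
    field_simp
    linear_combination Y₀ * hts
  have hab1 : a * t + b * t' = Z₀ := by
    rw [ha, hb]
    field_simp
    linear_combination Z₀ * hts
  have hyn : ∀ n, ι (red p (rs x y z n)) = a * t ^ n + b * t' ^ n := fun n => by
    rw [map_rs, map_rs]
    exact rs_eq htt htx hab0 hab1 n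
  have hon : X₀ ^ 2 + Y₀ ^ 2 + Z₀ ^ 2 = X₀ * Y₀ * Z₀ + ι (red p D) := by
    have := congrArg (fun u => ι (red p u)) h
    simpa only [map_add, map_mul, map_pow] using this
  have hab : (X₀ ^ 2 - 4) * (a * b) = X₀ ^ 2 - ι (red p D) := by
    rw [hs, ha, hb]
    field_simp
    linear_combination (-(Y₀ ^ 2)) * htt + Y₀ * Z₀ * htx - hon
  have hX4 : X₀ ^ 2 - 4 ≠ 0 := by
    rw [hs]
    exact mul_ne_zero hs0 hs0
  have habne : a * b ≠ 0 := by
    intro h0
    rw [h0, mul_zero] at hab
    apply hxD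
    apply hι
    rw [map_pow]
    exact (sub_eq_zero.1 hab.symm)
  have ha0 : a ≠ 0 := left_ne_zero_of_mul habne
  have hb0 : b ≠ 0 := right_ne_zero_of_mul habne
  have hab1' : a * b ≠ 1 := by
    intro h0
    rw [h0, mul_one] at hab
    apply hD4
    apply hι
    rw [map_ofNat]
    linear_combination hab
  -- the logarithmic values
  set c₀ : ZMod p := (red p x ^ 2 - red p D) / (red p x ^ 2 - 4) with hc₀
  have hc₀' : (red p x ^ 2 - 4) * c₀ = red p x ^ 2 - red p D := by
    rw [hc₀, mul_div_cancel₀ _ (sub_ne_zero.2 hx4)]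
  have hιc : ι c₀ = a * b := by
    apply mul_left_cancel₀ hX4
    have := congrArg ι hc₀'
    rw [hab]
    simpa only [map_mul, map_sub, map_pow, map_ofNat] using this
  set κ : ℕ → ZMod p := fun n =>
    Gv p (red p (rs x y z n)) 1 - Gv p (red p (rs x y z n)) c₀ with hκ
  have hκrec : ∀ n, κ (n + 2) = red p x * κ (n + 1) - κ n := fun n =>
    kappa_rec h hx4 hx hfix hc₀' n
  set α : F := (ι (κ 1) - t' * ι (κ 0)) / s with hα
  set β : F := (t * ι (κ 0) - ι (κ 1)) / s with hβ
  have hκn : ∀ n, ι (κ n) = α * t ^ n + β * t' ^ n := fun n => by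
    rw [rs_of_rec hκrec n, map_rs]
    refine rs_eq htt htx ?_ ?_ n
    · rw [hα, hβ]
      field_simp
      linear_combination (ι (κ 0)) * hts
    · rw [hα, hβ]
      field_simp
      linear_combination (ι (κ 1)) * hts
  -- Frobenius on a, b
  have hsp : s ^ p = t ^ p - t' ^ p := by rw [← hts, sub_pow_char]
  have hY₀p : Y₀ ^ p = Y₀ := hfrob _
  have hZ₀p : Z₀ ^ p = Z₀ := hfrob _
  have hap : a ^ p = (Z₀ - t' ^ p * Y₀) / (t ^ p - t' ^ p) := by
    rw [ha, div_pow, sub_pow_char, mul_pow, hY₀p, hZ₀p, hsp]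
  have hbp : b ^ p = (t ^ p * Y₀ - Z₀) / (t ^ p - t' ^ p) := by
    rw [hb, div_pow, sub_pow_char, mul_pow, hY₀p, hZ₀p, hsp]
  -- the root of E
  obtain ⟨r, hr⟩ := IsAlgClosed.exists_eq_mul_self (1 - a * b)
  set w₀ : F := (1 + r) / a with hw₀
  have hw₀eq : a * w₀ ^ 2 - 2 * w₀ + b = 0 := by
    rw [hw₀]
    field_simp
    linear_combination -hr
  have hw₀0 : w₀ ≠ 0 := by
    intro h0
    rw [h0] at hw₀eq
    apply hb0
    linear_combination hw₀eq
  have hE0 : (Ep a b).eval w₀ = 0 := by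
    rw [Ep]
    simp only [eval_sub, eval_add, eval_mul, eval_pow, eval_C, eval_X, eval_ofNat]
    linear_combination (a * w₀ ^ 2 + 2 * w₀ + b) * hw₀eq
  have habw : a * w₀ ^ 2 - b ≠ 0 := by
    intro h0
    have h1 : w₀ = b := by
      apply mul_left_cancel₀ h2F
      linear_combination h0 - hw₀eq
    rw [h1] at h0
    apply hab1'
    apply mul_left_cancel₀ hb0
    linear_combination h0
  -- the points
  set Q : F[X] := Kp p a b with hQd
  have hQ := X_mul_derivative_Kp (R := F) p hp2 a b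
  have hdeg := natDegree_Kp (R := F) p a b
  have hEval : ∀ n, (Ep a b).eval (t ^ n) = (t ^ n) ^ 2 * ι (red p (rs x y z n) ^ 2 - 4) := by
    intro n
    have h1 : t ^ n * t' ^ n = 1 := by rw [← mul_pow, htt, one_pow]
    rw [Ep, map_sub, map_pow, map_ofNat, hyn n]
    simp only [eval_sub, eval_add, eval_mul, eval_pow, eval_C, eval_X, eval_ofNat]
    linear_combination (-(b * (a * (t ^ n) ^ 2 + b + t ^ n * (a * t ^ n + b * t' ^ n)))) * h1
  have hEval0 : ∀ n, (Ep a b).eval (t ^ n) ≠ 0 := by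
    intro n
    rw [hEval n]
    refine mul_ne_zero (pow_ne_zero _ (pow_ne_zero _ ht0)) ?_
    rw [Ne, map_eq_zero]
    exact sub_ne_zero.2 (hy4 n)
  have hsign : ∀ n, ∃ σ : F, (σ = 1 ∨ σ = -1) ∧
      (Ep a b).eval (t ^ n) ^ ((p - 1) / 2) = σ * (t ^ n) ^ (p - 1) := by
    intro n
    refine ⟨ι (red p (rs x y z n) ^ 2 - 4) ^ ((p - 1) / 2), ?_, ?_⟩
    · have h1 := ZMod.pow_div_two_eq_neg_one_or_one p (sub_ne_zero.2 (hy4 n))
      have h2 : p / 2 = (p - 1) / 2 := by
        rcases hpp.eq_two_or_odd with h3 | h3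
        · exact absurd h3 hp2
        · omega
      rw [h2] at h1
      rcases h1 with h1 | h1
      · left
        rw [← map_pow, h1, map_one]
      · right
        rw [← map_pow, h1, map_neg, map_one]
    · rw [hEval n, mul_pow, ← pow_mul (t ^ n) 2]
      have h2 : 2 * ((p - 1) / 2) = p - 1 := by
        rcases hpp.eq_two_or_odd with h3 | h3
        · exact absurd h3 hp2
        · omega
      rw [h2, mul_comm]
  have hQval : ∀ n, Q.eval (t ^ n) = (t ^ n) ^ p * (α * t ^ n + β * t' ^ n) := by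
    intro n
    have h1 : t ^ n * t' ^ n = 1 := by rw [← mul_pow, htt, one_pow]
    rw [hQd, eval_Kp, ← hκn n, hκ]
    have h2 : a * (t ^ n) ^ 2 + b = t ^ n * ι (red p (rs x y z n)) := by
      rw [hyn n]
      linear_combination (-b) * h1
    have h3 : (t ^ n) ^ 2 = (t ^ n) ^ 2 * 1 := (mul_one _).symm
    have h4 : a * b * (t ^ n) ^ 2 = (t ^ n) ^ 2 * ι c₀ := by rw [hιc]; ring
    have h5 : Gv p (a * (t ^ n) ^ 2 + b) ((t ^ n) ^ 2) =
        (t ^ n) ^ p * Gv p (ι (red p (rs x y z n))) 1 := by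
      rw [h2, ← Gv_homog p, mul_one]
    have h6 : Gv p (a * (t ^ n) ^ 2 + b) (a * b * (t ^ n) ^ 2) =
        (t ^ n) ^ p * Gv p (ι (red p (rs x y z n))) (ι c₀) := by
      rw [h2, h4, ← Gv_homog p]
    rw [h5, h6, map_sub, map_Gv, map_Gv, map_one]
    ring
  -- the two halves
  set Zs : F → Finset F := fun σ => ((Finset.range d).image fun n => t ^ n).filter fun w =>
    (Ep a b).eval w ^ ((p - 1) / 2) = σ * w ^ (p - 1) with hZs
  have hcardZ : ((Finset.range d).image fun n => t ^ n).card = d := by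
    rw [Finset.card_image_of_injOn, Finset.card_range]
    intro i hi j hj hij
    rw [Finset.coe_range, Set.mem_Iio] at hi hj
    exact pow_injOn_Iio_orderOf hi hj hij
  have hhalf : d ≤ (Zs 1).card + (Zs (-1)).card := by
    rw [← hcardZ, ← Finset.card_union_add_card_inter]
    refine (Finset.card_le_card ?_).trans (Nat.le_add_right _ _)
    intro w hw
    obtain ⟨n, hn, rfl⟩ := Finset.mem_image.1 hw
    obtain ⟨σ, hσ, h1⟩ := hsign n
    rw [Finset.mem_union]
    rcases hσ with rfl | rfl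
    · exact Or.inl (Finset.mem_filter.2 ⟨hw, h1⟩)
    · exact Or.inr (Finset.mem_filter.2 ⟨hw, h1⟩)
  -- the bound for each half
  have main : ∀ σ : F, ∀ nI nJ nK nL M : ℕ, nI ≤ d → (∀ i < nI, ∀ k < nK, i + d * k < p) →
      nL ≤ p → M ≤ p → nI * nK * nL ≤ (p - 1) / 2 →
      M * (nI + 6 * M + 4 * nL + 2 * nJ) < nI * nJ * nK * nL →
      M * (Zs σ).card ≤ p * nJ + (nI + d * nK + 2 * p * nL) := by
    intro σ nI nJ nK nL M h1 h2 h3 h4 h5 h6
    have hmem : ∀ w ∈ Zs σ, ∃ n, w = t ^ n ∧
        (Ep a b).eval w ^ ((p - 1) / 2) = σ * w ^ (p - 1) := by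
      intro w hw
      obtain ⟨h7, h8⟩ := Finset.mem_filter.1 hw
      obtain ⟨n, -, rfl⟩ := Finset.mem_image.1 h7
      exact ⟨n, rfl, h8⟩
    have z0 : ∀ w ∈ Zs σ, w ≠ 0 := by
      intro w hw
      obtain ⟨n, rfl, -⟩ := hmem w hw
      exact pow_ne_zero _ ht0
    have zE : ∀ w ∈ Zs σ, (Ep a b).eval w ≠ 0 := by
      intro w hw
      obtain ⟨n, rfl, -⟩ := hmem w hw
      exact hEval0 n
    have zd : ∀ w ∈ Zs σ, w ^ d = 1 := by
      intro w hw
      obtain ⟨n, rfl, -⟩ := hmem w hw
      rw [← pow_mul, mul_comm, pow_mul, hd, pow_orderOf_eq_one, one_pow]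
    have hwp1 : ∀ w : F, w ≠ 0 → w ^ 2 * w ^ (p - 1) = w * w ^ p := by
      intro w _
      rw [pow_two, mul_assoc, ← pow_succ', Nat.sub_add_cancel hpp.one_le]
    rcases ht'p with ⟨e1, e2⟩ | ⟨e1, e2⟩
    · -- the split case
      have hap' : a ^ p = a := by rw [hap, e1, e2, hts]
      have hbp' : b ^ p = b := by rw [hbp, e1, e2, hts]
      have hwp : ∀ n : ℕ, (t ^ n) ^ p = t ^ n := fun n => by
        rw [← pow_mul, mul_comm, pow_mul, e1]
      refine stepanov (F := F) (Q := Q) (w₀ := w₀) (Z := Zs σ) (d := d)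
        (gW := X ^ 2 - C (w₀ ^ p) * X) (gK := C α * X ^ 4 + C β * X ^ 2)
        (ge := C σ * X ^ 2) (gh := C a * X ^ 4 - C b * X ^ 2) hp2 hQ hdeg hw₀0 hE0 habw z0 zE zd
        (by compute_degree) (by compute_degree!) (by compute_degree!) (by compute_degree!)
        ?_ ?_ ?_ ?_ h1 h2 h3 h4 h5 h6
      · intro w hw
        obtain ⟨n, rfl, -⟩ := hmem w hw
        rw [sub_pow_char, hwp]
        simp only [eval_sub, eval_mul, eval_pow, eval_C, eval_X]
        ring
      · intro w hw
        obtain ⟨n, rfl, -⟩ := hmem w hw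
        have h7 : t ^ n * t' ^ n = 1 := by rw [← mul_pow, htt, one_pow]
        rw [hQval, hwp]
        simp only [eval_add, eval_mul, eval_pow, eval_C, eval_X]
        linear_combination (-((t ^ n) ^ 2 * β)) * h7
      · intro w hw
        obtain ⟨n, h7, h8⟩ := hmem w hw
        rw [eval_pow, h8]
        simp only [eval_mul, eval_pow, eval_C, eval_X]
        have h9 := hwp1 w (z0 w hw)
        have h10 : w ^ p = w := by rw [h7, hwp]
        rw [h10] at h9
        linear_combination (-σ) * h9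
      · intro w hw
        obtain ⟨n, rfl, -⟩ := hmem w hw
        simp only [eval_sub, eval_mul, eval_pow, eval_C, eval_X]
        rw [sub_pow_char, mul_pow, hap', hbp', ← pow_mul (t ^ n) 2 p, mul_comm 2 p, pow_mul, hwp]
        ring
    · -- the non-split case
      have hap' : a ^ p = b := by
        rw [hap, e1, e2, hb, ← hts, ← neg_sub t t', div_neg, ← neg_div]
        congr 1
        ring
      have hbp' : b ^ p = a := by
        rw [hbp, e1, e2, ha, ← hts, ← neg_sub t t', div_neg, ← neg_div]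
        congr 1
        ring
      have hwp : ∀ n : ℕ, (t ^ n) ^ p = t' ^ n := fun n => by
        rw [← pow_mul, mul_comm, pow_mul, e1]
      refine stepanov (F := F) (Q := Q) (w₀ := w₀) (Z := Zs σ) (d := d)
        (gW := 1 - C (w₀ ^ p) * X) (gK := C α * X ^ 2 + C β)
        (ge := C σ) (gh := C b - C a * X ^ 2) hp2 hQ hdeg hw₀0 hE0 habw z0 zE zd
        (by compute_degree!) (by compute_degree!) (by compute_degree!) (by compute_degree!)
        ?_ ?_ ?_ ?_ h1 h2 h3 h4 h5 h6
      · intro w hw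
        obtain ⟨n, rfl, -⟩ := hmem w hw
        have h7 : t ^ n * t' ^ n = 1 := by rw [← mul_pow, htt, one_pow]
        rw [sub_pow_char, hwp]
        simp only [eval_sub, eval_mul, eval_one, eval_C, eval_X]
        linear_combination -h7
      · intro w hw
        obtain ⟨n, rfl, -⟩ := hmem w hw
        have h7 : t ^ n * t' ^ n = 1 := by rw [← mul_pow, htt, one_pow]
        rw [hQval, hwp]
        simp only [eval_add, eval_mul, eval_pow, eval_C, eval_X]
        linear_combination (-(α * (t ^ n) ^ 2 + β * (t ^ n * t' ^ n + 1))) * h7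
      · intro w hw
        obtain ⟨n, h7, h8⟩ := hmem w hw
        rw [eval_pow, h8]
        simp only [eval_C]
        have h9 := hwp1 w (z0 w hw)
        have h10 : w * w ^ p = 1 := by rw [h7, hwp, ← mul_pow, htt, one_pow]
        rw [h10] at h9
        linear_combination (-σ) * h9
      · intro w hw
        obtain ⟨n, rfl, -⟩ := hmem w hw
        have h7 : t ^ n * t' ^ n = 1 := by rw [← mul_pow, htt, one_pow]
        simp only [eval_sub, eval_mul, eval_pow, eval_C, eval_X]
        rw [sub_pow_char, mul_pow, hap', hbp', ← pow_mul (t ^ n) 2 p, mul_comm 2 p, pow_mul, hwp]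
        linear_combination (-(b * (t ^ n * t' ^ n + 1))) * h7
  -- conclusion
  rcases Nat.lt_or_ge (2 * (Zs 1).card) d with hlt | hge'
  · exact numeric (z := (Zs (-1)).card) hdbig hdpos.2 (by omega) (by omega) (main (-1))
  · exact numeric (z := (Zs 1).card) hdbig hdpos.2 (by omega) hge' (main 1)

/-- Coordinates of the section have small order. -/
theorem order_sq_lt (hp : 5 ≤ p) {D x y z : ZMod (p ^ 2)} (h : OnX D (x, y, z))
    (hx4 : red p x ^ 2 ≠ 4) (hx : dk x 1 p = x)
    (hfix : ∀ n, dk (rs x y z n) 1 p = rs x y z n) (hy4 : ∀ n, red p (rs x y z n) ^ 2 ≠ 4)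
    (hxD : red p x ^ 2 ≠ red p D) (hD4 : red p D ≠ 4) :
    orderOf (om (red p x)) ^ 2 < 110000 * p := by
  have : CharP (AlgebraicClosure (ZMod p)) p :=
    charP_of_injective_algebraMap (algebraMap (ZMod p) (AlgebraicClosure (ZMod p))).injective p
  exact aux (algebraMap (ZMod p) (AlgebraicClosure (ZMod p))) hp h hx4 hx hfix hy4 hxD hD4

end Pool.Agent.Work.MP_60c97f_nt
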