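import Pool.Agent.Work.MP_60c97f_nt.Cnt

/-!
# The number of bad lifts of a non-square residue class
-/

set_option autoImplicit false

namespace Pool.Agent.Work.MP_60c97f_nt

variable {p : ℕ} [Fact p.Prime]

/-- Some orbit of the Vieta involutions on `X_D^*(Z/p²)` is not full. -/
def Bad (D : ZMod (p ^ 2)) : Prop := ∃ P ∈ XStar D, ¬ Full D P

theorem four_ne_of_not_isSquare {a : ZMod p} (h : ¬ IsSquare a) : a ≠ 4 := fun h4 =>
  h ⟨2, by rw [h4]; norm_num⟩

theorem sub_sq_ne {a : ZMod p} (h : ¬ IsSquare a) : (2 - a) ^ 2 ≠ 4 := by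
  intro h1
  have h2 : a * (a - 4) = 0 := by linear_combination h1
  rcases mul_eq_zero.1 h2 with h3 | h3
  · exact h ⟨0, by rw [h3, mul_zero]⟩
  · exact four_ne_of_not_isSquare h (by linear_combination h3)

theorem order_dvd (hp : p ≠ 2) {a : ZMod p} (h : ¬ IsSquare a) :
    orderOf (om (2 - a)) ∣ p ^ 2 - 1 :=
  orderOf_dvd_of_pow_eq_one (om_pow_card hp (sub_sq_ne h))

theorem order_coprime (hp : p ≠ 2) {a : ZMod p} (h : ¬ IsSquare a) :
    Nat.Coprime p (orderOf (om (2 - a))) := by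
  have hpp : p.Prime := Fact.out
  refine (Nat.Prime.coprime_iff_not_dvd hpp).2 fun hd => ?_
  have h1 := hd.trans (order_dvd hp h)
  have h2 : p ∣ p ^ 2 := dvd_pow_self p two_ne_zero
  have h3 : p ∣ p ^ 2 - (p ^ 2 - 1) := Nat.dvd_sub h2 h1
  have h5 : p ^ 2 - (p ^ 2 - 1) = 1 := by
    have : 1 ≤ p ^ 2 := Nat.one_le_pow _ _ hpp.pos
    omega
  rw [h5] at h3
  exact hpp.one_lt.ne' (Nat.dvd_one.1 h3)

theorem order_dvd_section (hp : 5 ≤ p) {D : ZMod (p ^ 2)} (hD : ¬ IsSquare (red p D))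
    {P : ZMod (p ^ 2) × ZMod (p ^ 2) × ZMod (p ^ 2)} (hP : P ∈ XStar D) (hnf : ¬ Full D P) :
    orderOf (om (2 - red p D)) ∣ (redP '' vorb P).ncard := by
  rw [← ncard_section]
  have hD4 := four_ne_of_not_isSquare hD
  have h1 : om (2 - D) ^ (TP '' vorb P).ncard = 1 := by
    refine pow_ncard_eq_one (stable_section hp hD4 (Or.inr hD) hP hnf) ?_ ?_
    · rintro _ ⟨Q, hQ, rfl⟩
      exact (section_of_not_full hp hD4 (Or.inr hD) hP hnf hQ).1
    · have hne : ∀ x : ZMod (p ^ 2), red p (x ^ 2 - D) ≠ 0 := by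
        intro x hx
        rw [map_sub, map_pow, sub_eq_zero] at hx
        exact hD ⟨red p x, by rw [← hx, pow_two]⟩
      exact fun Q _ => ⟨hne _, hne _, hne _⟩
  have h2 := map_om_pow (red p) (2 - D) (TP '' vorb P).ncard
  rw [h1, QuadraticAlgebra.re_one, QuadraticAlgebra.im_one, map_sub, map_ofNat, map_one,
    map_zero] at h2
  apply orderOf_dvd_of_pow_eq_one
  ext
  · rw [← h2.1, QuadraticAlgebra.re_one]
  · rw [← h2.2, QuadraticAlgebra.im_one]

theorem mul_le_section (hp : 5 ≤ p) {D : ZMod (p ^ 2)} (hD : ¬ IsSquare (red p D))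
    (hT : dk (D - 2) 1 p ≠ D - 2)
    {P : ZMod (p ^ 2) × ZMod (p ^ 2) × ZMod (p ^ 2)} (hP : P ∈ XStar D) (hnf : ¬ Full D P) :
    p * orderOf (om (2 - red p D)) ≤ (redP '' vorb P).ncard := by
  have hpp : p.Prime := Fact.out
  have : NeZero p := ⟨hpp.ne_zero⟩
  have hp2 : p ≠ 2 := by omega
  have hD4 := four_ne_of_not_isSquare hD
  have h1 : p ∣ (redP '' vorb P).ncard := by
    rw [← ncard_section]
    refine dvd_ncard hp2 (stable_section hp hD4 (Or.inr hD) hP hnf) ?_ hD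
      (by rwa [dickson_eval])
    rintro _ ⟨Q, hQ, rfl⟩
    exact (section_of_not_full hp hD4 (Or.inr hD) hP hnf hQ).1
  have h2 := (order_coprime hp2 hD).mul_dvd_of_dvd_of_dvd h1 (order_dvd_section hp hD hP hnf)
  refine Nat.le_of_dvd ?_ h2
  exact (Set.ncard_pos (Set.toFinite _)).2 ⟨_, P, mem_vorb_self P, rfl⟩

/-- the surface over `F_p` has at most `2 p²` points -/
theorem card_surface_le (a : ZMod p) :
    {P : ZMod p × ZMod p × ZMod p | OnX a P}.ncard ≤ 2 * p ^ 2 := by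
  classical
  have hpp : p.Prime := Fact.out
  have : NeZero p := ⟨hpp.ne_zero⟩
  have hfin : {P : ZMod p × ZMod p × ZMod p | OnX a P}.Finite := Set.toFinite _
  rw [Set.ncard_eq_toFinset_card _ hfin]
  refine (Finset.card_le_mul_card_image (f := fun P : ZMod p × ZMod p × ZMod p => (P.1, P.2.1))
    hfin.toFinset 2 ?_).trans ?_
  · rintro ⟨x, y⟩ -
    by_cases hne : ((hfin.toFinset).filter fun P => (P.1, P.2.1) = (x, y)).Nonempty
    · obtain ⟨⟨x₀, y₀, z₀⟩, h0⟩ := hne
      rw [Finset.mem_filter, Set.Finite.mem_toFinset] at h0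
      obtain ⟨h0, h1⟩ := h0
      simp only [Prod.mk.injEq] at h1
      obtain ⟨rfl, rfl⟩ := h1
      have hsub : ((hfin.toFinset).filter fun P => (P.1, P.2.1) = (x₀, y₀)) ⊆
          {(x₀, y₀, z₀), (x₀, y₀, x₀ * y₀ - z₀)} := by
        rintro ⟨x, y, z⟩ h
        rw [Finset.mem_filter, Set.Finite.mem_toFinset] at h
        obtain ⟨h2, h3⟩ := h
        simp only [Prod.mk.injEq] at h3
        obtain ⟨rfl, rfl⟩ := h3
        simp only [Set.mem_ofPred_eq, OnX] at h0 h2
        have h4 : (z - z₀) * (z - (x * y - z₀)) = 0 := by linear_combination h2 - h0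
        rcases mul_eq_zero.1 h4 with h5 | h5
        · simp [sub_eq_zero.1 h5]
        · simp [sub_eq_zero.1 h5]
      exact (Finset.card_le_card hsub).trans Finset.card_le_two
    · rw [Finset.not_nonempty_iff_eq_empty.1 hne]
      simp
  · refine Nat.mul_le_mul_left 2 ?_
    refine (Finset.card_le_univ _).trans ?_
    rw [Fintype.card_prod, ZMod.card, pow_two]

/-- bad lifts which are not special -/
def BadSet (a : ZMod p) : Set (ZMod (p ^ 2)) :=
  {D | red p D = a ∧ Bad D ∧ dk (D - 2) 1 p ≠ D - 2}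

theorem card_badSet (hp : 5 ≤ p) {a : ZMod p} (ha : ¬ IsSquare a) :
    (BadSet a).ncard * orderOf (om (2 - a)) ≤ 2 * p := by
  classical
  have hpp : p.Prime := Fact.out
  have : NeZero p := ⟨hpp.ne_zero⟩
  have : NeZero (p ^ 2) := ⟨pow_ne_zero 2 hpp.ne_zero⟩
  have hch : ∀ D : ZMod (p ^ 2), ∃ P : ZMod (p ^ 2) × ZMod (p ^ 2) × ZMod (p ^ 2),
      D ∈ BadSet a → P ∈ XStar D ∧ ¬ Full D P := by
    intro D
    by_cases h : D ∈ BadSet a
    · obtain ⟨P, h1, h2⟩ := h.2.1
      exact ⟨P, fun _ => ⟨h1, h2⟩⟩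
    · exact ⟨0, fun h' => absurd h' h⟩
  choose f hf using hch
  have hfin : (BadSet a).Finite := Set.toFinite _
  have hfinA : ∀ D, (redP '' vorb (f D)).Finite := fun D => Set.toFinite _
  have hfinY : {P : ZMod p × ZMod p × ZMod p | OnX a P}.Finite := Set.toFinite _
  have hD4 : ∀ D ∈ BadSet a, ¬ IsSquare (red p D) := fun D hD => by rw [hD.1]; exact ha
  have hsec : ∀ D ∈ BadSet a, ∀ Q ∈ vorb (f D), OnX D (TP Q) := fun D hD Q hQ =>
    (section_of_not_full hp (four_ne_of_not_isSquare (hD4 D hD)) (Or.inr (hD4 D hD)) (hf D hD).1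
      (hf D hD).2 hQ).1
  have hdisj : Set.PairwiseDisjoint (hfin.toFinset : Set (ZMod (p ^ 2)))
      (fun D => (hfinA D).toFinset) := by
    intro D hD D' hD' hne
    rw [Set.Finite.coe_toFinset] at hD hD'
    rw [Function.onFun, Finset.disjoint_left]
    intro b hb hb'
    rw [Set.Finite.mem_toFinset] at hb hb'
    obtain ⟨Q, hQ, rfl⟩ := hb
    obtain ⟨Q', hQ', hr⟩ := hb'
    apply hne
    have h1 := hsec D hD Q hQ
    have h2 := hsec D' hD' Q' hQ'
    rw [TP_congr hr] at h2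
    simp only [OnX] at h1 h2
    linear_combination h2 - h1
  have h1 : ∑ D ∈ hfin.toFinset, (hfinA D).toFinset.card ≤
      {P : ZMod p × ZMod p × ZMod p | OnX a P}.ncard := by
    rw [← Finset.card_biUnion hdisj, Set.ncard_eq_toFinset_card _ hfinY]
    refine Finset.card_le_card fun b hb => ?_
    rw [Finset.mem_biUnion] at hb
    obtain ⟨D, hD, hb⟩ := hb
    rw [Set.Finite.mem_toFinset] at hD hb ⊢
    obtain ⟨Q, hQ, rfl⟩ := hb
    have h2 := hsec D hD Q hQ
    have h3 := congrArg (red p) h2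
    simp only [map_add, map_mul, map_pow, hD.1] at h3
    rw [← redP_TP Q]
    exact h3
  have h2 : hfin.toFinset.card * (p * orderOf (om (2 - a))) ≤
      ∑ D ∈ hfin.toFinset, (hfinA D).toFinset.card := by
    rw [← smul_eq_mul, ← Finset.sum_const]
    refine Finset.sum_le_sum fun D hD => ?_
    rw [Set.Finite.mem_toFinset] at hD
    have h3 := mul_le_section hp (hD4 D hD) hD.2.2 (hf D hD).1 (hf D hD).2
    rw [Set.ncard_eq_toFinset_card _ (hfinA D), hD.1] at h3
    exact h3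
  have h3 := (h2.trans h1).trans (card_surface_le a)
  rw [Set.ncard_eq_toFinset_card _ hfin]
  have h4 : p * (hfin.toFinset.card * orderOf (om (2 - a))) ≤ p * (2 * p) := by
    calc p * (hfin.toFinset.card * orderOf (om (2 - a))) =
        hfin.toFinset.card * (p * orderOf (om (2 - a))) := by ring
      _ ≤ 2 * p ^ 2 := h3
      _ = p * (2 * p) := by ring
  exact Nat.le_of_mul_le_mul_left h4 hpp.pos

theorem card_bad_lifts (hp : 5 ≤ p) {a : ZMod p} (ha : ¬ IsSquare a) :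
    ({D : ZMod (p ^ 2) | red p D = a ∧ Bad D}.ncard - 1) * orderOf (om (2 - a)) ≤ 2 * p := by
  have hpp : p.Prime := Fact.out
  have : NeZero (p ^ 2) := ⟨pow_ne_zero 2 hpp.ne_zero⟩
  refine le_trans (Nat.mul_le_mul_right _ ?_) (card_badSet hp ha)
  obtain ⟨D₀, hD₀⟩ := red_surj (p := p) a
  have hsub : {D : ZMod (p ^ 2) | red p D = a ∧ Bad D} ⊆
      insert (dk (D₀ - 2) 1 p + 2) (BadSet a) := by
    rintro D ⟨h1, h2⟩
    by_cases h3 : dk (D - 2) 1 p = D - 2
    · left
      have h4 : dk (D - 2) 1 p = dk (D₀ - 2) 1 p := dk_congr' (by rw [map_sub, map_sub, h1, hD₀])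
      rw [← h4, h3]
      ring
    · exact Or.inr ⟨h1, h2, h3⟩
  have h5 := (Set.ncard_le_ncard hsub (Set.toFinite _)).trans (Set.ncard_insert_le _ _)
  omega

end Pool.Agent.Work.MP_60c97f_nt
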