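import Pool.Agent.Work.MP_60c97f_nt.Defs

/-!
# Dickson type recursion

`dk (t + u) (t u) n = t ^ n + u ^ n`; modulo `p²` the value `dk y s p` only depends on `y`, `s` modulo `p`.
-/

set_option autoImplicit false

namespace Pool.Agent.Work.MP_60c97f_nt

/-- `dk (t + u) (t u) n = t ^ n + u ^ n`. -/
def dk {R : Type} [CommRing R] (y s : R) : ℕ → R
  | 0 => 2
  | 1 => y
  | n + 2 => y * dk y s (n + 1) - s * dk y s n

section ring

variable {R S : Type} [CommRing R] [CommRing S]

theorem dk_add_mul (t u : R) (n : ℕ) : dk (t + u) (t * u) n = t ^ n + u ^ n := by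
  induction n using Nat.twoStepInduction with
  | zero => simp [dk]; norm_num
  | one => simp [dk]
  | more n h1 h2 => rw [dk, h1, h2]; ring

theorem map_dk (f : R →+* S) (y s : R) (n : ℕ) : f (dk y s n) = dk (f y) (f s) n := by
  induction n using Nat.twoStepInduction with
  | zero => exact map_ofNat f 2
  | one => simp [dk]
  | more n h1 h2 => simp [dk, h1, h2]

theorem dk_of_add_mul {t u y s : R} (h : t + u = y) (h' : t * u = s) (n : ℕ) :
    dk y s n = t ^ n + u ^ n := by
  rw [← h, ← h', dk_add_mul]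

theorem dk_neg (y s : R) (n : ℕ) : dk (-y) s n = (-1) ^ n * dk y s n := by
  induction n using Nat.twoStepInduction with
  | zero => simp [dk]
  | one => simp [dk]
  | more n h1 h2 => rw [dk, h1, h2, dk]; ring

theorem dk_charP (p : ℕ) [Fact p.Prime] [CharP R p] (y s : R) : dk y s p = y ^ p := by
  let A := QuadraticAlgebra R (-s) y
  have hinj : Function.Injective (algebraMap R A) := QuadraticAlgebra.algebraMap_injective
  have : CharP A p := charP_of_injective_algebraMap hinj p
  let t : A := ⟨0, 1⟩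
  have h1 : t + (algebraMap R A y - t) = algebraMap R A y := by ring
  have h2 : t * (algebraMap R A y - t) = algebraMap R A s := by
    simp only [t, A, QuadraticAlgebra.algebraMap_eq]
    ext <;> simp
  apply hinj
  rw [map_dk, dk_of_add_mul h1 h2, ← add_pow_char, h1, map_pow]

/-- The value `dk y s p - y ^ p` is `p` times an integral polynomial. -/
theorem exists_dk_eq (p : ℕ) [Fact p.Prime] : ∃ G : MvPolynomial (Fin 2) ℤ,
    ∀ {R : Type} [CommRing R] (y s : R),
      dk y s p = y ^ p + p * MvPolynomial.aeval ![y, s] G := by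
  set Y : MvPolynomial (Fin 2) ℤ := MvPolynomial.X 0
  set s' : MvPolynomial (Fin 2) ℤ := MvPolynomial.X 1
  have h1 : MvPolynomial.map (Int.castRingHom (ZMod p)) (dk Y s' p - Y ^ p) = 0 := by
    rw [map_sub, map_dk, dk_charP p, map_pow, sub_self]
  have h2 : MvPolynomial.C (p : ℤ) ∣ dk Y s' p - Y ^ p := by
    rw [MvPolynomial.C_dvd_iff_dvd_coeff]
    intro i
    have h3 := congrArg (MvPolynomial.coeff i) h1
    rw [MvPolynomial.coeff_map, MvPolynomial.coeff_zero, eq_intCast,
      ZMod.intCast_zmod_eq_zero_iff_dvd] at h3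
    exact h3
  obtain ⟨G, hG⟩ := h2
  refine ⟨G, fun {R} _ y s => ?_⟩
  have h4 := congrArg (MvPolynomial.aeval ![y, s]) hG
  rw [map_sub, map_mul, map_pow] at h4
  have h5 : MvPolynomial.aeval ![y, s] (dk Y s' p) = dk y s p := by
    have := map_dk (MvPolynomial.aeval (R := ℤ) ![y, s]).toRingHom Y s' p
    simpa [Y, s'] using this
  rw [h5] at h4
  have h6 : MvPolynomial.aeval ![y, s] (MvPolynomial.C (p : ℤ) : MvPolynomial (Fin 2) ℤ) =
      (p : R) := by simp
  have h7 : MvPolynomial.aeval ![y, s] Y = y := by simp [Y]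
  rw [h6, h7] at h4
  linear_combination h4

theorem aeval_sub_dvd {m : R} (G : MvPolynomial (Fin 2) ℤ) {y y' s s' : R} (hy : m ∣ y - y')
    (hs : m ∣ s - s') :
    m ∣ MvPolynomial.aeval ![y, s] G - MvPolynomial.aeval ![y', s'] G := by
  induction G using MvPolynomial.induction_on with
  | C a => simp
  | add a b ha hb =>
    rw [map_add, map_add, add_sub_add_comm]
    exact dvd_add ha hb
  | mul_X a i ha =>
    rw [map_mul, map_mul, MvPolynomial.aeval_X, MvPolynomial.aeval_X]
    have h : ∀ i : Fin 2, m ∣ (![y, s] i : R) - ![y', s'] i := by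
      intro i
      fin_cases i
      · simpa using hy
      · simpa using hs
    obtain ⟨c, hc⟩ := ha
    obtain ⟨d, hd⟩ := h i
    refine ⟨c * ![y, s] i + MvPolynomial.aeval ![y', s'] a * d, ?_⟩
    linear_combination (![y, s] i) * hc + (MvPolynomial.aeval ![y', s'] a) * hd

/-- Modulo `p²` the value `dk y s p` depends only on `y`, `s` modulo `p`. -/
theorem dk_congr {p : ℕ} [Fact p.Prime] (hp : (p : R) ^ 2 = 0) {y y' s s' : R}
    (hy : (p : R) ∣ y - y') (hs : (p : R) ∣ s - s') : dk y s p = dk y' s' p := by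
  obtain ⟨G, hG⟩ := exists_dk_eq p
  rw [hG, hG]
  obtain ⟨c, hc⟩ := aeval_sub_dvd G hy hs
  have h1 : y ^ p = y' ^ p := by
    have := dvd_sub_pow_of_dvd_sub hy 1
    rw [pow_one, hp, zero_dvd_iff] at this
    exact sub_eq_zero.1 this
  rw [h1]
  linear_combination p * hc + c * hp

end ring

section zmod

variable {p : ℕ} [Fact p.Prime]

/-- reduction modulo `p` -/
def red (p : ℕ) : ZMod (p ^ 2) →+* ZMod p := ZMod.castHom (dvd_pow_self p two_ne_zero) (ZMod p)

theorem natCast_sq_eq_zero (p : ℕ) : (p : ZMod (p ^ 2)) ^ 2 = 0 := by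
  have := ZMod.natCast_self (p ^ 2)
  rwa [Nat.cast_pow] at this

theorem red_eq_zero_iff (a : ZMod (p ^ 2)) : red p a = 0 ↔ (p : ZMod (p ^ 2)) ∣ a := by
  have hp : p.Prime := Fact.out
  have : NeZero (p ^ 2) := ⟨pow_ne_zero 2 hp.ne_zero⟩
  constructor
  · intro h
    obtain ⟨n, rfl⟩ : ∃ n : ℕ, a = n := ⟨a.val, (ZMod.natCast_zmod_val a).symm⟩
    rw [map_natCast, ZMod.natCast_eq_zero_iff] at h
    exact_mod_cast Nat.cast_dvd_cast (α := ZMod (p ^ 2)) h
  · rintro ⟨c, rfl⟩
    rw [map_mul, map_natCast, ZMod.natCast_self, zero_mul]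

theorem red_eq_red_iff (a b : ZMod (p ^ 2)) : red p a = red p b ↔ (p : ZMod (p ^ 2)) ∣ a - b := by
  rw [← red_eq_zero_iff, map_sub, sub_eq_zero]

/-- `dk x 1 p` is congruent to `x` modulo `p`. -/
theorem red_dk (x : ZMod (p ^ 2)) (s : ZMod (p ^ 2)) : red p (dk x s p) = red p x := by
  rw [map_dk, dk_charP p, ZMod.pow_card]

theorem dk_dk (x : ZMod (p ^ 2)) : dk (dk x 1 p) 1 p = dk x 1 p :=
  dk_congr (natCast_sq_eq_zero p) ((red_eq_red_iff _ _).1 (red_dk x 1)) (by simp)

/-- If `r ^ n = 1` with `p ∤ n` then the trace of `r` is fixed by `x ↦ dk x 1 p`. -/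
theorem dk_eq_self_of_pow {S : Type} [CommRing S] (φ : ZMod (p ^ 2) →+* S)
    (hφ : Function.Injective φ) {x : ZMod (p ^ 2)} {r r' : S} (h : r * r' = 1)
    (hx : r + r' = φ x) {n : ℕ} (hn0 : n ≠ 0) (hn : r ^ n = 1) (hpn : ¬ p ∣ n) :
    dk x 1 p = x := by
  have hp : p.Prime := Fact.out
  have hn' : r' ^ n = 1 := by
    have : r ^ n * r' ^ n = 1 := by rw [← mul_pow, h, one_pow]
    rwa [hn, one_mul] at this
  have hiter : ∀ j : ℕ, φ ((fun y => dk y 1 p)^[j] x) = r ^ p ^ j + r' ^ p ^ j := by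
    intro j
    induction j with
    | zero => simp [hx]
    | succ j ih =>
      rw [Function.iterate_succ_apply', map_dk, ih, map_one,
        dk_of_add_mul (t := r ^ p ^ j) (u := r' ^ p ^ j) rfl (by rw [← mul_pow, h, one_pow]),
        ← pow_mul, ← pow_mul, pow_succ]
  have hfix : ∀ j : ℕ, (fun y => dk y 1 p)^[j + 1] x = dk x 1 p := by
    intro j
    induction j with
    | zero => rfl
    | succ j ih => rw [Function.iterate_succ_apply', ih, dk_dk]
  have hco : Nat.Coprime p n := (Nat.Prime.coprime_iff_not_dvd hp).2 hpn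
  have htot : 0 < n.totient := Nat.totient_pos.2 (Nat.pos_of_ne_zero hn0)
  obtain ⟨k, hk⟩ : ∃ k, n.totient = k + 1 := ⟨n.totient - 1, by omega⟩
  have hmod : p ^ (k + 1) ≡ 1 [MOD n] := by
    rw [← hk]
    exact Nat.ModEq.pow_totient hco
  have hpw : ∀ t : S, t ^ n = 1 → t ^ p ^ (k + 1) = t := by
    intro t ht
    have h1 : n ∣ p ^ (k + 1) - 1 := (Nat.modEq_iff_dvd' (Nat.one_le_pow _ _ hp.pos)).1 hmod.symm
    obtain ⟨c, hc⟩ := h1
    have h2 : p ^ (k + 1) = n * c + 1 := by
      have := Nat.one_le_pow (k + 1) p hp.pos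
      omega
    rw [h2, pow_succ, pow_mul, ht, one_pow, one_mul]
  have h1 := hiter (k + 1)
  rw [hfix, hpw r hn, hpw r' hn', hx] at h1
  exact hφ h1

/-- `dk x 1 n` is the Dickson polynomial of Mathlib. -/
theorem dickson_eval {R : Type} [CommRing R] (x : R) (n : ℕ) :
    (Polynomial.dickson 1 (1 : R) n).eval x = dk x 1 n := by
  induction n using Nat.twoStepInduction with
  | zero => simp [dk, Polynomial.dickson]; norm_num
  | one => simp [dk]
  | more n h1 h2 =>
    rw [Polynomial.dickson_add_two, Polynomial.eval_sub, Polynomial.eval_mul, Polynomial.eval_mul,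
      Polynomial.eval_X, Polynomial.eval_C, h1, h2, dk]

end zmod

end Pool.Agent.Work.MP_60c97f_nt
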