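import Pool.Agent.Work.MP_60c97f_nt.Defs

/-!
# `q ^ n = 1` for `D` divisible by `p`

In `S = (Z/p²)[q]/(q² - (2 - D) q + 1)` with `p ∣ D`, `p ≥ 5`: if `q ^ n = 1` then `p² ∣ n`. With `e = q - 1` one
has `e² = - D q`, `e⁴ = 0`, so `q ^ n = 1 + n e + C(n,2) e² + C(n,3) e³` and the coefficient of `q` is
`n - (C(n,2) + C(n,3)) D = n - C(n+1,3) D`.
-/

set_option autoImplicit false

namespace Pool.Agent.Work.MP_60c97f_nt

private theorem choose_three_dvd {p n : ℕ} (hp : p.Prime) (hp5 : 5 ≤ p) (h : p ∣ n) :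
    p ∣ (n + 1).choose 3 := by
  have h1 : (n + 1).descFactorial 3 = Nat.factorial 3 * (n + 1).choose 3 :=
    Nat.descFactorial_eq_factorial_mul_choose _ _
  have h2 : p ∣ (n + 1).descFactorial 3 := by
    have h3 : (n + 1).descFactorial 3 = (n + 1 - 2) * ((n + 1 - 1) * ((n + 1 - 0) * 1)) := by
      simp [Nat.descFactorial]
    rw [h3, Nat.add_sub_cancel]
    exact Dvd.dvd.mul_left (Dvd.dvd.mul_right h _) _
  rw [h1] at h2
  rcases hp.dvd_mul.1 h2 with h3 | h3
  · exfalso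
    have : p ≤ 3 := (hp.dvd_factorial).1 h3
    omega
  · exact h3

/-- the expansion of `(1 + e) ^ n` for `e ^ 4 = 0` -/
theorem one_add_pow {S : Type} [CommRing S] {e : S} (he : e ^ 4 = 0) (n : ℕ) :
    (1 + e) ^ n = 1 + n * e + n.choose 2 * e ^ 2 + n.choose 3 * e ^ 3 := by
  induction n with
  | zero => simp
  | succ n ih =>
    rw [pow_succ, ih, Nat.choose_succ_succ' n 1, Nat.choose_succ_succ' n 2, Nat.choose_one_right]
    push_cast
    linear_combination ((n.choose 3 : ℕ) : S) * he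

/-- `q = ω` satisfies `q² = (2 - D) q - 1`. -/
theorem omega_sq {R : Type} [CommRing R] (D : R) :
    (QuadraticAlgebra.mk 0 1 : QuadraticAlgebra R (-1) (2 - D)) ^ 2 =
      (2 - algebraMap R (QuadraticAlgebra R (-1) (2 - D)) D) * QuadraticAlgebra.mk 0 1 - 1 := by
  rw [pow_two, QuadraticAlgebra.algebraMap_eq]
  ext
  · simp [QuadraticAlgebra.re_ofNat, QuadraticAlgebra.im_ofNat, QuadraticAlgebra.re_one]
  · simp [QuadraticAlgebra.re_ofNat, QuadraticAlgebra.im_ofNat, QuadraticAlgebra.im_one]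

private theorem coef {R : Type} [CommRing R] (D : R) (hD : D ^ 2 = 0) {n : ℕ}
    (hn : (QuadraticAlgebra.mk 0 1 : QuadraticAlgebra R (-1) (2 - D)) ^ n = 1) :
    (n : R) = ((n + 1).choose 3 : ℕ) * D := by
  set q : QuadraticAlgebra R (-1) (2 - D) := QuadraticAlgebra.mk 0 1 with hq
  set D' : QuadraticAlgebra R (-1) (2 - D) := algebraMap R _ D with hD'
  have hqq : q ^ 2 = (2 - D') * q - 1 := omega_sq D
  have hD2 : D' ^ 2 = 0 := by rw [hD', ← map_pow, hD, map_zero]
  have he2 : (q - 1) ^ 2 = -D' * q := by linear_combination hqq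
  have he4 : (q - 1) ^ 4 = 0 := by
    have : (q - 1) ^ 4 = ((q - 1) ^ 2) ^ 2 := by ring
    rw [this, he2]
    linear_combination q ^ 2 * hD2
  have he3 : (q - 1) ^ 3 = -D' * (q - 1) := by
    have : (q - 1) ^ 3 = (q - 1) ^ 2 * (q - 1) := by ring
    rw [this, he2]
    linear_combination (-D') * he2 + q * hD2
  have h1 := one_add_pow he4 n
  rw [add_sub_cancel, hn, he2, he3] at h1
  have h2 := congrArg QuadraticAlgebra.im h1
  simp only [QuadraticAlgebra.im_add, QuadraticAlgebra.im_mul, QuadraticAlgebra.im_one,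
    QuadraticAlgebra.im_sub, QuadraticAlgebra.re_sub, QuadraticAlgebra.re_one,
    QuadraticAlgebra.im_natCast, QuadraticAlgebra.re_natCast, QuadraticAlgebra.re_neg,
    QuadraticAlgebra.im_neg, QuadraticAlgebra.re_mul, hq, hD', QuadraticAlgebra.algebraMap_re,
    QuadraticAlgebra.algebraMap_im] at h2
  rw [Nat.choose_succ_succ' n 2]
  push_cast
  linear_combination -h2

theorem sq_dvd_of_pow_eq_one {p : ℕ} [Fact p.Prime] (hp : 5 ≤ p) (D : ZMod (p ^ 2))
    (hD : (p : ZMod (p ^ 2)) ∣ D) {n : ℕ}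
    (hn : (QuadraticAlgebra.mk 0 1 : QuadraticAlgebra (ZMod (p ^ 2)) (-1) (2 - D)) ^ n = 1) :
    p ^ 2 ∣ n := by
  have hpp : p.Prime := Fact.out
  have hp2 : (p : ZMod (p ^ 2)) ^ 2 = 0 := by
    have := ZMod.natCast_self (p ^ 2)
    rwa [Nat.cast_pow] at this
  have hD2 : D ^ 2 = 0 := by
    obtain ⟨d, rfl⟩ := hD
    linear_combination d ^ 2 * hp2
  have h3 := coef D hD2 hn
  obtain ⟨d, rfl⟩ := hD
  have h4 : p ∣ n := by
    have h5 := congrArg (ZMod.castHom (dvd_pow_self p two_ne_zero) (ZMod p)) h3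
    rw [map_natCast, map_mul, map_mul, map_natCast, map_natCast, ZMod.natCast_self, zero_mul,
      mul_zero] at h5
    exact (ZMod.natCast_eq_zero_iff n p).1 h5
  obtain ⟨k, hk⟩ := choose_three_dvd hpp hp h4
  rw [← ZMod.natCast_eq_zero_iff, h3, hk]
  push_cast
  linear_combination (k * d) * hp2

end Pool.Agent.Work.MP_60c97f_nt
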