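import Pool.Agent.Work.MP_60c97f_nt.Prod
import Pool.Agent.Work.MP_60c97f_nt.Ram
import Pool.Agent.Work.MP_60c97f_nt.Dk

/-!
# Cardinalities of sets stable under the Vieta involutions
-/

set_option autoImplicit false

namespace Pool.Agent.Work.MP_60c97f_nt

variable {p : ℕ} [Fact p.Prime]

theorem isUnit_iff_red (a : ZMod (p ^ 2)) : IsUnit a ↔ red p a ≠ 0 := by
  have hp : p.Prime := Fact.out
  have : NeZero (p ^ 2) := ⟨pow_ne_zero 2 hp.ne_zero⟩
  constructor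
  · intro h
    exact (h.map (red p)).ne_zero
  · intro h
    obtain ⟨n, rfl⟩ : ∃ n : ℕ, a = n := ⟨a.val, (ZMod.natCast_zmod_val a).symm⟩
    rw [map_natCast, Ne, ZMod.natCast_eq_zero_iff] at h
    rw [ZMod.isUnit_iff_coprime]
    exact ((Nat.Prime.coprime_iff_not_dvd hp).2 h).symm.pow_right 2

theorem pow_ncard_eq_one {D : ZMod (p ^ 2)} {O : Set (ZMod (p ^ 2) × ZMod (p ^ 2) × ZMod (p ^ 2))}
    (hO : Stable O) (hX : ∀ P ∈ O, OnX D P)
    (hu : ∀ P ∈ O, red p (P.1 ^ 2 - D) ≠ 0 ∧ red p (P.2.1 ^ 2 - D) ≠ 0 ∧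
      red p (P.2.2 ^ 2 - D) ≠ 0) :
    (QuadraticAlgebra.mk 0 1 : QuadraticAlgebra (ZMod (p ^ 2)) (-1) (2 - D)) ^ O.ncard = 1 := by
  have hp : p.Prime := Fact.out
  have : NeZero (p ^ 2) := ⟨pow_ne_zero 2 hp.ne_zero⟩
  have hfin : O.Finite := Set.toFinite O
  rw [Set.ncard_eq_toFinset_card O hfin]
  refine pow_card_eq_one (algebraMap _ _) D _ (omega_sq D) hfin.toFinset
    (fun P hP => hX P (hfin.mem_toFinset.1 hP)) ?_ ?_
  · intro P hP
    rw [Set.Finite.coe_toFinset] at hP ⊢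
    exact hO P hP
  · intro P hP
    have h := hu P (hfin.mem_toFinset.1 hP)
    exact ⟨(isUnit_iff_red _).2 h.1, (isUnit_iff_red _).2 h.2.1, (isUnit_iff_red _).2 h.2.2⟩

/-- For `p ≡ 3 mod 4` and `D ≡ 0 mod p` the coordinates of the points of `X_D^*` are units. -/
theorem red_ne_zero (hp4 : p % 4 = 3) {x y z : ZMod p}
    (h : x ^ 2 + y ^ 2 + z ^ 2 = x * y * z) (hx : x = 0) : y = 0 ∧ z = 0 := by
  have h1 : y ^ 2 + z ^ 2 = 0 := by
    rw [hx] at h
    linear_combination h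
  have hns : ¬ IsSquare (-1 : ZMod p) := by
    rw [ZMod.exists_sq_eq_neg_one_iff]
    simp [hp4]
  by_cases hz : z = 0
  · rw [hz] at h1
    exact ⟨by simpa using h1, hz⟩
  · exfalso
    refine hns ⟨y / z, ?_⟩
    field_simp
    linear_combination -h1

theorem sq_dvd_ncard (hp : 5 ≤ p) {D : ZMod (p ^ 2)}
    {O : Set (ZMod (p ^ 2) × ZMod (p ^ 2) × ZMod (p ^ 2))} (hO : Stable O)
    (hX : O ⊆ XStar D) (hD : red p D = 0)
    (h : p % 4 = 3 ∨ ∀ P ∈ O, red p P.1 ≠ 0 ∧ red p P.2.1 ≠ 0 ∧ red p P.2.2 ≠ 0) :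
    p ^ 2 ∣ O.ncard := by
  have hne : ∀ P ∈ O, red p P.1 ≠ 0 ∧ red p P.2.1 ≠ 0 ∧ red p P.2.2 ≠ 0 := by
    rcases h with h | h
    · intro P hP
      obtain ⟨h1, h2⟩ := hX hP
      have h3 : red p P.1 ^ 2 + red p P.2.1 ^ 2 + red p P.2.2 ^ 2 =
          red p P.1 * red p P.2.1 * red p P.2.2 := by
        have := congrArg (red p) h1
        simpa [hD] using this
      have h4 : ¬ (red p P.1 = 0 ∧ red p P.2.1 = 0 ∧ red p P.2.2 = 0) := by
        rintro ⟨hx, hy, hz⟩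
        rcases h2 with h2 | h2 | h2 <;> rw [isUnit_iff_red] at h2 <;> apply h2 <;>
          simp [hx, hy, hz]
      refine ⟨fun hx => ?_, fun hy => ?_, fun hz => ?_⟩
      · obtain ⟨hy, hz⟩ := red_ne_zero h h3 hx
        exact h4 ⟨hx, hy, hz⟩
      · obtain ⟨hx, hz⟩ := red_ne_zero h (x := red p P.2.1) (y := red p P.1) (z := red p P.2.2)
          (by linear_combination h3) hy
        exact h4 ⟨hx, hy, hz⟩
      · obtain ⟨hx, hy⟩ := red_ne_zero h (x := red p P.2.2) (y := red p P.1) (z := red p P.2.1)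
          (by linear_combination h3) hz
        exact h4 ⟨hx, hy, hz⟩
    · exact h
  refine sq_dvd_of_pow_eq_one hp D ((red_eq_zero_iff D).1 hD)
    (pow_ncard_eq_one hO (fun P hP => (hX hP).1) fun P hP => ?_)
  obtain ⟨h1, h2, h3⟩ := hne P hP
  simp only [map_sub, map_pow, hD, sub_zero]
  exact ⟨pow_ne_zero 2 h1, pow_ne_zero 2 h2, pow_ne_zero 2 h3⟩

theorem dvd_ncard (hp : p ≠ 2) {D : ZMod (p ^ 2)}
    {O : Set (ZMod (p ^ 2) × ZMod (p ^ 2) × ZMod (p ^ 2))} (hO : Stable O)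
    (hX : ∀ P ∈ O, OnX D P) (hD : ¬ IsSquare (red p D))
    (hT : (Polynomial.dickson 1 (1 : ZMod (p ^ 2)) p).eval (D - 2) ≠ D - 2) :
    p ∣ O.ncard := by
  by_contra hpn
  have hpp : p.Prime := Fact.out
  have : NeZero (p ^ 2) := ⟨pow_ne_zero 2 hpp.ne_zero⟩
  have hne : ∀ x : ZMod (p ^ 2), red p (x ^ 2 - D) ≠ 0 := by
    intro x hx
    rw [map_sub, map_pow, sub_eq_zero] at hx
    exact hD ⟨red p x, by rw [← hx, pow_two]⟩
  have h1 := pow_ncard_eq_one hO hX fun P _ => ⟨hne _, hne _, hne _⟩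
  set q : QuadraticAlgebra (ZMod (p ^ 2)) (-1) (2 - D) := QuadraticAlgebra.mk 0 1 with hq
  set n := O.ncard with hn
  have hn0 : n ≠ 0 := fun h => hpn (by rw [h]; exact dvd_zero p)
  have hqq : q ^ 2 = (2 - algebraMap _ _ D) * q - 1 := omega_sq D
  apply hT
  rw [dickson_eval]
  refine dk_eq_self_of_pow (algebraMap (ZMod (p ^ 2)) (QuadraticAlgebra (ZMod (p ^ 2)) (-1) (2 - D)))
    QuadraticAlgebra.algebraMap_injective (r := -q)
    (r' := -(2 - algebraMap _ _ D - q)) (by linear_combination -hqq) ?_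
    (n := 2 * n) (by omega) ?_ ?_
  · rw [map_sub, map_ofNat]
    ring
  · rw [pow_mul, neg_sq, ← pow_mul, mul_comm, pow_mul, h1, one_pow]
  · intro h
    rcases hpp.dvd_mul.1 h with h2 | h2
    · exact hp ((Nat.prime_dvd_prime_iff_eq hpp Nat.prime_two).1 h2)
    · exact hpn h2

end Pool.Agent.Work.MP_60c97f_nt
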