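import Pool.Agent.Work.MP_60c97f_nt.Defs

/-!
# The product identity with zero coordinates

Let `q² = (2 - D) q - 1` in `S` and `O` a finite set of points of `X_D` stable under the Vieta involutions, such
that every coordinate `x` of a point of `O` is `0` or `x² - D` is a unit, and at most one coordinate of a point is
`0`. Then `q ^ |O| = 1`. If `x = 0` or `y = 0` replace `x y + (q - 1) z` by `z`, and if `x = 0` replace `x² - D` by
`q⁻¹`.
-/

set_option autoImplicit false

namespace Pool.Agent.Work.MP_60c97f_nt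

open Classical in
/-- the factor of a pair of coordinates -/
private noncomputable def ft {R S : Type} [CommRing R] [CommRing S] (φ : R →+* S) (q : S)
    (x y z : R) : S :=
  if x = 0 ∨ y = 0 then φ z else φ x * φ y + (q - 1) * φ z

open Classical in
/-- the factor of a coordinate -/
private noncomputable def gt {R S : Type} [CommRing R] [CommRing S] (φ : R →+* S) (D : R) (q' : S)
    (x : R) : S :=
  if x = 0 then q' else φ x ^ 2 - φ D

private theorem id_two {R S : Type} [CommRing R] [CommRing S] (φ : R →+* S) {D : R} {q q' : S}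
    (hq : q ^ 2 = (2 - φ D) * q - 1) (hq' : q * q' = 1) {x y z : R}
    (h : x ^ 2 + y ^ 2 + z ^ 2 = x * y * z + D) (h0 : ¬ (x = 0 ∧ y = 0)) :
    ft φ q x y z * ft φ q x y (x * y - z) = q * (gt φ D q' x * gt φ D q' y) := by
  have hD : φ x ^ 2 + φ y ^ 2 + φ z ^ 2 = φ x * φ y * φ z + φ D := by
    have := congrArg φ h
    simpa using this
  by_cases hx : x = 0
  · have hy : y ≠ 0 := fun hy => h0 ⟨hx, hy⟩
    simp only [ft, gt, hx, true_or, if_true, hy, if_false, zero_mul, zero_sub, map_neg]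
    rw [hx, map_zero] at hD
    linear_combination -hD - (φ y ^ 2 - φ D) * hq'
  · by_cases hy : y = 0
    · simp only [ft, gt, hy, or_true, if_true, hx, if_false, mul_zero, zero_sub, map_neg]
      rw [hy, map_zero] at hD
      linear_combination -hD - (φ x ^ 2 - φ D) * hq'
    · simp only [ft, gt, hx, hy, or_self, if_false, map_sub, map_mul]
      linear_combination (φ z * (φ x * φ y - φ z)) * hq + (q * φ D) * hD

private theorem id_three {R S : Type} [CommRing R] [CommRing S] (φ : R →+* S) {D : R} {q q' : S}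
    (hq : q ^ 2 = (2 - φ D) * q - 1) (hq' : q * q' = 1) {x y z : R}
    (h : x ^ 2 + y ^ 2 + z ^ 2 = x * y * z + D) (hxy : ¬ (x = 0 ∧ y = 0)) (hxz : ¬ (x = 0 ∧ z = 0))
    (hyz : ¬ (y = 0 ∧ z = 0)) :
    ft φ q x y z * ft φ q y z x * ft φ q z x y =
      q * (gt φ D q' x * gt φ D q' y * gt φ D q' z) := by
  have hD : φ x ^ 2 + φ y ^ 2 + φ z ^ 2 = φ x * φ y * φ z + φ D := by
    have := congrArg φ h
    simpa using this
  by_cases hx : x = 0
  · have hy : y ≠ 0 := fun hy => hxy ⟨hx, hy⟩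
    have hz : z ≠ 0 := fun hz => hxz ⟨hx, hz⟩
    simp only [ft, gt, hx, true_or, or_true, if_true, hy, hz, or_self, if_false, map_zero,
      mul_zero, add_zero]
    rw [hx, map_zero] at hD
    linear_combination -((φ y ^ 2 - φ D) * (φ z ^ 2 - φ D)) * hq' + φ D * hD
  · by_cases hy : y = 0
    · have hz : z ≠ 0 := fun hz => hyz ⟨hy, hz⟩
      simp only [ft, gt, hy, true_or, or_true, if_true, hx, hz, or_self, if_false, map_zero,
        mul_zero, add_zero]
      rw [hy, map_zero] at hD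
      linear_combination -((φ x ^ 2 - φ D) * (φ z ^ 2 - φ D)) * hq' + φ D * hD
    · by_cases hz : z = 0
      · simp only [ft, gt, hz, true_or, or_true, if_true, hx, hy, or_self, if_false, map_zero,
          mul_zero, add_zero]
        rw [hz, map_zero] at hD
        linear_combination -((φ x ^ 2 - φ D) * (φ y ^ 2 - φ D)) * hq' + φ D * hD
      · simp only [ft, gt, hx, hy, hz, or_self, if_false]
        linear_combination (φ x ^ 2 * φ y ^ 2 + φ y ^ 2 * φ z ^ 2 + φ z ^ 2 * φ x ^ 2 +
          (q - 1) * (φ x * φ y * φ z) - (φ x * φ y * φ z) * φ D) * hq +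
          ((q - 1) * (φ x * φ y * φ z) - q * φ D ^ 2) * hD

theorem pow_card_eq_one' {R S : Type} [CommRing R] [CommRing S] (φ : R →+* S) (D : R) (q : S)
    (hq : q ^ 2 = (2 - φ D) * q - 1) (O : Finset (R × R × R)) (hX : ∀ P ∈ O, OnX D P)
    (hO : Stable (O : Set (R × R × R)))
    (h0 : ∀ P ∈ O, ¬ (P.1 = 0 ∧ P.2.1 = 0) ∧ ¬ (P.1 = 0 ∧ P.2.2 = 0) ∧ ¬ (P.2.1 = 0 ∧ P.2.2 = 0))
    (hu : ∀ P ∈ O, (P.1 ≠ 0 → IsUnit (P.1 ^ 2 - D)) ∧ (P.2.1 ≠ 0 → IsUnit (P.2.1 ^ 2 - D)) ∧
      (P.2.2 ≠ 0 → IsUnit (P.2.2 ^ 2 - D))) :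
    q ^ O.card = 1 := by
  classical
  set q' := 2 - φ D - q with hq'd
  have hq' : q * q' = 1 := by rw [hq'd]; linear_combination -hq
  have hqu : IsUnit q := IsUnit.of_mul_eq_one _ hq'
  have hqu' : IsUnit q' := IsUnit.of_mul_eq_one q (by rw [mul_comm]; exact hq')
  have hgu : ∀ x : R, (x ≠ 0 → IsUnit (x ^ 2 - D)) → IsUnit (gt φ D q' x) := by
    intro x hx
    by_cases h : x = 0
    · simp only [gt, h, if_true]
      exact hqu'
    · simp only [gt, h, if_false]
      have := (hx h).map φ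
      rwa [map_sub, map_pow] at this
  set F1 : S := ∏ P ∈ O, ft φ q P.1 P.2.1 P.2.2 with hF1
  set F2 : S := ∏ P ∈ O, ft φ q P.2.1 P.2.2 P.1 with hF2
  set F3 : S := ∏ P ∈ O, ft φ q P.2.2 P.1 P.2.1 with hF3
  set A : S := ∏ P ∈ O, gt φ D q' P.1 with hA
  set B : S := ∏ P ∈ O, gt φ D q' P.2.1 with hB
  set C : S := ∏ P ∈ O, gt φ D q' P.2.2 with hC
  have hAu : IsUnit A := Finset.prod_induction _ IsUnit (fun a b ha hb => ha.mul hb) isUnit_one
    fun P hP => hgu _ (hu P hP).1
  have hBu : IsUnit B := Finset.prod_induction _ IsUnit (fun a b ha hb => ha.mul hb) isUnit_one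
    fun P hP => hgu _ (hu P hP).2.1
  have hCu : IsUnit C := Finset.prod_induction _ IsUnit (fun a b ha hb => ha.mul hb) isUnit_one
    fun P hP => hgu _ (hu P hP).2.2
  have e1 : F1 * F1 = q ^ O.card * (A * B) := by
    have h1 : F1 = ∏ P ∈ O, ft φ q P.1 P.2.1 (P.1 * P.2.1 - P.2.2) := by
      rw [hF1]
      refine Finset.prod_nbij' sz sz (fun P hP => (hO P hP).2.2) (fun P hP => (hO P hP).2.2)
        (fun P _ => ?_) (fun P _ => ?_) (fun P _ => ?_)
      · simp [sz]
      · simp [sz]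
      · simp [sz]
    rw [h1]
    nth_rewrite 1 [← h1]
    rw [hF1, ← Finset.prod_mul_distrib, hA, hB, ← Finset.prod_mul_distrib, ← Finset.prod_const,
      ← Finset.prod_mul_distrib]
    exact Finset.prod_congr rfl fun P hP => id_two φ hq hq' (hX P hP) (h0 P hP).1
  have e2 : F2 * F2 = q ^ O.card * (B * C) := by
    have h1 : F2 = ∏ P ∈ O, ft φ q P.2.1 P.2.2 (P.2.1 * P.2.2 - P.1) := by
      rw [hF2]
      refine Finset.prod_nbij' sx sx (fun P hP => (hO P hP).1) (fun P hP => (hO P hP).1)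
        (fun P _ => ?_) (fun P _ => ?_) (fun P _ => ?_)
      · simp [sx]
      · simp [sx]
      · simp [sx]
    rw [h1]
    nth_rewrite 1 [← h1]
    rw [hF2, ← Finset.prod_mul_distrib, hB, hC, ← Finset.prod_mul_distrib, ← Finset.prod_const,
      ← Finset.prod_mul_distrib]
    exact Finset.prod_congr rfl fun P hP => id_two φ hq hq'
      (by have := hX P hP; simp only [OnX] at this; linear_combination this) (h0 P hP).2.2
  have e3 : F3 * F3 = q ^ O.card * (C * A) := by
    have h1 : F3 = ∏ P ∈ O, ft φ q P.2.2 P.1 (P.2.2 * P.1 - P.2.1) := by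
      rw [hF3]
      refine Finset.prod_nbij' sy sy (fun P hP => (hO P hP).2.1) (fun P hP => (hO P hP).2.1)
        (fun P _ => ?_) (fun P _ => ?_) (fun P _ => ?_)
      · simp [sy]
      · simp [sy]
      · simp [sy, mul_comm]
    rw [h1]
    nth_rewrite 1 [← h1]
    rw [hF3, ← Finset.prod_mul_distrib, hC, hA, ← Finset.prod_mul_distrib, ← Finset.prod_const,
      ← Finset.prod_mul_distrib]
    exact Finset.prod_congr rfl fun P hP => id_two φ hq hq'
      (by have := hX P hP; simp only [OnX] at this; linear_combination this)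
      (fun h => (h0 P hP).2.1 ⟨h.2, h.1⟩)
  have e4 : F1 * F2 * F3 = q ^ O.card * (A * B * C) := by
    rw [hF1, hF2, hF3, hA, hB, hC, ← Finset.prod_mul_distrib, ← Finset.prod_mul_distrib,
      ← Finset.prod_mul_distrib, ← Finset.prod_mul_distrib, ← Finset.prod_const,
      ← Finset.prod_mul_distrib]
    exact Finset.prod_congr rfl fun P hP => id_three φ hq hq' (hX P hP) (h0 P hP).1
      (h0 P hP).2.1 (h0 P hP).2.2
  have e5 : (q ^ O.card * (A * B * C)) ^ 2 * q ^ O.card = (q ^ O.card * (A * B * C)) ^ 2 := by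
    have : (F1 * F2 * F3) ^ 2 = (F1 * F1) * (F2 * F2) * (F3 * F3) := by ring
    rw [e1, e2, e3, e4] at this
    linear_combination -this
  have hunit : IsUnit ((q ^ O.card * (A * B * C)) ^ 2) :=
    ((hqu.pow _).mul ((hAu.mul hBu).mul hCu)).pow 2
  exact hunit.mul_left_cancel (by rw [e5, mul_one])

end Pool.Agent.Work.MP_60c97f_nt
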