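import Pool.Agent.Work.MP_60c97f_nt.Trans
import Pool.Agent.Work.MP_60c97f_nt.Prod2

/-!
# Cardinalities of the orbits under the Vieta involutions
-/

set_option autoImplicit false

namespace Pool.Agent.Work.MP_60c97f_nt

variable {p : ℕ} [Fact p.Prime]

/-- the points over the reduction of the orbit of `P` -/
def Pre (D : ZMod (p ^ 2)) (P : ZMod (p ^ 2) × ZMod (p ^ 2) × ZMod (p ^ 2)) :
    Set (ZMod (p ^ 2) × ZMod (p ^ 2) × ZMod (p ^ 2)) :=
  {Q | OnX D Q ∧ redP Q ∈ redP '' vorb P}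

theorem ncard_pre {D : ZMod (p ^ 2)} {P : ZMod (p ^ 2) × ZMod (p ^ 2) × ZMod (p ^ 2)}
    (hP : P ∈ XStar D) : (Pre D P).ncard = p ^ 2 * (redP '' vorb P).ncard := by
  classical
  have hpp : p.Prime := Fact.out
  have : NeZero (p ^ 2) := ⟨pow_ne_zero 2 hpp.ne_zero⟩
  have : NeZero p := ⟨hpp.ne_zero⟩
  have hfin : (Pre D P).Finite := Set.toFinite _
  have hfin' : (redP '' vorb P).Finite := Set.toFinite _
  rw [Set.ncard_eq_toFinset_card _ hfin, Set.ncard_eq_toFinset_card _ hfin',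
    Finset.card_eq_sum_card_fiberwise (f := redP) (t := hfin'.toFinset)]
  · rw [Finset.sum_const_nat (m := p ^ 2), mul_comm]
    intro b hb
    obtain ⟨Q, hQ, rfl⟩ := hfin'.mem_toFinset.1 hb
    refine Eq.trans ?_ (fib_ncard (vorb_subset hP hQ))
    rw [← Set.ncard_coe_finset]
    congr 1
    ext T
    simp only [Finset.coe_filter, Set.Finite.mem_toFinset, Set.mem_ofPred_eq, Pre]
    constructor
    · rintro ⟨h1, h2⟩
      exact ⟨h1.1, h2⟩
    · rintro ⟨h1, h2⟩
      exact ⟨⟨h1, ⟨Q, hQ, h2.symm⟩⟩, h2⟩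
  · intro Q hQ
    rw [Set.Finite.coe_toFinset] at hQ ⊢
    exact hQ.2

theorem ncard_section (P : ZMod (p ^ 2) × ZMod (p ^ 2) × ZMod (p ^ 2)) :
    (TP '' vorb P).ncard = (redP '' vorb P).ncard := by
  have h1 : redP '' (TP '' vorb P) = redP '' vorb P := by
    rw [Set.image_image]
    exact Set.image_congr fun Q _ => redP_TP Q
  rw [← h1]
  symm
  apply Set.InjOn.ncard_image
  rintro _ ⟨Q, -, rfl⟩ _ ⟨Q', -, rfl⟩ h
  have := TP_congr h
  rwa [TP_TP, TP_TP] at this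

theorem vorb_eq_pre_of_full {D : ZMod (p ^ 2)}
    {P : ZMod (p ^ 2) × ZMod (p ^ 2) × ZMod (p ^ 2)} (hP : P ∈ XStar D) (hF : Full D P) :
    vorb P = Pre D P := by
  ext Q
  constructor
  · intro h
    exact ⟨(vorb_subset hP h).1, Q, h, rfl⟩
  · rintro ⟨h1, h2⟩
    exact hF Q h1 h2

/-- An orbit which is not full is the section or its complement. -/
theorem vorb_of_not_full (hp : 5 ≤ p) {D : ZMod (p ^ 2)} (hD4 : red p D ≠ 4)
    (hDs : red p D = 0 ∨ ¬ IsSquare (red p D))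
    {P : ZMod (p ^ 2) × ZMod (p ^ 2) × ZMod (p ^ 2)} (hP : P ∈ XStar D) (hnf : ¬ Full D P) :
    vorb P = TP '' vorb P ∨ vorb P = Pre D P \ TP '' vorb P := by
  have hst := stable_section hp hD4 hDs hP hnf
  by_cases h : ∃ Q ∈ vorb P, Q ∈ TP '' vorb P
  · left
    obtain ⟨Q, hQ, hQ'⟩ := h
    have h1 : vorb P ⊆ TP '' vorb P := by
      rw [← vorb_eq_of_mem hQ]
      have := hst.vorb_subset hQ'
      rwa [vorb_eq_of_mem hQ] at this ⊢
    refine Set.Subset.antisymm h1 ?_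
    rintro _ ⟨T, hT, rfl⟩
    obtain ⟨T', -, hT'⟩ := h1 hT
    rw [← hT', TP_TP, hT']
    exact hT
  · right
    push Not at h
    ext Q
    constructor
    · intro hQ
      exact ⟨⟨(vorb_subset hP hQ).1, Q, hQ, rfl⟩, h Q hQ⟩
    · rintro ⟨⟨hX, T, hT, hr⟩, hn⟩
      have hQg : HasGood Q := by
        by_contra hg
        apply hn
        rw [(eq_TP_of_not_hasGood hg).1]
        exact ⟨T, hT, TP_congr hr⟩
      have hTg : HasGood T := by
        by_contra hg
        exact h T hT ⟨T, hT, (eq_TP_of_not_hasGood hg).1.symm⟩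
      exact vorb_trans hT (fib hp hD4 hDs (vorb_subset hP hT) hX hr.symm hTg hQg)

theorem sq_dvd_vorb_of_sq_dvd (hp : 5 ≤ p) {D : ZMod (p ^ 2)} (hD4 : red p D ≠ 4)
    (hDs : red p D = 0 ∨ ¬ IsSquare (red p D))
    {P : ZMod (p ^ 2) × ZMod (p ^ 2) × ZMod (p ^ 2)} (hP : P ∈ XStar D)
    (h : ¬ Full D P → p ^ 2 ∣ (TP '' vorb P).ncard) : p ^ 2 ∣ (vorb P).ncard := by
  have hpp : p.Prime := Fact.out
  have : NeZero (p ^ 2) := ⟨pow_ne_zero 2 hpp.ne_zero⟩
  by_cases hF : Full D P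
  · rw [vorb_eq_pre_of_full hP hF, ncard_pre hP]
    exact dvd_mul_right _ _
  · have h1 := h hF
    rcases vorb_of_not_full hp hD4 hDs hP hF with h2 | h2
    · rw [h2]
      exact h1
    · have hsub : TP '' vorb P ⊆ Pre D P := by
        rintro _ ⟨Q, hQ, rfl⟩
        exact ⟨(section_of_not_full hp hD4 hDs hP hF hQ).1, Q, hQ, (redP_TP Q).symm⟩
      rw [h2, Set.ncard_sdiff hsub]
      exact Nat.dvd_sub (by rw [ncard_pre hP]; exact dvd_mul_right _ _) h1

/-- Divisibility for the orbits implies divisibility for all the stable sets. -/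
theorem dvd_ncard_of_stable {n : ℕ} {X : Set (ZMod (p ^ 2) × ZMod (p ^ 2) × ZMod (p ^ 2))}
    (hX : ∀ P ∈ X, n ∣ (vorb P).ncard) :
    ∀ O : Set (ZMod (p ^ 2) × ZMod (p ^ 2) × ZMod (p ^ 2)), Stable O → O ⊆ X → n ∣ O.ncard := by
  have hpp : p.Prime := Fact.out
  have : NeZero (p ^ 2) := ⟨pow_ne_zero 2 hpp.ne_zero⟩
  intro O
  induction h : O.ncard using Nat.strong_induction_on generalizing O with
  | _ m ih =>
    intro hO hOX
    by_cases hne : O.Nonempty
    · obtain ⟨P, hP⟩ := hne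
      have hsub : vorb P ⊆ O := hO.vorb_subset hP
      have h1 : (O \ vorb P).ncard + (vorb P).ncard = O.ncard :=
        Set.ncard_sdiff_add_ncard_of_subset hsub
      have h2 : 0 < (vorb P).ncard := (Set.ncard_pos).2 ⟨P, mem_vorb_self P⟩
      have h3 := ih (O \ vorb P).ncard (by omega) (O \ vorb P) rfl (stable_diff_vorb hO P)
        (Set.sdiff_subset.trans hOX)
      rw [← h, ← h1]
      exact dvd_add h3 (hX P (hOX hP))
    · rw [Set.not_nonempty_iff_eq_empty.1 hne, Set.ncard_empty] at h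
      rw [← h]
      exact dvd_zero _

end Pool.Agent.Work.MP_60c97f_nt
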