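import Mathlib

/-!
# Markoff-type surfaces `x² + y² + z² = x y z + D`: definitions

`XStar D` is the set `X_D^*(R)` of the problem; `Step P Q` says that `Q` is the image of `P` under one of the
three Vieta involutions, a transposition of two coordinates or a change of the sign of exactly two coordinates.
All these maps are involutions, so the orbit of `P` under the group generated by them is the set `orb P` of the
points which can be reached from `P` by finitely many steps.
-/

set_option autoImplicit false

namespace Pool.Agent.Work.MP_60c97f_nt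

/-- `P` lies on the surface `x² + y² + z² = x y z + D`. -/
def OnX {R : Type} [CommRing R] (D : R) (P : R × R × R) : Prop :=
  P.1 ^ 2 + P.2.1 ^ 2 + P.2.2 ^ 2 = P.1 * P.2.1 * P.2.2 + D

/-- One of the partial derivatives `2x - yz`, `2y - xz`, `2z - xy` is a unit. -/
def Smooth {R : Type} [CommRing R] (P : R × R × R) : Prop :=
  IsUnit (2 * P.1 - P.2.1 * P.2.2) ∨ IsUnit (2 * P.2.1 - P.1 * P.2.2) ∨
    IsUnit (2 * P.2.2 - P.1 * P.2.1)

/-- The set `X_D^*(R)`. -/
def XStar {R : Type} [CommRing R] (D : R) : Set (R × R × R) := {P | OnX D P ∧ Smooth P}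

/-- The Vieta involutions. -/
def sx {R : Type} [CommRing R] (P : R × R × R) : R × R × R := (P.2.1 * P.2.2 - P.1, P.2.1, P.2.2)

/-- The Vieta involutions. -/
def sy {R : Type} [CommRing R] (P : R × R × R) : R × R × R := (P.1, P.1 * P.2.2 - P.2.1, P.2.2)

/-- The Vieta involutions. -/
def sz {R : Type} [CommRing R] (P : R × R × R) : R × R × R := (P.1, P.2.1, P.1 * P.2.1 - P.2.2)

/-- One step: a Vieta involution, a transposition of two coordinates, or a change of the signs of
exactly two coordinates. -/
inductive Step {R : Type} [CommRing R] : R × R × R → R × R × R → Prop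
  | vx (P : R × R × R) : Step P (sx P)
  | vy (P : R × R × R) : Step P (sy P)
  | vz (P : R × R × R) : Step P (sz P)
  | txy (x y z : R) : Step (x, y, z) (y, x, z)
  | txz (x y z : R) : Step (x, y, z) (z, y, x)
  | tyz (x y z : R) : Step (x, y, z) (x, z, y)
  | nxy (x y z : R) : Step (x, y, z) (-x, -y, z)
  | nxz (x y z : R) : Step (x, y, z) (-x, y, -z)
  | nyz (x y z : R) : Step (x, y, z) (x, -y, -z)

/-- The orbit of `P` under the group generated by the steps. -/
def orb {R : Type} [CommRing R] (P : R × R × R) : Set (R × R × R) :=
  {Q | Relation.ReflTransGen Step P Q}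

/-- A set which is stable under the three Vieta involutions. -/
def Stable {R : Type} [CommRing R] (O : Set (R × R × R)) : Prop :=
  ∀ P ∈ O, sx P ∈ O ∧ sy P ∈ O ∧ sz P ∈ O

end Pool.Agent.Work.MP_60c97f_nt
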