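import Pool.Agent.Work.MP_60c97f_nt.Line

/-!
# The fibre lemma

Two points of `X_D^*(Z/p²)` with the same reduction, each with a good coordinate, are in the same orbit.
-/

set_option autoImplicit false

namespace Pool.Agent.Work.MP_60c97f_nt

variable {p : ℕ} [Fact p.Prime]

theorem hensel_z {D x y z x₁ y₁ : ZMod (p ^ 2)} (h : OnX D (x, y, z)) (hx : red p x₁ = red p x)
    (hy : red p y₁ = red p y) (hg : red p (2 * z - x * y) ≠ 0) :
    ∃ z₁, red p z₁ = red p z ∧ OnX D (x₁, y₁, z₁) := by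
  have h0 : red p (x₁ ^ 2 + y₁ ^ 2 + z ^ 2 - x₁ * y₁ * z - D) = 0 := by
    have := congrArg (red p) h
    simp only [map_add, map_mul, map_pow] at this
    simp only [map_sub, map_add, map_mul, map_pow, hx, hy]
    linear_combination this
  obtain ⟨c, hc⟩ := (red_eq_zero_iff _).1 h0
  obtain ⟨t, ht⟩ := red_surj (p := p) (-(red p c) / red p (2 * z - x * y))
  refine ⟨z + p * t, ?_, ?_⟩
  · rw [map_add, map_mul, map_natCast, ZMod.natCast_self, zero_mul, add_zero]
  · have h1 : (p : ZMod (p ^ 2)) * (c + t * (2 * z - x₁ * y₁)) = 0 := by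
      rw [p_mul_eq_zero_iff, map_add, map_mul, ht]
      have h2 : red p (2 * z - x₁ * y₁) = red p (2 * z - x * y) := by
        simp only [map_sub, map_mul, hx, hy]
      rw [h2, div_mul_cancel₀ _ hg, add_neg_cancel]
    simp only [OnX]
    linear_combination hc + h1 + t ^ 2 * natCast_sq_eq_zero p

theorem OnX.swap_xz {R : Type} [CommRing R] {D x y z : R} (h : OnX D (x, y, z)) :
    OnX D (z, y, x) := by
  simp only [OnX] at h ⊢
  linear_combination h

theorem OnX.swap_yz {R : Type} [CommRing R] {D x y z : R} (h : OnX D (x, y, z)) :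
    OnX D (x, z, y) := by
  simp only [OnX] at h ⊢
  linear_combination h

theorem hensel_y {D x y z x₁ z₁ : ZMod (p ^ 2)} (h : OnX D (x, y, z)) (hx : red p x₁ = red p x)
    (hz : red p z₁ = red p z) (hg : red p (2 * y - x * z) ≠ 0) :
    ∃ y₁, red p y₁ = red p y ∧ OnX D (x₁, y₁, z₁) := by
  obtain ⟨y₁, h1, h2⟩ := hensel_z h.swap_yz hx hz hg
  exact ⟨y₁, h1, h2.swap_yz⟩

theorem hensel_x {D x y z y₁ z₁ : ZMod (p ^ 2)} (h : OnX D (x, y, z)) (hy : red p y₁ = red p y)
    (hz : red p z₁ = red p z) (hg : red p (2 * x - y * z) ≠ 0) :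
    ∃ x₁, red p x₁ = red p x ∧ OnX D (x₁, y₁, z₁) := by
  obtain ⟨x₁, h1, h2⟩ := hensel_z h.swap_xz hz hy (by rwa [mul_comm z y])
  exact ⟨x₁, h1, h2.swap_xz⟩

theorem p_ne_zero : (p : ZMod (p ^ 2)) ≠ 0 := by
  have hp : p.Prime := Fact.out
  intro h
  rw [ZMod.natCast_eq_zero_iff] at h
  have := Nat.le_of_dvd hp.pos h
  have h2 := hp.two_le
  nlinarith

theorem dk_congr' {x x' : ZMod (p ^ 2)} (h : red p x' = red p x) : dk x' 1 p = dk x 1 p :=
  dk_congr (natCast_sq_eq_zero p) ((red_eq_red_iff _ _).1 h) (by simp)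

/-- a good element with the same reduction as `x` -/
def bump (x : ZMod (p ^ 2)) : ZMod (p ^ 2) := dk x 1 p + (p : ZMod (p ^ 2))

theorem red_bump (x : ZMod (p ^ 2)) : red p (bump x) = red p x := by
  rw [bump, map_add, red_dk, map_natCast, ZMod.natCast_self, add_zero]

theorem good_bump (x : ZMod (p ^ 2)) : Good (bump x) := by
  right
  rw [dk_congr' (red_bump x), bump]
  intro h
  exact p_ne_zero (p := p) (by linear_combination -h)

private theorem reach_x (hp : 5 ≤ p) {D x y z : ZMod (p ^ 2)} (hD : red p D ≠ 4)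
    (h : OnX D (x, y, z)) (hgz : red p (2 * z - x * y) ≠ 0)
    (hg : red p (2 * x - y * z) ≠ 0 ∨ red p (2 * y - x * z) ≠ 0)
    (hgood : Good x ∨ Good y ∨ Good z) :
    ∃ x₁ y₁ z₁, red p x₁ = red p x ∧ red p y₁ = red p y ∧ red p z₁ = red p z ∧
      OnX D (x₁, y₁, z₁) ∧ Good x₁ ∧ (x₁, y₁, z₁) ∈ vorb (x, y, z) := by
  -- the case of a good second coordinate
  have hcase : ∀ {x y z : ZMod (p ^ 2)}, OnX D (x, y, z) → red p (2 * z - x * y) ≠ 0 → Good y →
      ∃ x₁ y₁ z₁, red p x₁ = red p x ∧ red p y₁ = red p y ∧ red p z₁ = red p z ∧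
      OnX D (x₁, y₁, z₁) ∧ Good x₁ ∧ (x₁, y₁, z₁) ∈ vorb (x, y, z) := by
    intro x y z h hgz hy
    obtain ⟨z₁, hz₁, h₁⟩ := hensel_z h (red_bump x) rfl hgz
    exact ⟨_, y, z₁, red_bump x, rfl, hz₁, h₁, good_bump x,
      line2 hp hD h h₁ (red_bump x) hz₁ hy (Or.inr hgz)⟩
  rcases hgood with hx | hy | hz
  · exact ⟨x, y, z, rfl, rfl, rfl, h, hx, mem_vorb_self _⟩
  · exact hcase h hgz hy
  · by_cases hgy : red p (2 * y - x * z) = 0
    · have hgx := hg.resolve_right (fun h => h hgy)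
      obtain ⟨x₁, hx₁, h₁⟩ := hensel_x h (red_bump y) rfl hgx
      have hmem := line3 hp hD h h₁ hx₁ (red_bump y) hz hg
      have hgz₁ : red p (2 * z - x₁ * bump y) ≠ 0 := by
        have : red p (2 * z - x₁ * bump y) = red p (2 * z - x * y) := by
          rw [map_sub, map_mul, map_mul, hx₁, red_bump, map_sub, map_mul, map_mul]
        rwa [this]
      obtain ⟨x₂, y₂, z₂, h2, h3, h4, h5, h6, h7⟩ := hcase h₁ hgz₁ (good_bump y)
      exact ⟨x₂, y₂, z₂, h2.trans hx₁, h3.trans (red_bump y), h4, h5, h6, vorb_trans hmem h7⟩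
    · obtain ⟨y₁, hy₁, h₁⟩ := hensel_y h (red_bump x) rfl hgy
      exact ⟨_, y₁, z, red_bump x, hy₁, rfl, h₁, good_bump x,
        line3 hp hD h h₁ (red_bump x) hy₁ hz hg⟩

private theorem fib_aux (hp : 5 ≤ p) {D x y z x' y' z' : ZMod (p ^ 2)} (hD : red p D ≠ 4)
    (h : OnX D (x, y, z)) (h' : OnX D (x', y', z')) (hx : red p x' = red p x)
    (hy : red p y' = red p y) (hz : red p z' = red p z)
    (hgz : red p (2 * z - x * y) ≠ 0)
    (hg : red p (2 * x - y * z) ≠ 0 ∨ red p (2 * y - x * z) ≠ 0)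
    (hgood : Good x ∨ Good y ∨ Good z) (hgood' : Good x' ∨ Good y' ∨ Good z') :
    (x', y', z') ∈ vorb (x, y, z) := by
  have e1 : ∀ {a b c a' b' c' : ZMod (p ^ 2)}, red p a' = red p a → red p b' = red p b →
      red p c' = red p c → red p (2 * a' - b' * c') = red p (2 * a - b * c) := by
    intro a b c a' b' c' ha hb hc
    simp only [map_sub, map_mul, ha, hb, hc]
  have hgz' : red p (2 * z' - x' * y') ≠ 0 := by rwa [e1 hz hx hy]
  have hg' : red p (2 * x' - y' * z') ≠ 0 ∨ red p (2 * y' - x' * z') ≠ 0 := by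
    rwa [e1 hx hy hz, e1 hy hx hz]
  obtain ⟨x₁, y₁, z₁, hx₁, hy₁, hz₁, h₁, hG₁, hm₁⟩ := reach_x hp hD h hgz hg hgood
  obtain ⟨x₂, y₂, z₂, hx₂, hy₂, hz₂, h₂, hG₂, hm₂⟩ := reach_x hp hD h' hgz' hg' hgood'
  have hgz₁ : red p (2 * z₁ - x₁ * y₁) ≠ 0 := by rwa [e1 hz₁ hx₁ hy₁]
  -- (x₁, T y + p, z₃)
  obtain ⟨z₃, hz₃, h₃⟩ := hensel_z h₁ rfl (red_bump y₁) hgz₁
  have hm₃ := line hp hD h₁ h₃ (red_bump y₁) hz₃ hG₁ (Or.inr hgz₁)
  have hgz₃ : red p (2 * z₃ - x₁ * bump y₁) ≠ 0 := by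
    rwa [e1 hz₃ rfl (red_bump y₁)]
  have hx₂₁ : red p x₂ = red p x₁ := by rw [hx₂, hx, hx₁]
  obtain ⟨z₄, hz₄, h₄⟩ := hensel_z h₃ hx₂₁ rfl hgz₃
  have hm₄ := line2 hp hD h₃ h₄ hx₂₁ hz₄ (good_bump y₁) (Or.inr hgz₃)
  have hgz₄ : red p (2 * z₄ - x₂ * bump y₁) ≠ 0 := by
    rwa [e1 hz₄ hx₂₁ rfl]
  have hm₅ := line hp hD h₄ h₂ (by rw [hy₂, hy, red_bump, hy₁])
    (by rw [hz₂, hz, hz₄, hz₃, hz₁]) hG₂ (Or.inr hgz₄)
  exact vorb_trans (vorb_trans (vorb_trans (vorb_trans hm₁ hm₃) hm₄) hm₅) (vorb_symm hm₂)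

/-- reduction of a point -/
def redP (P : ZMod (p ^ 2) × ZMod (p ^ 2) × ZMod (p ^ 2)) : ZMod p × ZMod p × ZMod p :=
  (red p P.1, red p P.2.1, red p P.2.2)

/-- one of the coordinates is good -/
def HasGood (P : ZMod (p ^ 2) × ZMod (p ^ 2) × ZMod (p ^ 2)) : Prop :=
  Good P.1 ∨ Good P.2.1 ∨ Good P.2.2

/-- two vanishing partial derivatives are impossible -/
theorem two_grad {k : Type} [Field k] (h2 : (2 : k) ≠ 0) {D x y z : k}
    (h : x ^ 2 + y ^ 2 + z ^ 2 = x * y * z + D) (hD4 : D ≠ 4) (hDs : D = 0 ∨ ¬ IsSquare D)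
    (hsm : ¬ (2 * x - y * z = 0 ∧ 2 * y - x * z = 0 ∧ 2 * z - x * y = 0)) :
    ¬ (2 * x - y * z = 0 ∧ 2 * y - x * z = 0) := by
  rintro ⟨hx, hy⟩
  have h1 : x * (4 - z ^ 2) = 0 := by linear_combination 2 * hx + z * hy
  rcases mul_eq_zero.1 h1 with h3 | h3
  · have h4 : y = 0 := by
      have : 2 * y = 0 := by linear_combination hy + z * h3
      exact (mul_eq_zero.1 this).resolve_left h2
    have h5 : D = z ^ 2 := by
      rw [h3, h4] at h
      linear_combination -h
    rcases hDs with h6 | h6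
    · have h7 : z = 0 := by
        rw [h6] at h5
        exact pow_eq_zero_iff two_ne_zero |>.1 h5.symm
      exact hsm ⟨by rw [h3, h4]; ring, by rw [h3, h4]; ring, by rw [h3, h7]; ring⟩
    · exact h6 ⟨z, by rw [h5]; ring⟩
  · apply hD4
    have h6 : y ^ 2 = x ^ 2 := by
      have : 4 * (y ^ 2 - x ^ 2) = 0 := by
        linear_combination (-(2 * x + y * z)) * hx + y ^ 2 * h3
      have h4 : (4 : k) ≠ 0 := by
        have : (4 : k) = 2 * 2 := by norm_num
        rw [this]
        exact mul_ne_zero h2 h2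
      have := (mul_eq_zero.1 this).resolve_left h4
      linear_combination this
    linear_combination -h + h6 - h3 + x * hx

theorem fib (hp : 5 ≤ p) {D : ZMod (p ^ 2)} (hD4 : red p D ≠ 4)
    (hDs : red p D = 0 ∨ ¬ IsSquare (red p D))
    {P P' : ZMod (p ^ 2) × ZMod (p ^ 2) × ZMod (p ^ 2)} (hP : P ∈ XStar D) (hP' : OnX D P')
    (hred : redP P' = redP P) (hgood : HasGood P) (hgood' : HasGood P') : P' ∈ vorb P := by
  obtain ⟨x, y, z⟩ := P
  obtain ⟨x', y', z'⟩ := P'
  obtain ⟨h, hsm⟩ := hP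
  simp only [redP, Prod.mk.injEq] at hred
  obtain ⟨hx, hy, hz⟩ := hred
  have hp2 : p ≠ 2 := by omega
  have h2 := two_ne_zero' hp2
  have hbar : red p x ^ 2 + red p y ^ 2 + red p z ^ 2 = red p x * red p y * red p z + red p D := by
    have := congrArg (red p) h
    simpa only [map_add, map_mul, map_pow] using this
  have hsm' : ¬ (2 * red p x - red p y * red p z = 0 ∧ 2 * red p y - red p x * red p z = 0 ∧
      2 * red p z - red p x * red p y = 0) := by
    rintro ⟨h3, h4, h5⟩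
    rcases hsm with h6 | h6 | h6 <;> rw [isUnit_iff_red] at h6 <;> apply h6 <;>
      simp only [map_sub, map_mul, map_ofNat] <;> assumption
  have ex : red p (2 * x - y * z) = 2 * red p x - red p y * red p z := by
    simp only [map_sub, map_mul, map_ofNat]
  have ey : red p (2 * y - x * z) = 2 * red p y - red p x * red p z := by
    simp only [map_sub, map_mul, map_ofNat]
  have ez : red p (2 * z - x * y) = 2 * red p z - red p x * red p y := by
    simp only [map_sub, map_mul, map_ofNat]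
  by_cases hgz : red p (2 * z - x * y) = 0
  · -- swap x and z
    have hgx : red p (2 * x - y * z) ≠ 0 := by
      intro h3
      refine two_grad (x := red p x) (y := red p z) (z := red p y) h2
        (by linear_combination hbar) hD4 hDs ?_ ⟨?_, ?_⟩
      · rintro ⟨h4, h5, h6⟩
        exact hsm' ⟨by linear_combination h4, h6, by linear_combination h5⟩
      · rw [ex] at h3
        linear_combination h3
      · rw [ez] at hgz
        linear_combination hgz
    have hgy : red p (2 * y - x * z) ≠ 0 := by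
      intro h3
      refine two_grad (x := red p y) (y := red p z) (z := red p x) h2
        (by linear_combination hbar) hD4 hDs ?_ ⟨?_, ?_⟩
      · rintro ⟨h4, h5, h6⟩
        exact hsm' ⟨by linear_combination h6, by linear_combination h4, by linear_combination h5⟩
      · rw [ey] at h3
        linear_combination h3
      · rw [ez] at hgz
        linear_combination hgz
    have hm := fib_aux hp hD4 h.swap_xz (OnX.swap_xz hP') hz hy hx (by rwa [mul_comm z y])
      (Or.inr (by rwa [mul_comm z x])) (by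
        rcases hgood with h3 | h3 | h3
        · exact Or.inr (Or.inr h3)
        · exact Or.inr (Or.inl h3)
        · exact Or.inl h3) (by
        rcases hgood' with h3 | h3 | h3
        · exact Or.inr (Or.inr h3)
        · exact Or.inr (Or.inl h3)
        · exact Or.inl h3)
    exact vorb_swxz hm
  · refine fib_aux hp hD4 h hP' hx hy hz hgz ?_ hgood hgood'
    by_contra hcon
    push Not at hcon
    refine two_grad h2 hbar hD4 hDs hsm' ⟨?_, ?_⟩
    · rw [← ex, hcon.1]
    · rw [← ey, hcon.2]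

end Pool.Agent.Work.MP_60c97f_nt
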