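import Pool.Agent.Work.MP_60c97f_nt.Fib

/-!
# The fibres of `X_D^*(Z/p²) → X_D^*(F_p)` have `p²` elements
-/

set_option autoImplicit false

namespace Pool.Agent.Work.MP_60c97f_nt

variable {p : ℕ} [Fact p.Prime]

theorem ncard_red_fib (a : ZMod p) : {x : ZMod (p ^ 2) | red p x = a}.ncard = p := by
  have hpp : p.Prime := Fact.out
  have : NeZero p := ⟨hpp.ne_zero⟩
  have : NeZero (p ^ 2) := ⟨pow_ne_zero 2 hpp.ne_zero⟩
  obtain ⟨x₀, hx₀⟩ := red_surj (p := p) a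
  have h1 : {x : ZMod (p ^ 2) | red p x = a} =
      Set.range (fun t : ZMod p => x₀ + (p : ZMod (p ^ 2)) * (t.val : ZMod (p ^ 2))) := by
    ext x
    simp only [Set.mem_ofPred_eq, Set.mem_range]
    constructor
    · intro hx
      obtain ⟨c, hc⟩ := (red_eq_red_iff x x₀).1 (by rw [hx, hx₀])
      refine ⟨red p c, ?_⟩
      have h2 : (p : ZMod (p ^ 2)) * (((red p c).val : ZMod (p ^ 2)) - c) = 0 := by
        rw [p_mul_eq_zero_iff, map_sub, map_natCast, ZMod.natCast_zmod_val, sub_self]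
      linear_combination h2 - hc
    · rintro ⟨t, rfl⟩
      rw [map_add, map_mul, map_natCast, ZMod.natCast_self, zero_mul, add_zero, hx₀]
  rw [h1, ← Set.image_univ, Set.ncard_image_of_injective, Set.ncard_univ, Nat.card_zmod]
  intro s t hst
  simp only at hst
  have h2 : (p : ZMod (p ^ 2)) * ((s.val : ZMod (p ^ 2)) - (t.val : ZMod (p ^ 2))) = 0 := by
    linear_combination hst
  rw [p_mul_eq_zero_iff, map_sub, map_natCast, map_natCast, ZMod.natCast_zmod_val,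
    ZMod.natCast_zmod_val, sub_eq_zero] at h2
  exact h2

theorem z_unique {D x y z z' : ZMod (p ^ 2)} (h : OnX D (x, y, z)) (h' : OnX D (x, y, z'))
    (hz : red p z' = red p z) (hg : red p (2 * z - x * y) ≠ 0) : z' = z := by
  obtain ⟨c, hc⟩ := (red_eq_red_iff z' z).1 hz
  have hz' : z' = z + p * c := by linear_combination hc
  have h1 : (p : ZMod (p ^ 2)) * (c * (2 * z - x * y)) = 0 := by
    simp only [OnX] at h h'
    rw [hz'] at h'
    linear_combination h' - h - c ^ 2 * natCast_sq_eq_zero p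
  rw [p_mul_eq_zero_iff, map_mul] at h1
  have h2 := (mul_eq_zero.1 h1).resolve_right hg
  have h3 := (p_mul_eq_zero_iff c).2 h2
  rw [hz', h3, add_zero]

/-- the fibre over the reduction of a point with `2 z - x y` a unit -/
theorem fib_ncard_z {D x y z : ZMod (p ^ 2)} (h : OnX D (x, y, z))
    (hg : red p (2 * z - x * y) ≠ 0) :
    {Q : ZMod (p ^ 2) × ZMod (p ^ 2) × ZMod (p ^ 2) | OnX D Q ∧ redP Q = redP (x, y, z)}.ncard =
      p ^ 2 := by
  have hpp : p.Prime := Fact.out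
  have : NeZero (p ^ 2) := ⟨pow_ne_zero 2 hpp.ne_zero⟩
  have h1 : ({a : ZMod (p ^ 2) | red p a = red p x} ×ˢ
      {b : ZMod (p ^ 2) | red p b = red p y}).ncard = p ^ 2 := by
    rw [Set.ncard_prod, ncard_red_fib, ncard_red_fib, pow_two]
  refine Eq.trans ?_ h1
  refine Set.ncard_congr (fun Q _ => (Q.1, Q.2.1)) ?_ ?_ ?_
  · rintro ⟨a, b, c⟩ ⟨-, hr⟩
    simp only [redP, Prod.mk.injEq] at hr
    exact ⟨hr.1, hr.2.1⟩
  · rintro ⟨a, b, c⟩ ⟨a', b', c'⟩ ⟨hQ, hr⟩ ⟨hQ', hr'⟩ heq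
    simp only [Prod.mk.injEq] at heq
    obtain ⟨rfl, rfl⟩ := heq
    simp only [redP, Prod.mk.injEq] at hr hr'
    have hg' : red p (2 * c' - a * b) ≠ 0 := by
      have : red p (2 * c' - a * b) = red p (2 * z - x * y) := by
        simp only [map_sub, map_mul, hr'.1, hr'.2.1, hr'.2.2]
      rwa [this]
    have := z_unique hQ' hQ (by rw [hr.2.2, hr'.2.2]) hg'
    rw [this]
  · rintro ⟨a, b⟩ ⟨ha, hb⟩
    obtain ⟨c, hc, hQ⟩ := hensel_z h ha hb hg
    exact ⟨(a, b, c), ⟨hQ, by simp only [redP, Prod.mk.injEq]; exact ⟨ha, hb, hc⟩⟩, rfl⟩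

private def swapXZ {R : Type} (P : R × R × R) : R × R × R := (P.2.2, P.2.1, P.1)

private def swapYZ {R : Type} (P : R × R × R) : R × R × R := (P.1, P.2.2, P.2.1)

theorem fib_ncard {D : ZMod (p ^ 2)} {P : ZMod (p ^ 2) × ZMod (p ^ 2) × ZMod (p ^ 2)}
    (hP : P ∈ XStar D) :
    {Q : ZMod (p ^ 2) × ZMod (p ^ 2) × ZMod (p ^ 2) | OnX D Q ∧ redP Q = redP P}.ncard =
      p ^ 2 := by
  obtain ⟨x, y, z⟩ := P
  obtain ⟨h, hs⟩ := hP
  rcases hs with hs | hs | hs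
  · refine Eq.trans ?_ (fib_ncard_z h.swap_xz
      (by rw [isUnit_iff_red] at hs; rwa [mul_comm z y]))
    refine Set.ncard_congr (fun Q _ => swapXZ Q) ?_ ?_ ?_
    · rintro ⟨a, b, c⟩ ⟨hQ, hr⟩
      simp only [redP, Prod.mk.injEq] at hr
      exact ⟨hQ.swap_xz, by simp only [redP, swapXZ, Prod.mk.injEq]; exact ⟨hr.2.2, hr.2.1, hr.1⟩⟩
    · rintro ⟨a, b, c⟩ ⟨a', b', c'⟩ - - heq
      simp only [swapXZ, Prod.mk.injEq] at heq
      simp only [Prod.mk.injEq]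
      exact ⟨heq.2.2, heq.2.1, heq.1⟩
    · rintro ⟨a, b, c⟩ ⟨hQ, hr⟩
      simp only [redP, Prod.mk.injEq] at hr
      exact ⟨(c, b, a), ⟨hQ.swap_xz, by simp only [redP, Prod.mk.injEq]
                                        exact ⟨hr.2.2, hr.2.1, hr.1⟩⟩, rfl⟩
  · refine Eq.trans ?_ (fib_ncard_z h.swap_yz (by rwa [isUnit_iff_red] at hs))
    refine Set.ncard_congr (fun Q _ => swapYZ Q) ?_ ?_ ?_
    · rintro ⟨a, b, c⟩ ⟨hQ, hr⟩
      simp only [redP, Prod.mk.injEq] at hr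
      exact ⟨hQ.swap_yz, by simp only [redP, swapYZ, Prod.mk.injEq]; exact ⟨hr.1, hr.2.2, hr.2.1⟩⟩
    · rintro ⟨a, b, c⟩ ⟨a', b', c'⟩ - - heq
      simp only [swapYZ, Prod.mk.injEq] at heq
      simp only [Prod.mk.injEq]
      exact ⟨heq.1, heq.2.2, heq.2.1⟩
    · rintro ⟨a, b, c⟩ ⟨hQ, hr⟩
      simp only [redP, Prod.mk.injEq] at hr
      exact ⟨(a, c, b), ⟨hQ.swap_yz, by simp only [redP, Prod.mk.injEq]
                                        exact ⟨hr.1, hr.2.2, hr.2.1⟩⟩, rfl⟩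
  · exact fib_ncard_z h (by rwa [isUnit_iff_red] at hs)

end Pool.Agent.Work.MP_60c97f_nt
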