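import Pool.Agent.Work.MP_60c97f_nt.Bad
import Pool.Agent.Work.MP_60c97f_nt.DivB

/-!
# The total number of bad parameters
-/

set_option autoImplicit false

namespace Pool.Agent.Work.MP_60c97f_nt

variable {p : ℕ} [Fact p.Prime]

/-- `dk X 1 n` as a polynomial -/
private noncomputable def dkP (R : Type) [CommRing R] (n : ℕ) : Polynomial R :=
  dk (Polynomial.X : Polynomial R) 1 n

private theorem dkP_deg (R : Type) [CommRing R] [Nontrivial R] (n : ℕ) :
    (dkP R (n + 1)).natDegree = n + 1 ∧ (dkP R (n + 1)).Monic := by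
  induction n using Nat.strong_induction_on with
  | _ n ih =>
    rcases n with _ | n
    · simp only [dkP, dk, zero_add]
      exact ⟨Polynomial.natDegree_X, Polynomial.monic_X⟩
    · obtain ⟨h1, h2⟩ := ih n (Nat.lt_succ_self n)
      have h3 : (dkP R n).natDegree ≤ n := by
        rcases n with _ | n
        · simp only [dkP, dk]
          exact (Polynomial.natDegree_ofNat (R := R) 2).le
        · exact (ih n (by omega)).1.le
      have h4 : dkP R (n + 1 + 1) = Polynomial.X * dkP R (n + 1) - dkP R n := by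
        simp only [dkP, dk, one_mul]
      have h5 : (Polynomial.X * dkP R (n + 1)).natDegree = n + 1 + 1 := by
        rw [Polynomial.natDegree_X_mul h2.ne_zero, h1]
      have h6 : (Polynomial.X * dkP R (n + 1)).Monic := Polynomial.monic_X.mul h2
      have h7 : (dkP R n).degree < (Polynomial.X * dkP R (n + 1)).degree := by
        rw [Polynomial.degree_eq_natDegree h6.ne_zero, h5]
        exact lt_of_le_of_lt Polynomial.degree_le_natDegree (by exact_mod_cast (by omega : (dkP R n).natDegree < n + 1 + 1))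
      rw [h4]
      refine ⟨?_, h6.sub_of_left h7⟩
      rw [Polynomial.natDegree_sub_eq_left_of_natDegree_lt (by omega), h5]

private theorem dkP_eval {R : Type} [CommRing R] (x : R) (n : ℕ) : (dkP R n).eval x = dk x 1 n := by
  have := map_dk (Polynomial.evalRingHom x) (Polynomial.X : Polynomial R) 1 n
  simpa [dkP] using this

/-- There are at most `n` elements `x` with `ω_x ^ n = 1`. -/
theorem card_om_pow_le (n : ℕ) (hn : 1 ≤ n) :
    {x : ZMod p | om x ^ n = 1}.ncard ≤ n := by
  classical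
  have hpp : p.Prime := Fact.out
  have : NeZero p := ⟨hpp.ne_zero⟩
  obtain ⟨m, rfl⟩ : ∃ m, n = m + 1 := ⟨n - 1, by omega⟩
  obtain ⟨h1, h2⟩ := dkP_deg (ZMod p) m
  set f : Polynomial (ZMod p) := dkP (ZMod p) (m + 1) - Polynomial.C 2 with hf
  have h3 : f.natDegree ≤ m + 1 := by
    refine (Polynomial.natDegree_sub_C).le.trans h1.le
  have h4 : f ≠ 0 := by
    intro h0
    have h5 : f.natDegree = m + 1 := by rw [hf, Polynomial.natDegree_sub_C, h1]
    rw [h0, Polynomial.natDegree_zero] at h5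
    omega
  have hsub : {x : ZMod p | om x ^ (m + 1) = 1} ⊆ (f.roots.toFinset : Set (ZMod p)) := by
    intro x hx
    rw [Set.mem_ofPred_eq] at hx
    rw [Finset.mem_coe, Multiset.mem_toFinset, Polynomial.mem_roots h4, Polynomial.IsRoot.def, hf,
      Polynomial.eval_sub, dkP_eval, Polynomial.eval_C, ← trace_om_pow, hx,
      QuadraticAlgebra.re_one, QuadraticAlgebra.im_one]
    ring
  refine (Set.ncard_le_ncard hsub (Set.toFinite _)).trans ?_
  rw [Set.ncard_coe_finset]
  exact ((Multiset.toFinset_card_le _).trans (Polynomial.card_roots' f)).trans h3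

/-- the sum of the inverses of the orders -/
theorem sum_inv_order_le (hp : p ≠ 2) (N : Finset (ZMod p)) (hN : ∀ a ∈ N, ¬ IsSquare a) :
    ∑ a ∈ N, (1 / (orderOf (om (2 - a)) : ℝ)) ≤ ((p ^ 2 - 1).divisors.card : ℝ) := by
  classical
  have hpp : p.Prime := Fact.out
  have h4 : 4 ≤ p ^ 2 := by nlinarith [hpp.two_le]
  have hmaps : ∀ a ∈ N, orderOf (om (2 - a)) ∈ (p ^ 2 - 1).divisors := by
    intro a ha
    rw [Nat.mem_divisors]
    exact ⟨order_dvd hp (hN a ha), by omega⟩
  have hc : ((p ^ 2 - 1).divisors.card : ℝ) = ∑ _e ∈ (p ^ 2 - 1).divisors, (1 : ℝ) := by simp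
  rw [← Finset.sum_fiberwise_of_maps_to hmaps, hc]
  refine Finset.sum_le_sum fun e he => ?_
  have he0 : 0 < e := Nat.pos_of_mem_divisors he
  have h1 : ∑ a ∈ N with orderOf (om (2 - a)) = e, (1 / (orderOf (om (2 - a)) : ℝ)) =
      (({a ∈ N | orderOf (om (2 - a)) = e} : Finset (ZMod p)).card : ℝ) * (1 / (e : ℝ)) := by
    rw [← nsmul_eq_mul, ← Finset.sum_const]
    refine Finset.sum_congr rfl fun a ha => ?_
    rw [(Finset.mem_filter.1 ha).2]
  rw [h1]
  have h2 : ({a ∈ N | orderOf (om (2 - a)) = e} : Finset (ZMod p)).card ≤ e := by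
    have : NeZero p := ⟨hpp.ne_zero⟩
    refine le_trans ?_ (card_om_pow_le (p := p) e he0)
    rw [← Set.ncard_coe_finset, ← Set.ncard_image_of_injective _ (sub_right_injective (b := (2 : ZMod p)))]
    refine Set.ncard_le_ncard ?_ (Set.toFinite _)
    rintro _ ⟨a, ha, rfl⟩
    rw [Finset.mem_coe, Finset.mem_filter] at ha
    rw [Set.mem_ofPred_eq, ← ha.2]
    exact pow_orderOf_eq_one _
  have h3 : (({a ∈ N | orderOf (om (2 - a)) = e} : Finset (ZMod p)).card : ℝ) ≤ e := by
    exact_mod_cast h2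
  rw [mul_one_div, div_le_one (by exact_mod_cast he0)]
  exact h3

/-- The number of bad parameters `D` which are non-squares modulo `p`. -/
theorem card_bad_le (hp : 5 ≤ p) :
    ({D : ZMod (p ^ 2) | ¬ IsSquare (red p D) ∧ Bad D}.ncard : ℝ) ≤
      p + 2 * p * ((p ^ 2 - 1).divisors.card : ℝ) := by
  classical
  have hpp : p.Prime := Fact.out
  have : NeZero p := ⟨hpp.ne_zero⟩
  have : NeZero (p ^ 2) := ⟨pow_ne_zero 2 hpp.ne_zero⟩
  have hp2 : p ≠ 2 := by omega
  set N : Finset (ZMod p) := Finset.univ.filter fun a => ¬ IsSquare a with hN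
  have hNs : ∀ a ∈ N, ¬ IsSquare a := fun a ha => (Finset.mem_filter.1 ha).2
  have hfin : {D : ZMod (p ^ 2) | ¬ IsSquare (red p D) ∧ Bad D}.Finite := Set.toFinite _
  have hmaps : ∀ D ∈ hfin.toFinset, red p D ∈ N := by
    intro D hD
    rw [Set.Finite.mem_toFinset] at hD
    exact Finset.mem_filter.2 ⟨Finset.mem_univ _, hD.1⟩
  rw [Set.ncard_eq_toFinset_card _ hfin, Finset.card_eq_sum_card_fiberwise hmaps]
  push_cast
  have h1 : ∀ a ∈ N, (({D ∈ hfin.toFinset | red p D = a} : Finset (ZMod (p ^ 2))).card : ℝ) ≤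
      1 + 2 * p * (1 / (orderOf (om (2 - a)) : ℝ)) := by
    intro a ha
    have h2 := card_bad_lifts hp (hNs a ha)
    have h3 : ({D ∈ hfin.toFinset | red p D = a} : Finset (ZMod (p ^ 2))).card ≤
        {D : ZMod (p ^ 2) | red p D = a ∧ Bad D}.ncard := by
      rw [← Set.ncard_coe_finset]
      refine Set.ncard_le_ncard ?_ (Set.toFinite _)
      intro D hD
      rw [Finset.mem_coe, Finset.mem_filter, Set.Finite.mem_toFinset] at hD
      exact ⟨hD.2, hD.1.2⟩
    have h4 : 0 < orderOf (om (2 - a)) :=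
      Nat.pos_of_dvd_of_pos (order_dvd hp2 (hNs a ha)) (by
        have : 4 ≤ p ^ 2 := by nlinarith
        omega)
    set n := {D : ZMod (p ^ 2) | red p D = a ∧ Bad D}.ncard with hn
    set e := orderOf (om (2 - a)) with he
    have h5 : ((n - 1 : ℕ) : ℝ) * e ≤ 2 * p := by exact_mod_cast h2
    have h6 : (n : ℝ) ≤ ((n - 1 : ℕ) : ℝ) + 1 := by
      have : n ≤ (n - 1) + 1 := by omega
      exact_mod_cast this
    have h7 : (0 : ℝ) < e := by exact_mod_cast h4
    have h8 : ((n - 1 : ℕ) : ℝ) ≤ 2 * p * (1 / (e : ℝ)) := by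
      rw [mul_one_div, le_div_iff₀ h7]
      exact h5
    have h9 : ((({D ∈ hfin.toFinset | red p D = a} : Finset (ZMod (p ^ 2))).card : ℕ) : ℝ) ≤ n := by
      exact_mod_cast h3
    linarith
  refine (Finset.sum_le_sum h1).trans ?_
  rw [Finset.sum_add_distrib, ← Finset.mul_sum, Finset.sum_const, nsmul_one]
  have h2 : (N.card : ℝ) ≤ p := by
    have : N.card ≤ p := by
      refine (Finset.card_le_univ _).trans ?_
      rw [ZMod.card]
    exact_mod_cast this
  have h3 := sum_inv_order_le hp2 N hNs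
  have h4 : (0 : ℝ) ≤ 2 * p := by positivity
  have h5 := mul_le_mul_of_nonneg_left h3 h4
  linarith

end Pool.Agent.Work.MP_60c97f_nt
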