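import Pool.Agent.Work.MP_60c97f_nt.App
import Pool.Agent.Work.MP_60c97f_nt.Tot

/-!
# Counting
-/

set_option autoImplicit false

namespace Pool.Agent.Work.MP_60c97f_nt

variable {p : ℕ} [Fact p.Prime]

/-- the orders of the first coordinates of a stable set of points of the section -/
theorem coord_order (hp : 5 ≤ p) {D : ZMod (p ^ 2)} (hD : ¬ IsSquare (red p D))
    {S : Set (ZMod (p ^ 2) × ZMod (p ^ 2) × ZMod (p ^ 2))} (hS : Stable S)
    (hX : ∀ T ∈ S, OnX D T) (hT : ∀ T ∈ S, TP T = T)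
    (h4 : ∀ T ∈ S, red p T.1 ^ 2 ≠ 4 ∧ red p T.2.1 ^ 2 ≠ 4 ∧ red p T.2.2 ^ 2 ≠ 4) :
    ∀ T ∈ S, orderOf (om (red p T.1)) ^ 2 < 110000 * p := by
  rintro ⟨x, y, z⟩ hT'
  have hTc : ∀ T ∈ S, dk T.1 1 p = T.1 ∧ dk T.2.1 1 p = T.2.1 ∧ dk T.2.2 1 p = T.2.2 := by
    intro T h
    have h1 := hT T h
    obtain ⟨u, v, w⟩ := T
    simp only [TP, Prod.mk.injEq] at h1
    exact h1
  have hn : ∀ n, dk (rs x y z n) 1 p = rs x y z n ∧ red p (rs x y z n) ^ 2 ≠ 4 := by
    intro n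
    rcases Nat.even_or_odd' n with ⟨m, h | h⟩
    · rw [h]
      have h1 := rs_mem hS hT' m
      exact ⟨(hTc _ h1).2.1, (h4 _ h1).2.1⟩
    · rw [h]
      have h1 := rs_mem hS hT' m
      exact ⟨(hTc _ h1).2.2, (h4 _ h1).2.2⟩
  refine order_sq_lt hp (hX _ hT') (h4 _ hT').1 (hTc _ hT').1 (fun n => (hn n).1)
    (fun n => (hn n).2) ?_ (four_ne_of_not_isSquare hD)
  intro h
  exact hD ⟨red p x, by rw [← h, pow_two]⟩

/-- the elements of small order -/
def SmallOrd (p : ℕ) [Fact p.Prime] : Set (ZMod p) :=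
  {x | x ^ 2 ≠ 4 ∧ orderOf (om x) ^ 2 < 110000 * p}

theorem card_smallOrd (hp : p ≠ 2) :
    (SmallOrd p).ncard ^ 2 ≤ (p ^ 2 - 1).divisors.card ^ 2 * (110000 * p) := by
  classical
  have hpp : p.Prime := Fact.out
  have : NeZero p := ⟨hpp.ne_zero⟩
  set s := Nat.sqrt (110000 * p) with hs
  have hs2 : s ^ 2 ≤ 110000 * p := Nat.sqrt_le' _
  have h4 : 4 ≤ p ^ 2 := by nlinarith [hpp.two_le]
  have hcard : (SmallOrd p).ncard ≤ (p ^ 2 - 1).divisors.card * s := by
    have hfin : ∀ δ : ℕ, {x : ZMod p | om x ^ δ = 1}.Finite := fun δ => Set.toFinite _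
    have hsub : SmallOrd p ⊆ (((p ^ 2 - 1).divisors.filter fun δ => δ ≤ s).biUnion
        fun δ => (hfin δ).toFinset : Finset (ZMod p)) := by
      rintro x ⟨h1, h2⟩
      have h3 : orderOf (om x) ∣ p ^ 2 - 1 := orderOf_dvd_of_pow_eq_one (om_pow_card hp h1)
      rw [Finset.mem_coe, Finset.mem_biUnion]
      refine ⟨orderOf (om x), Finset.mem_filter.2 ⟨Nat.mem_divisors.2 ⟨h3, by omega⟩, ?_⟩, ?_⟩
      · rw [hs, Nat.le_sqrt']
        exact h2.le
      · rw [Set.Finite.mem_toFinset]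
        exact pow_orderOf_eq_one _
    refine (Set.ncard_le_ncard hsub (Set.toFinite _)).trans ?_
    rw [Set.ncard_coe_finset]
    refine Finset.card_biUnion_le.trans ?_
    have h5 : ∀ δ ∈ ((p ^ 2 - 1).divisors.filter fun δ => δ ≤ s), (hfin δ).toFinset.card ≤ s := by
      intro δ hδ
      obtain ⟨h6, h7⟩ := Finset.mem_filter.1 hδ
      refine le_trans ?_ h7
      rw [← Set.ncard_eq_toFinset_card _ (hfin δ)]
      exact card_om_pow_le δ (Nat.pos_of_mem_divisors h6)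
    refine (Finset.sum_le_card_nsmul _ _ _ h5).trans ?_
    rw [smul_eq_mul]
    exact Nat.mul_le_mul_right _ (Finset.card_filter_le _ _)
  refine (Nat.pow_le_pow_left hcard 2).trans ?_
  rw [mul_pow]
  exact Nat.mul_le_mul_left _ hs2

/-- the points of the surface with two coordinates of small order -/
def SmallPt (a : ZMod p) : Set (ZMod p × ZMod p × ZMod p) :=
  {P | OnX a P ∧ P.1 ∈ SmallOrd p ∧ P.2.1 ∈ SmallOrd p}

theorem card_smallPt (hp : p ≠ 2) (a : ZMod p) :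
    (SmallPt a).ncard ≤ 220000 * (p ^ 2 - 1).divisors.card ^ 2 * p := by
  classical
  have hpp : p.Prime := Fact.out
  have : NeZero p := ⟨hpp.ne_zero⟩
  have hfin : (SmallPt a).Finite := Set.toFinite _
  have hfinS : (SmallOrd p).Finite := Set.toFinite _
  have h1 : (SmallPt a).ncard ≤ 2 * (SmallOrd p).ncard ^ 2 := by
    rw [Set.ncard_eq_toFinset_card _ hfin]
    refine (Finset.card_le_mul_card_image (f := fun P : ZMod p × ZMod p × ZMod p => (P.1, P.2.1))
      hfin.toFinset 2 ?_).trans ?_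
    · rintro ⟨x, y⟩ -
      by_cases hne : ((hfin.toFinset).filter fun P => (P.1, P.2.1) = (x, y)).Nonempty
      · obtain ⟨⟨x₀, y₀, z₀⟩, h0⟩ := hne
        rw [Finset.mem_filter, Set.Finite.mem_toFinset] at h0
        obtain ⟨⟨h0, -⟩, h1⟩ := h0
        simp only [Prod.mk.injEq] at h1
        obtain ⟨rfl, rfl⟩ := h1
        have hsub : ((hfin.toFinset).filter fun P => (P.1, P.2.1) = (x₀, y₀)) ⊆
            {(x₀, y₀, z₀), (x₀, y₀, x₀ * y₀ - z₀)} := by
          rintro ⟨x, y, z⟩ h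
          rw [Finset.mem_filter, Set.Finite.mem_toFinset] at h
          obtain ⟨⟨h2, -⟩, h3⟩ := h
          simp only [Prod.mk.injEq] at h3
          obtain ⟨rfl, rfl⟩ := h3
          simp only [OnX] at h0 h2
          have h4 : (z - z₀) * (z - (x * y - z₀)) = 0 := by linear_combination h2 - h0
          rcases mul_eq_zero.1 h4 with h5 | h5
          · simp [sub_eq_zero.1 h5]
          · simp [sub_eq_zero.1 h5]
        exact (Finset.card_le_card hsub).trans Finset.card_le_two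
      · rw [Finset.not_nonempty_iff_eq_empty.1 hne]
        simp
    · refine Nat.mul_le_mul_left 2 ?_
      have h2 : (hfin.toFinset.image fun P : ZMod p × ZMod p × ZMod p => (P.1, P.2.1)) ⊆
          hfinS.toFinset ×ˢ hfinS.toFinset := by
        intro u hu
        obtain ⟨P, hP, rfl⟩ := Finset.mem_image.1 hu
        rw [Set.Finite.mem_toFinset] at hP
        exact Finset.mem_product.2 ⟨hfinS.mem_toFinset.2 hP.2.1, hfinS.mem_toFinset.2 hP.2.2⟩
      refine (Finset.card_le_card h2).trans ?_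
      rw [Finset.card_product, ← Set.ncard_eq_toFinset_card _ hfinS, pow_two]
  have h2 := card_smallOrd hp
  calc (SmallPt a).ncard ≤ 2 * (SmallOrd p).ncard ^ 2 := h1
    _ ≤ 2 * ((p ^ 2 - 1).divisors.card ^ 2 * (110000 * p)) := Nat.mul_le_mul_left 2 h2
    _ = _ := by ring

/-- The reduction of an orbit which is not full consists of points with coordinates of small
order. -/
theorem redP_mem_smallPt (hp : 5 ≤ p) {D : ZMod (p ^ 2)} (hD : ¬ IsSquare (red p D))
    {P : ZMod (p ^ 2) × ZMod (p ^ 2) × ZMod (p ^ 2)} (hP : P ∈ XStar D) (hnf : ¬ Full D P)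
    {Q : ZMod (p ^ 2) × ZMod (p ^ 2) × ZMod (p ^ 2)} (hQ : Q ∈ vorb P) :
    redP Q ∈ SmallPt (red p D) := by
  have hD4 := four_ne_of_not_isSquare hD
  have hst := stable_section hp hD4 (Or.inr hD) hP hnf
  set S := TP '' vorb P with hS
  have hX : ∀ T ∈ S, OnX D T := by
    rintro _ ⟨Q, hQ, rfl⟩
    exact (section_of_not_full hp hD4 (Or.inr hD) hP hnf hQ).1
  have hT : ∀ T ∈ S, TP T = T := by
    rintro _ ⟨Q, hQ, rfl⟩
    exact TP_TP Q
  have h4 : ∀ T ∈ S, red p T.1 ^ 2 ≠ 4 ∧ red p T.2.1 ^ 2 ≠ 4 ∧ red p T.2.2 ^ 2 ≠ 4 := by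
    rintro _ ⟨Q, hQ, rfl⟩
    have h1 := (section_of_not_full hp hD4 (Or.inr hD) hP hnf hQ).2
    simp only [TP, red_dk]
    exact h1
  have hc1 := coord_order hp hD hst hX hT h4
  -- the transposed set
  have hst' : Stable (swxy '' S) := by
    rintro _ ⟨T, hT', rfl⟩
    obtain ⟨h1, h2, h3⟩ := hst T hT'
    refine ⟨⟨sy T, h2, ?_⟩, ⟨sx T, h1, ?_⟩, ⟨sz T, h3, ?_⟩⟩
    · simp [swxy, sx, sy]
    · simp [swxy, sx, sy]
    · simp [swxy, sz, mul_comm]
  have hX' : ∀ T ∈ swxy '' S, OnX D T := by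
    rintro _ ⟨T, hT', rfl⟩
    have := hX T hT'
    simp only [OnX, swxy] at this ⊢
    linear_combination this
  have hT2 : ∀ T ∈ swxy '' S, TP T = T := by
    rintro _ ⟨T, hT', rfl⟩
    have := hT T hT'
    obtain ⟨x, y, z⟩ := T
    simp only [TP, swxy, Prod.mk.injEq] at this ⊢
    exact ⟨this.2.1, this.1, this.2.2⟩
  have h4' : ∀ T ∈ swxy '' S, red p T.1 ^ 2 ≠ 4 ∧ red p T.2.1 ^ 2 ≠ 4 ∧
      red p T.2.2 ^ 2 ≠ 4 := by
    rintro _ ⟨T, hT', rfl⟩
    obtain ⟨h1, h2, h3⟩ := h4 T hT'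
    exact ⟨h2, h1, h3⟩
  have hc2 := coord_order hp hD hst' hX' hT2 h4'
  have hmem : TP Q ∈ S := ⟨Q, hQ, rfl⟩
  rw [← redP_TP Q]
  refine ⟨?_, ⟨(h4 _ hmem).1, hc1 _ hmem⟩, ⟨(h4 _ hmem).2.1, ?_⟩⟩
  · have := congrArg (red p) (hX _ hmem)
    simp only [map_add, map_mul, map_pow] at this
    exact this
  · exact hc2 _ ⟨TP Q, hmem, rfl⟩

theorem card_badSet' (hp : 5 ≤ p) {a : ZMod p} (ha : ¬ IsSquare a) :
    (BadSet a).ncard * orderOf (om (2 - a)) ≤ 220000 * (p ^ 2 - 1).divisors.card ^ 2 := by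
  classical
  have hpp : p.Prime := Fact.out
  have hp2 : p ≠ 2 := by omega
  have : NeZero p := ⟨hpp.ne_zero⟩
  have : NeZero (p ^ 2) := ⟨pow_ne_zero 2 hpp.ne_zero⟩
  have hch : ∀ D : ZMod (p ^ 2), ∃ P : ZMod (p ^ 2) × ZMod (p ^ 2) × ZMod (p ^ 2),
      D ∈ BadSet a → P ∈ XStar D ∧ ¬ Full D P := by
    intro D
    by_cases h : D ∈ BadSet a
    · obtain ⟨P, h1, h2⟩ := h.2.1
      exact ⟨P, fun _ => ⟨h1, h2⟩⟩
    · exact ⟨0, fun h' => absurd h' h⟩
  choose f hf using hch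
  have hfin : (BadSet a).Finite := Set.toFinite _
  have hfinA : ∀ D, (redP '' vorb (f D)).Finite := fun D => Set.toFinite _
  have hfinY : (SmallPt a).Finite := Set.toFinite _
  have hD4 : ∀ D ∈ BadSet a, ¬ IsSquare (red p D) := fun D hD => by rw [hD.1]; exact ha
  have hsec : ∀ D ∈ BadSet a, ∀ Q ∈ vorb (f D), OnX D (TP Q) := fun D hD Q hQ =>
    (section_of_not_full hp (four_ne_of_not_isSquare (hD4 D hD)) (Or.inr (hD4 D hD)) (hf D hD).1
      (hf D hD).2 hQ).1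
  have hdisj : Set.PairwiseDisjoint (hfin.toFinset : Set (ZMod (p ^ 2)))
      (fun D => (hfinA D).toFinset) := by
    intro D hD D' hD' hne
    rw [Set.Finite.coe_toFinset] at hD hD'
    rw [Function.onFun, Finset.disjoint_left]
    intro b hb hb'
    rw [Set.Finite.mem_toFinset] at hb hb'
    obtain ⟨Q, hQ, rfl⟩ := hb
    obtain ⟨Q', hQ', hr⟩ := hb'
    apply hne
    have h1 := hsec D hD Q hQ
    have h2 := hsec D' hD' Q' hQ'
    rw [TP_congr hr] at h2
    simp only [OnX] at h1 h2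
    linear_combination h2 - h1
  have h1 : ∑ D ∈ hfin.toFinset, (hfinA D).toFinset.card ≤ (SmallPt a).ncard := by
    rw [← Finset.card_biUnion hdisj, Set.ncard_eq_toFinset_card _ hfinY]
    refine Finset.card_le_card fun b hb => ?_
    rw [Finset.mem_biUnion] at hb
    obtain ⟨D, hD, hb⟩ := hb
    rw [Set.Finite.mem_toFinset] at hD hb ⊢
    obtain ⟨Q, hQ, rfl⟩ := hb
    have h2 := redP_mem_smallPt hp (hD4 D hD) (hf D hD).1 (hf D hD).2 hQ
    rwa [hD.1] at h2
  have h2 : hfin.toFinset.card * (p * orderOf (om (2 - a))) ≤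
      ∑ D ∈ hfin.toFinset, (hfinA D).toFinset.card := by
    rw [← smul_eq_mul, ← Finset.sum_const]
    refine Finset.sum_le_sum fun D hD => ?_
    rw [Set.Finite.mem_toFinset] at hD
    have h3 := mul_le_section hp (hD4 D hD) hD.2.2 (hf D hD).1 (hf D hD).2
    rw [Set.ncard_eq_toFinset_card _ (hfinA D), hD.1] at h3
    exact h3
  have h3 := (h2.trans h1).trans (card_smallPt hp2 a)
  rw [Set.ncard_eq_toFinset_card _ hfin]
  refine Nat.le_of_mul_le_mul_left ?_ hpp.pos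
  have h4 : p * (hfin.toFinset.card * orderOf (om (2 - a))) =
        hfin.toFinset.card * (p * orderOf (om (2 - a))) := by ring
  have h5 : p * (220000 * (p ^ 2 - 1).divisors.card ^ 2) =
      220000 * (p ^ 2 - 1).divisors.card ^ 2 * p := by ring
  rw [h4, h5]
  exact h3

/-- the set of the bad parameters which are not special -/
def BadAll (p : ℕ) [Fact p.Prime] : Set (ZMod (p ^ 2)) :=
  {D | ¬ IsSquare (red p D) ∧ Bad D ∧ dk (D - 2) 1 p ≠ D - 2}

theorem card_badAll (hp : 5 ≤ p) :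
    ((BadAll p).ncard : ℝ) ≤ 220000 * ((p ^ 2 - 1).divisors.card : ℝ) ^ 3 := by
  classical
  have hpp : p.Prime := Fact.out
  have : NeZero p := ⟨hpp.ne_zero⟩
  have : NeZero (p ^ 2) := ⟨pow_ne_zero 2 hpp.ne_zero⟩
  have hp2 : p ≠ 2 := by omega
  set N : Finset (ZMod p) := Finset.univ.filter fun a => ¬ IsSquare a with hN
  have hNs : ∀ a ∈ N, ¬ IsSquare a := fun a ha => (Finset.mem_filter.1 ha).2
  have hfin : (BadAll p).Finite := Set.toFinite _
  have hmaps : ∀ D ∈ hfin.toFinset, red p D ∈ N := by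
    intro D hD
    rw [Set.Finite.mem_toFinset] at hD
    exact Finset.mem_filter.2 ⟨Finset.mem_univ _, hD.1⟩
  set τ : ℝ := ((p ^ 2 - 1).divisors.card : ℝ) with hτ
  rw [Set.ncard_eq_toFinset_card _ hfin, Finset.card_eq_sum_card_fiberwise hmaps]
  push_cast
  have h1 : ∀ a ∈ N, (({D ∈ hfin.toFinset | red p D = a} : Finset (ZMod (p ^ 2))).card : ℝ) ≤
      220000 * τ ^ 2 * (1 / (orderOf (om (2 - a)) : ℝ)) := by
    intro a ha
    have h2 := card_badSet' hp (hNs a ha)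
    have h3 : ({D ∈ hfin.toFinset | red p D = a} : Finset (ZMod (p ^ 2))).card ≤
        (BadSet a).ncard := by
      rw [← Set.ncard_coe_finset]
      refine Set.ncard_le_ncard ?_ (Set.toFinite _)
      intro D hD
      rw [Finset.mem_coe, Finset.mem_filter, Set.Finite.mem_toFinset] at hD
      exact ⟨hD.2, hD.1.2.1, hD.1.2.2⟩
    have h4 : 0 < orderOf (om (2 - a)) :=
      Nat.pos_of_dvd_of_pos (order_dvd hp2 (hNs a ha)) (by
        have : 4 ≤ p ^ 2 := by nlinarith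
        omega)
    have h5 : ((BadSet a).ncard : ℝ) * (orderOf (om (2 - a)) : ℝ) ≤ 220000 * τ ^ 2 := by
      rw [hτ]
      exact_mod_cast h2
    have h7 : (0 : ℝ) < orderOf (om (2 - a)) := by exact_mod_cast h4
    have h8 : ((BadSet a).ncard : ℝ) ≤ 220000 * τ ^ 2 * (1 / (orderOf (om (2 - a)) : ℝ)) := by
      rw [mul_one_div, le_div_iff₀ h7]
      exact h5
    refine le_trans ?_ h8
    exact_mod_cast h3
  refine (Finset.sum_le_sum h1).trans ?_
  rw [← Finset.mul_sum]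
  have h3 := sum_inv_order_le hp2 N hNs
  have h4 : (0 : ℝ) ≤ 220000 * τ ^ 2 := by positivity
  have h5 := mul_le_mul_of_nonneg_left h3 h4
  calc 220000 * τ ^ 2 * ∑ a ∈ N, 1 / (orderOf (om (2 - a)) : ℝ) ≤ 220000 * τ ^ 2 * τ := h5
    _ = 220000 * τ ^ 3 := by ring

/-- For the other parameters all the stable sets have cardinality divisible by `p²`. -/
theorem sq_dvd_of_not_badAll (hp : 5 ≤ p) {D : ZMod (p ^ 2)} (hD : ¬ IsSquare (red p D))
    (hs : dk (D - 2) 1 p ≠ D - 2) (hb : D ∉ BadAll p)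
    {O : Set (ZMod (p ^ 2) × ZMod (p ^ 2) × ZMod (p ^ 2))} (hO : Stable O) (hX : O ⊆ XStar D) :
    p ^ 2 ∣ O.ncard := by
  refine dvd_ncard_of_stable (fun P hP => sq_dvd_vorb_of_sq_dvd hp
    (four_ne_of_not_isSquare hD) (Or.inr hD) hP fun hnf => ?_) O hO hX
  exact absurd ⟨hD, ⟨P, hP, hnf⟩, hs⟩ hb

end Pool.Agent.Work.MP_60c97f_nt
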