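import Pool.Agent.Work.MP_60c97f_nt.Un

/-!
# The logarithm type polynomial
-/

set_option autoImplicit false

namespace Pool.Agent.Work.MP_60c97f_nt

open Polynomial

section gen

variable {R S : Type} [CommRing R] [CommRing S] (p : ℕ) [Fact p.Prime]

/-- `dk y s p = y ^ p + p * Gv p y s` -/
noncomputable def Gv (y s : R) : R := MvPolynomial.aeval ![y, s] (exists_dk_eq p).choose

theorem Gv_spec (y s : R) : dk y s p = y ^ p + p * Gv p y s := (exists_dk_eq p).choose_spec y s

theorem map_Gv (f : R →+* S) (y s : R) : f (Gv p y s) = Gv p (f y) (f s) := by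
  have h := MvPolynomial.map_aeval ![y, s] f (exists_dk_eq p).choose
  rw [Gv, h, Gv, MvPolynomial.aeval_def, MvPolynomial.coe_eval₂Hom]
  congr 1
  · exact RingHom.ext_int _ _
  · funext i
    fin_cases i <;> rfl

theorem Gv_homog (l y s : R) : Gv p (l * y) (l ^ 2 * s) = l ^ p * Gv p y s := by
  have hp : p.Prime := Fact.out
  -- universal case
  have key : Gv p ((MvPolynomial.X 0 : MvPolynomial (Fin 3) ℤ) * MvPolynomial.X 1)
      (MvPolynomial.X 0 ^ 2 * MvPolynomial.X 2) =
      MvPolynomial.X 0 ^ p * Gv p (MvPolynomial.X 1) (MvPolynomial.X 2) := by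
    have hp0 : (p : MvPolynomial (Fin 3) ℤ) ≠ 0 := by
      exact_mod_cast hp.ne_zero
    refine mul_left_cancel₀ hp0 ?_
    have h1 := Gv_spec p ((MvPolynomial.X 0 : MvPolynomial (Fin 3) ℤ) * MvPolynomial.X 1)
      (MvPolynomial.X 0 ^ 2 * MvPolynomial.X 2)
    have h2 := Gv_spec p (MvPolynomial.X 1 : MvPolynomial (Fin 3) ℤ) (MvPolynomial.X 2)
    rw [dk_homog] at h1
    rw [h2] at h1
    linear_combination -h1
  let f : MvPolynomial (Fin 3) ℤ →+* R :=
    (MvPolynomial.aeval ![l, y, s] : MvPolynomial (Fin 3) ℤ →ₐ[ℤ] R).toRingHom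
  have h0 : f (MvPolynomial.X 0) = l := by simp [f]
  have h1 : f (MvPolynomial.X 1) = y := by simp [f]
  have h2 : f (MvPolynomial.X 2) = s := by simp [f]
  have h := congrArg f key
  rw [map_Gv, map_mul, map_mul, map_pow, map_mul, map_pow, map_Gv, h0, h1, h2] at h
  exact h

/-- the logarithm type polynomial -/
noncomputable def Kp (a b : R) : R[X] :=
  Gv p (C a * X ^ 2 + C b) (X ^ 2) - Gv p (C a * X ^ 2 + C b) (C (a * b) * X ^ 2)

theorem p_mul_Kp (a b : R) : (p : R[X]) * Kp p a b =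
    dk (C a * X ^ 2 + C b) (X ^ 2) p - ((C a * X ^ 2) ^ p + C b ^ p) := by
  have h1 := Gv_spec p (C a * X ^ 2 + C b) (X ^ 2)
  have h2 := Gv_spec p (C a * X ^ 2 + C b) (C (a * b) * X ^ 2)
  have h3 : dk (C a * X ^ 2 + C b) (C (a * b) * X ^ 2) p = (C a * X ^ 2) ^ p + C b ^ p :=
    dk_of_add_mul rfl (by rw [C_mul]; ring) p
  rw [h3] at h2
  rw [Kp]
  linear_combination h2 - h1

theorem map_Kp (f : R →+* S) (a b : R) : (Kp p a b).map f = Kp p (f a) (f b) := by
  have h1 := map_Gv p (mapRingHom f) (C a * X ^ 2 + C b) (X ^ 2)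
  have h2 := map_Gv p (mapRingHom f) (C a * X ^ 2 + C b) (C (a * b) * X ^ 2)
  simp only [coe_mapRingHom, Polynomial.map_add, Polynomial.map_mul, Polynomial.map_pow, map_C,
    map_X] at h1 h2
  rw [Kp, Polynomial.map_sub, h1, h2, Kp, map_mul]

theorem eval_Kp (a b w : R) : (Kp p a b).eval w =
    Gv p (a * w ^ 2 + b) (w ^ 2) - Gv p (a * w ^ 2 + b) (a * b * w ^ 2) := by
  have h1 := map_Gv p (evalRingHom w) (C a * X ^ 2 + C b) (X ^ 2)
  have h2 := map_Gv p (evalRingHom w) (C a * X ^ 2 + C b) (C (a * b) * X ^ 2)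
  simp only [coe_evalRingHom, eval_add, eval_mul, eval_pow, eval_C, eval_X] at h1 h2
  rw [Kp, eval_sub, h1, h2]

private theorem natDegree_dk (a b : R) (n : ℕ) :
    (dk (C a * X ^ 2 + C b) (X ^ 2) n).natDegree ≤ 2 * n := by
  have hY : (C a * X ^ 2 + C b : R[X]).natDegree ≤ 2 := by compute_degree
  induction n using Nat.twoStepInduction with
  | zero =>
    simp only [dk]
    exact (natDegree_ofNat (R := R) 2).le
  | one => simpa [dk] using hY
  | more n h1 h2 =>
    rw [dk]
    refine (natDegree_sub_le _ _).trans (max_le ?_ ?_)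
    · refine natDegree_mul_le.trans ?_
      omega
    · refine natDegree_mul_le.trans ?_
      have : (X ^ 2 : R[X]).natDegree ≤ 2 := natDegree_X_pow_le 2
      omega

/-- the universal case -/
private theorem univ {R : Type} [CommRing R] [IsDomain R] [CharZero R] (a b : R) :
    (Kp p a b).natDegree ≤ 2 * p ∧
    X * derivative (Kp p a b) = (C a * X ^ 2 - C b) * un (C a * X ^ 2 + C b) (X ^ 2) p +
      dk (C a * X ^ 2 + C b) (X ^ 2) p - 2 * (C a * X ^ 2) ^ p := by
  have hp : p.Prime := Fact.out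
  have hp0 : (p : R[X]) ≠ 0 := by exact_mod_cast hp.ne_zero
  have h1 := p_mul_Kp p a b
  constructor
  · have h2 : ((p : R[X]) * Kp p a b).natDegree =
        (Kp p a b).natDegree := by
      by_cases hK : Kp p a b = 0
      · rw [hK, mul_zero]
      · rw [natDegree_mul hp0 hK, natDegree_natCast, zero_add]
    rw [← h2, h1]
    refine (natDegree_sub_le _ _).trans (max_le (natDegree_dk a b p) ?_)
    refine (natDegree_add_le _ _).trans (max_le ?_ ?_)
    · refine natDegree_pow_le.trans ?_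
      have : (C a * X ^ 2 : R[X]).natDegree ≤ 2 := by compute_degree
      calc p * (C a * X ^ 2 : R[X]).natDegree ≤ p * 2 :=
          Nat.mul_le_mul_left p this
        _ = 2 * p := mul_comm _ _
    · rw [← C_pow, natDegree_C]
      exact Nat.zero_le _
  · obtain ⟨m, hm⟩ : ∃ m, p = m + 1 := ⟨p - 1, by have := hp.one_lt; omega⟩
    refine mul_left_cancel₀ hp0 ?_
    have h2 := congrArg derivative h1
    rw [derivative_sub, derivative_add, derivative_mul, derivative_natCast, zero_mul, zero_add,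
      ← C_pow, derivative_C, add_zero] at h2
    have hX2 : derivative (X ^ 2 : R[X]) = 2 * X := by
      rw [derivative_X_pow, Nat.cast_ofNat, map_ofNat, show 2 - 1 = 1 from rfl, pow_one]
    have h3 : derivative (dk (C a * X ^ 2 + C b) (X ^ 2) p) =
        (p : R[X]) * (un (C a * X ^ 2 + C b) (X ^ 2) p * (2 * C a * X) -
          un (C a * X ^ 2 + C b) (X ^ 2) m * (2 * X)) := by
      have h4 := derivative_dk (C a * X ^ 2 + C b) (X ^ 2) m
      rw [← hm] at h4
      rw [h4]
      simp only [derivative_add, derivative_mul, derivative_C, hX2, zero_mul, zero_add, add_zero]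
      ring
    have h5 : derivative ((C a * X ^ 2) ^ p) =
        (p : R[X]) * ((C a * X ^ 2) ^ m * (2 * C a * X)) := by
      rw [derivative_pow, hm]
      simp only [derivative_mul, derivative_C, hX2, zero_mul, zero_add, Nat.add_sub_cancel,
        map_natCast]
      ring
    rw [h3, h5] at h2
    have h6 := dk_succ_eq (C a * X ^ 2 + C b) (X ^ 2) m
    rw [← hm] at h6
    have h7 : (C a * X ^ 2) ^ p = (C a * X ^ 2) ^ m * (C a * X ^ 2) := by
      conv_lhs => rw [hm]
      rw [pow_succ]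
    rw [h7, h6]
    linear_combination X * h2

theorem natDegree_Kp (a b : R) : (Kp p a b).natDegree ≤ 2 * p := by
  let f : MvPolynomial (Fin 2) ℤ →+* R :=
    (MvPolynomial.aeval ![a, b] : MvPolynomial (Fin 2) ℤ →ₐ[ℤ] R).toRingHom
  have h0 : f (MvPolynomial.X 0) = a := by simp [f]
  have h1 : f (MvPolynomial.X 1) = b := by simp [f]
  have h := map_Kp p f (MvPolynomial.X 0) (MvPolynomial.X 1)
  rw [h0, h1] at h
  rw [← h]
  exact natDegree_map_le.trans (univ p _ _).1

theorem X_mul_derivative_Kp [CharP R p] (hp : p ≠ 2) (a b : R) : X * derivative (Kp p a b) =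
    (C a * X ^ 2 - C b) * ((C a * X ^ 2 + C b) ^ 2 - 4 * X ^ 2) ^ ((p - 1) / 2) -
      (C a * X ^ 2 - C b) ^ p := by
  let f : MvPolynomial (Fin 2) ℤ →+* R :=
    (MvPolynomial.aeval ![a, b] : MvPolynomial (Fin 2) ℤ →ₐ[ℤ] R).toRingHom
  have h0 : f (MvPolynomial.X 0) = a := by simp [f]
  have h1 : f (MvPolynomial.X 1) = b := by simp [f]
  have hK := map_Kp p f (MvPolynomial.X 0) (MvPolynomial.X 1)
  rw [h0, h1] at hK
  have h := congrArg (mapRingHom f) (univ p (MvPolynomial.X 0 : MvPolynomial (Fin 2) ℤ)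
    (MvPolynomial.X 1)).2
  simp only [map_sub, map_add, map_mul, map_pow, map_un, map_dk, coe_mapRingHom, map_X, map_C,
    ← derivative_map, hK, h0, h1, map_ofNat] at h
  have h2 := un_charP p hp (C a * X ^ 2 + C b) (X ^ 2)
  have h3 := dk_charP p (C a * X ^ 2 + C b) (X ^ 2 : R[X])
  have h4 := sub_pow_char (p := p) (C a * X ^ 2) (C b)
  have h5 := add_pow_char (p := p) (C a * X ^ 2) (C b)
  rw [h, h2, h3, h4, h5]
  ring

end gen

end Pool.Agent.Work.MP_60c97f_nt
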