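import Pool.Agent.Work.MP_60c97f_nt.Rot

/-!
# The line lemma

If `x ≡ ±2` or `x ≠ dk x 1 p` modulo `p²`, then the orbit of a point under the Vieta involutions contains all
points with the same first coordinate and the same reduction.
-/

set_option autoImplicit false

namespace Pool.Agent.Work.MP_60c97f_nt

variable {p : ℕ} [Fact p.Prime]

omit [Fact p.Prime] in
theorem red_surj (a : ZMod p) : ∃ b : ZMod (p ^ 2), red p b = a :=
  ZMod.castHom_surjective (dvd_pow_self p two_ne_zero) a

theorem p_mul_eq_zero_iff (a : ZMod (p ^ 2)) : (p : ZMod (p ^ 2)) * a = 0 ↔ red p a = 0 := by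
  have hp : p.Prime := Fact.out
  have : NeZero (p ^ 2) := ⟨pow_ne_zero 2 hp.ne_zero⟩
  constructor
  · intro h
    obtain ⟨n, rfl⟩ : ∃ n : ℕ, a = n := ⟨a.val, (ZMod.natCast_zmod_val a).symm⟩
    rw [map_natCast, ZMod.natCast_eq_zero_iff]
    rw [← Nat.cast_mul, ZMod.natCast_eq_zero_iff, pow_two] at h
    exact Nat.dvd_of_mul_dvd_mul_left hp.pos h
  · intro h
    obtain ⟨c, rfl⟩ := (red_eq_zero_iff a).1 h
    linear_combination c * natCast_sq_eq_zero p

theorem two_isUnit (hp : p ≠ 2) : IsUnit (2 : ZMod (p ^ 2)) := by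
  rw [isUnit_iff_red, map_ofNat]
  exact two_ne_zero' hp

theorem two_cancel (hp : p ≠ 2) {a b : ZMod (p ^ 2)} (h : 2 * a = 2 * b) : a = b :=
  (two_isUnit hp).mul_left_cancel h

/-- linear algebra over the residue field -/
private theorem solve {k : Type} [Field k] {gy gz dy dz b : k} (hb : b ≠ 0)
    (hg : gy ≠ 0 ∨ gz ≠ 0) (h : gy * dy + gz * dz = 0) :
    ∃ j : k, 2 * dy = j * b * gz ∧ 2 * dz = -(j * b * gy) := by
  by_cases hz : gz = 0
  · have hy : gy ≠ 0 := by
      rcases hg with h1 | h1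
      · exact h1
      · exact absurd hz h1
    have hdy : dy = 0 := by
      rw [hz, zero_mul, add_zero] at h
      exact (mul_eq_zero.1 h).resolve_left hy
    refine ⟨-(2 * dz) / (b * gy), ?_, ?_⟩
    · rw [hdy, hz]; ring
    · field_simp
  · refine ⟨2 * dy / (b * gz), ?_, ?_⟩
    · field_simp
    · field_simp
      linear_combination 2 * h

/-- the tangent condition -/
private theorem tangent {D x y z dy dz : ZMod (p ^ 2)} (h : OnX D (x, y, z))
    (h' : OnX D (x, y + (p : ZMod (p ^ 2)) * dy, z + (p : ZMod (p ^ 2)) * dz)) :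
    red p (2 * y - x * z) * red p dy + red p (2 * z - x * y) * red p dz = 0 := by
  rw [← map_mul, ← map_mul, ← map_add, ← p_mul_eq_zero_iff]
  simp only [OnX] at h h'
  linear_combination h' - h - (dy ^ 2 + dz ^ 2 - x * dy * dz) * natCast_sq_eq_zero p

theorem one_add_p_pow {S : Type} [CommRing S] {c a : S} (hc : c * c = 0) (j : ℕ) :
    (1 + c * a) ^ j = 1 + j * (c * a) := by
  induction j with
  | zero => simp
  | succ j ih =>
    rw [pow_succ, ih]
    push_cast
    linear_combination (j * a ^ 2) * hc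

/-- generic line -/
private theorem line_generic (hp : 5 ≤ p) {D x y z dy dz : ZMod (p ^ 2)} (h : OnX D (x, y, z))
    (h' : OnX D (x, y + (p : ZMod (p ^ 2)) * dy, z + (p : ZMod (p ^ 2)) * dz)) (hx4 : red p x ^ 2 ≠ 4) (hx : dk x 1 p ≠ x)
    (hg : red p (2 * y - x * z) ≠ 0 ∨ red p (2 * z - x * y) ≠ 0) :
    (x, y + (p : ZMod (p ^ 2)) * dy, z + (p : ZMod (p ^ 2)) * dz) ∈ vorb (x, y, z) := by
  have hpp : p.Prime := Fact.out
  have hp2 : p ≠ 2 := by omega
  have hpp0 := natCast_sq_eq_zero p
  set E := p ^ 2 - 1 with hE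
  have h1 := om_pow_card hp2 hx4
  have h2 := map_om_pow (red p) x E
  rw [h1, QuadraticAlgebra.re_one, QuadraticAlgebra.im_one] at h2
  set u := (om x ^ E).re with hu
  set v := (om x ^ E).im with hv
  obtain ⟨a, ha⟩ : (p : ZMod (p ^ 2)) ∣ u - 1 := by
    rw [← red_eq_zero_iff, map_sub, h2.1, map_one, sub_self]
  obtain ⟨b, hb⟩ : (p : ZMod (p ^ 2)) ∣ v := by
    rw [← red_eq_zero_iff, h2.2]
  have hn := norm_om_pow x E
  rw [← hu, ← hv] at hn
  have hu' : u = 1 + p * a := by linear_combination ha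
  rw [hu', hb] at hn
  have hab : (p : ZMod (p ^ 2)) * (2 * a + x * b) = 0 := by
    linear_combination hn - (a ^ 2 + x * a * b + b ^ 2) * hpp0
  have hbne : red p b ≠ 0 := by
    intro hb0
    have hpb : (p : ZMod (p ^ 2)) * b = 0 := (p_mul_eq_zero_iff b).2 hb0
    have hpa : (p : ZMod (p ^ 2)) * a = 0 := by
      apply two_cancel hp2
      linear_combination hab - x * hpb
    have hom : om x ^ E = 1 := by
      ext
      · rw [← hu, hu', hpa, QuadraticAlgebra.re_one, add_zero]
      · rw [← hv, hb, hpb, QuadraticAlgebra.im_one]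
    have hEn : E ≠ 0 := by
      have : 4 ≤ p ^ 2 := by nlinarith
      omega
    have hpE : ¬ p ∣ E := by
      intro hd
      have h3 : p ∣ p ^ 2 := dvd_pow_self p two_ne_zero
      have h4 : p ∣ p ^ 2 - E := Nat.dvd_sub h3 hd
      have h5 : p ^ 2 - E = 1 := by
        have : 1 ≤ p ^ 2 := Nat.one_le_pow _ _ hpp.pos
        omega
      rw [h5] at h4
      exact hpp.one_lt.ne' (Nat.dvd_one.1 h4)
    exact hx (dk_eq_self_of_pow (algebraMap (ZMod (p ^ 2)) (QuadraticAlgebra (ZMod (p ^ 2)) (-1) x))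
      QuadraticAlgebra.algebraMap_injective (om_mul_conj x) (by ring) hEn hom hpE)
  obtain ⟨j, hj1, hj2⟩ := solve hbne hg (tangent h h')
  obtain ⟨J, rfl⟩ : ∃ J : ℕ, j = J := ⟨j.val, by
    have : NeZero p := ⟨hpp.ne_zero⟩
    exact (ZMod.natCast_zmod_val j).symm⟩
  obtain ⟨Y, Z, hYZ, hth⟩ := rot_iter x y z (E * J)
  have hE2 : 2 * (E / 2 * J) = E * J := by
    have h3 : p % 2 = 1 := by
      rcases hpp.eq_two_or_odd with h4 | h4
      · exact absurd h4 hp2
      · exact h4
    have h4 : p ^ 2 % 2 = 1 := by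
      rw [Nat.pow_mod, h3]
    have h5 : 2 * (E / 2) = E := by omega
    rw [← mul_assoc, h5]
  have hmem := iter_rot_mem_vorb (x, y, z) (E / 2 * J)
  rw [hE2, hYZ] at hmem
  -- compute Y, Z
  set α : QuadraticAlgebra (ZMod (p ^ 2)) (-1) x := ⟨a, b⟩ with hα
  set P' : QuadraticAlgebra (ZMod (p ^ 2)) (-1) x := algebraMap _ _ (p : ZMod (p ^ 2)) with hP'
  have homE : om x ^ E = 1 + P' * α := by
    rw [hP', QuadraticAlgebra.algebraMap_eq]
    ext
    · rw [← hu, hu']
      simp [hα, QuadraticAlgebra.re_one]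
    · rw [← hv, hb]
      simp [hα, QuadraticAlgebra.im_one]
  have hPP : P' * P' = 0 := by
    rw [hP', ← map_mul, ← pow_two, hpp0, map_zero]
  rw [pow_mul, homE, one_add_p_pow hPP] at hth
  have hre := congrArg QuadraticAlgebra.re hth
  have him := congrArg QuadraticAlgebra.im hth
  simp only [th, hα, hP', QuadraticAlgebra.re_mul, QuadraticAlgebra.im_mul,
    QuadraticAlgebra.re_add, QuadraticAlgebra.im_add, QuadraticAlgebra.re_one,
    QuadraticAlgebra.im_one, QuadraticAlgebra.re_natCast, QuadraticAlgebra.im_natCast,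
    QuadraticAlgebra.algebraMap_re, QuadraticAlgebra.algebraMap_im] at hre him
  have e1 : (p : ZMod (p ^ 2)) * (2 * dy - J * b * (2 * z - x * y)) = 0 := by
    rw [p_mul_eq_zero_iff]
    simp only [map_sub, map_mul, map_ofNat, map_natCast] at hj1 ⊢
    linear_combination hj1
  have e2 : (p : ZMod (p ^ 2)) * (2 * dz + J * b * (2 * y - x * z)) = 0 := by
    rw [p_mul_eq_zero_iff]
    simp only [map_sub, map_mul, map_add, map_ofNat, map_natCast] at hj2 ⊢
    linear_combination hj2
  have hY : Y = y + (p : ZMod (p ^ 2)) * dy := by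
    apply two_cancel hp2
    linear_combination 2 * him + J * y * hab - e1
  have hZ : Z = z + (p : ZMod (p ^ 2)) * dz := by
    apply two_cancel hp2
    linear_combination 2 * hre + 2 * x * him + J * z * hab - e2
  rw [hY, hZ] at hmem
  exact hmem

/-- the line through a point with `x ≡ 2` -/
private theorem line_parabolic (hp : 5 ≤ p) {D x y z dy dz : ZMod (p ^ 2)}
    (h : OnX D (x, y, z))
    (h' : OnX D (x, y + (p : ZMod (p ^ 2)) * dy, z + (p : ZMod (p ^ 2)) * dz))
    (hx2 : red p x = 2) (hD : red p D ≠ 4) :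
    (x, y + (p : ZMod (p ^ 2)) * dy, z + (p : ZMod (p ^ 2)) * dz) ∈ vorb (x, y, z) := by
  have hpp : p.Prime := Fact.out
  have hp2 : p ≠ 2 := by omega
  have hpp0 := natCast_sq_eq_zero p
  have htan := tangent h h'
  simp only [map_sub, map_mul, map_ofNat, hx2] at htan
  have hred : red p z - red p y ≠ 0 := by
    intro h0
    apply hD
    have h1 := congrArg (red p) h
    simp only [map_add, map_mul, map_pow, hx2] at h1
    linear_combination -h1 + (red p z - red p y) * h0
  have hd : red p dy = red p dz := by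
    have h1 : (2 * (red p y - red p z)) * (red p dy - red p dz) = 0 := by
      linear_combination htan
    have h2 : 2 * (red p y - red p z) ≠ 0 := by
      refine mul_ne_zero (two_ne_zero' hp2) fun h0 => hred ?_
      linear_combination -h0
    have h3 := (mul_eq_zero.1 h1).resolve_left h2
    linear_combination h3
  have hpx : (p : ZMod (p ^ 2)) * (x - 2) = 0 := by
    rw [p_mul_eq_zero_iff, map_sub, hx2, map_ofNat, sub_self]
  obtain ⟨J, K, hJK, hJ⟩ : ∃ J K : ℕ, J = 2 * K ∧
      (J : ZMod p) = red p dy / (red p z - red p y) := by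
    have : NeZero p := ⟨hpp.ne_zero⟩
    refine ⟨_, (red p dy / (red p z - red p y) / 2).val, rfl, ?_⟩
    rw [Nat.cast_mul, ZMod.natCast_zmod_val, Nat.cast_ofNat,
      mul_div_cancel₀ _ (two_ne_zero' hp2)]
  have hJ' : (J : ZMod p) * (red p z - red p y) = red p dy := by
    rw [hJ, div_mul_cancel₀ _ hred]
  set ε : QuadraticAlgebra (ZMod (p ^ 2)) (-1) x := om x - 1 with hε
  obtain ⟨e, he⟩ : (p : ZMod (p ^ 2)) ∣ x - 2 := by
    rw [← red_eq_zero_iff, map_sub, hx2, map_ofNat, sub_self]
  have hPP : (p : QuadraticAlgebra (ZMod (p ^ 2)) (-1) x) * p = 0 := by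
    have h1 := congrArg (algebraMap (ZMod (p ^ 2)) (QuadraticAlgebra (ZMod (p ^ 2)) (-1) x)) hpp0
    rw [map_pow, map_natCast, map_zero] at h1
    exact (pow_two _).symm.trans h1
  have hε2 : ε ^ 2 = p * (algebraMap _ _ e * om x) := by
    have h1 : om x * om x = algebraMap _ _ x * om x - 1 := by
      have := om_mul_conj x
      linear_combination -this
    have h2 : (algebraMap (ZMod (p ^ 2)) (QuadraticAlgebra (ZMod (p ^ 2)) (-1) x)) x =
        2 + p * algebraMap _ _ e := by
      have h3 := congrArg (algebraMap (ZMod (p ^ 2)) (QuadraticAlgebra (ZMod (p ^ 2)) (-1) x)) he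
      rw [map_sub, map_mul, map_natCast, map_ofNat] at h3
      linear_combination h3
    rw [hε]
    linear_combination h1 + om x * h2
  have hε4 : ε ^ 4 = 0 := by
    have : ε ^ 4 = (ε ^ 2) ^ 2 := by ring
    rw [this, hε2]
    linear_combination (algebraMap _ _ e * om x) ^ 2 * hPP
  obtain ⟨c2, hc2⟩ : p ∣ p.choose 2 := hpp.dvd_choose_self (by norm_num) (by omega)
  obtain ⟨c3, hc3⟩ : p ∣ p.choose 3 := hpp.dvd_choose_self (by norm_num) (by omega)
  have hom : om x ^ p = 1 + p * ε := by
    have h1 := one_add_pow hε4 p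
    rw [hε, add_sub_cancel, ← hε, hc2, hc3] at h1
    have h3 : ε ^ 3 = p * (algebraMap _ _ e * om x) * ε := by
      rw [← hε2]; ring
    rw [h1, h3, hε2]
    push_cast
    linear_combination (c2 * (algebraMap _ _ e * om x) +
      c3 * (algebraMap _ _ e * om x) * ε) * hPP
  obtain ⟨Y, Z, hYZ, hth⟩ := rot_iter x y z (p * J)
  have hmem := iter_rot_mem_vorb (x, y, z) (p * K)
  have hpJ : 2 * (p * K) = p * J := by
    rw [hJK]
    ring
  rw [hpJ, hYZ] at hmem
  rw [pow_mul, hom, one_add_p_pow hPP] at hth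
  have hre := congrArg QuadraticAlgebra.re hth
  have him := congrArg QuadraticAlgebra.im hth
  simp only [th, hε, om, QuadraticAlgebra.re_mul, QuadraticAlgebra.im_mul,
    QuadraticAlgebra.re_add, QuadraticAlgebra.im_add, QuadraticAlgebra.re_one,
    QuadraticAlgebra.im_one, QuadraticAlgebra.re_natCast, QuadraticAlgebra.im_natCast,
    QuadraticAlgebra.re_sub, QuadraticAlgebra.im_sub] at hre him
  have e1 : (p : ZMod (p ^ 2)) * (dy - J * (z - y)) = 0 := by
    rw [p_mul_eq_zero_iff]
    simp only [map_sub, map_mul, map_natCast]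
    linear_combination -hJ'
  have e2 : (p : ZMod (p ^ 2)) * (dz - J * (z - y)) = 0 := by
    rw [p_mul_eq_zero_iff]
    simp only [map_sub, map_mul, map_natCast]
    linear_combination -hJ' - hd
  have hY : Y = y + (p : ZMod (p ^ 2)) * dy := by
    linear_combination him - e1
  have hZ : Z = z + (p : ZMod (p ^ 2)) * dz := by
    linear_combination hre + x * him + J * z * hpx - e2
  rw [hY, hZ] at hmem
  exact hmem

/-- `x ≡ ±2` or `x` is not fixed by `x ↦ dk x 1 p`. -/
def Good (x : ZMod (p ^ 2)) : Prop := red p x ^ 2 = 4 ∨ dk x 1 p ≠ x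

theorem line (hp : 5 ≤ p) {D x y z y' z' : ZMod (p ^ 2)} (hD : red p D ≠ 4)
    (h : OnX D (x, y, z)) (h' : OnX D (x, y', z')) (hy : red p y' = red p y)
    (hz : red p z' = red p z) (hx : Good x)
    (hg : red p (2 * y - x * z) ≠ 0 ∨ red p (2 * z - x * y) ≠ 0) :
    (x, y', z') ∈ vorb (x, y, z) := by
  obtain ⟨dy, hdy⟩ := (red_eq_red_iff y' y).1 hy
  obtain ⟨dz, hdz⟩ := (red_eq_red_iff z' z).1 hz
  have hy' : y' = y + (p : ZMod (p ^ 2)) * dy := by linear_combination hdy
  have hz' : z' = z + (p : ZMod (p ^ 2)) * dz := by linear_combination hdz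
  subst hy' hz'
  by_cases hx4 : red p x ^ 2 = 4
  · have h2 : (red p x - 2) * (red p x + 2) = 0 := by linear_combination hx4
    rcases mul_eq_zero.1 h2 with h3 | h3
    · exact line_parabolic hp h h' (by linear_combination h3) hD
    · have h4 : OnX D (-x, -y, z) := by
        simp only [OnX] at h ⊢
        linear_combination h
      have h5 : OnX D (-x, -y + (p : ZMod (p ^ 2)) * (-dy), z + (p : ZMod (p ^ 2)) * dz) := by
        simp only [OnX] at h' ⊢
        linear_combination h'
      have h6 := line_parabolic hp h4 h5 (by rw [map_neg]; linear_combination -h3) hD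
      have h7 := vorb_ngxy h6
      simp only [ngxy, neg_neg] at h7
      convert h7 using 4
      ring
  · exact line_generic hp h h' hx4 (hx.resolve_left hx4) hg

theorem line2 (hp : 5 ≤ p) {D x y z x' z' : ZMod (p ^ 2)} (hD : red p D ≠ 4)
    (h : OnX D (x, y, z)) (h' : OnX D (x', y, z')) (hx : red p x' = red p x)
    (hz : red p z' = red p z) (hy : Good y)
    (hg : red p (2 * x - y * z) ≠ 0 ∨ red p (2 * z - x * y) ≠ 0) :
    (x', y, z') ∈ vorb (x, y, z) := by
  have h1 : OnX D (y, x, z) := by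
    simp only [OnX] at h ⊢
    linear_combination h
  have h2 : OnX D (y, x', z') := by
    simp only [OnX] at h' ⊢
    linear_combination h'
  have h3 : (y, x', z') ∈ vorb (y, x, z) := by
    refine line hp hD h1 h2 hx hz hy ?_
    rcases hg with hg | hg
    · exact Or.inl hg
    · exact Or.inr (by rwa [mul_comm y x])
  exact vorb_swxy h3

theorem line3 (hp : 5 ≤ p) {D x y z x' y' : ZMod (p ^ 2)} (hD : red p D ≠ 4)
    (h : OnX D (x, y, z)) (h' : OnX D (x', y', z)) (hx : red p x' = red p x)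
    (hy : red p y' = red p y) (hz : Good z)
    (hg : red p (2 * x - y * z) ≠ 0 ∨ red p (2 * y - x * z) ≠ 0) :
    (x', y', z) ∈ vorb (x, y, z) := by
  have h1 : OnX D (z, y, x) := by
    simp only [OnX] at h ⊢
    linear_combination h
  have h2 : OnX D (z, y', x') := by
    simp only [OnX] at h' ⊢
    linear_combination h'
  have h3 : (z, y', x') ∈ vorb (z, y, x) := by
    refine line hp hD h1 h2 hy hx hz ?_
    rcases hg with hg | hg
    · exact Or.inr (by rwa [mul_comm z y])
    · exact Or.inl (by rwa [mul_comm z x])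
  exact vorb_swxz h3

end Pool.Agent.Work.MP_60c97f_nt
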