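import Pool.Agent.Work.MP_60c97f_nt.Defs

/-!
# Basic properties of the orbits
-/

set_option autoImplicit false

namespace Pool.Agent.Work.MP_60c97f_nt

section basic

variable {R : Type} [CommRing R]

theorem Step.symm {P Q : R × R × R} (h : Step P Q) : Step Q P := by
  cases h with
  | vx =>
    have h := Step.vx (sx P)
    have e : sx (sx P) = P := by simp [sx]
    rwa [e] at h
  | vy =>
    have h := Step.vy (sy P)
    have e : sy (sy P) = P := by simp [sy]
    rwa [e] at h
  | vz =>
    have h := Step.vz (sz P)
    have e : sz (sz P) = P := by simp [sz]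
    rwa [e] at h
  | txy x y z => exact Step.txy y x z
  | txz x y z => exact Step.txz z y x
  | tyz x y z => exact Step.tyz x z y
  | nxy x y z => simpa using Step.nxy (-x) (-y) z
  | nxz x y z => simpa using Step.nxz (-x) y (-z)
  | nyz x y z => simpa using Step.nyz x (-y) (-z)

theorem mem_orb_self (P : R × R × R) : P ∈ orb P := Relation.ReflTransGen.refl

theorem orb_trans {P Q T : R × R × R} (h : Q ∈ orb P) (h' : T ∈ orb Q) : T ∈ orb P :=
  Relation.ReflTransGen.trans h h'

theorem orb_symm {P Q : R × R × R} (h : Q ∈ orb P) : P ∈ orb Q := by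
  have h' : Relation.ReflTransGen Step P Q := h
  clear h
  show Relation.ReflTransGen Step Q P
  induction h' with
  | refl => exact Relation.ReflTransGen.refl
  | tail _ hs ih => exact (Relation.ReflTransGen.single hs.symm).trans ih

theorem orb_step {P Q T : R × R × R} (h : Q ∈ orb P) (hs : Step Q T) : T ∈ orb P :=
  Relation.ReflTransGen.tail h hs

theorem orb_eq_of_mem {P Q : R × R × R} (h : Q ∈ orb P) : orb Q = orb P :=
  Set.Subset.antisymm (fun _ hT => orb_trans h hT) fun _ hT => orb_trans (orb_symm h) hT

theorem orb_stable (P : R × R × R) : Stable (orb P) := fun Q hQ =>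
  ⟨orb_step hQ (Step.vx Q), orb_step hQ (Step.vy Q), orb_step hQ (Step.vz Q)⟩

theorem Step.onX {D : R} {P Q : R × R × R} (h : Step P Q) (hP : OnX D P) : OnX D Q := by
  cases h <;> simp only [OnX, sx, sy, sz] at hP ⊢ <;> linear_combination hP

theorem orb_onX {D : R} {P Q : R × R × R} (h : Q ∈ orb P) (hP : OnX D P) : OnX D Q := by
  have h' : Relation.ReflTransGen Step P Q := h
  clear h
  induction h' with
  | refl => exact hP
  | tail _ hs ih => exact hs.onX ih

end basic

section loc

variable {R : Type} [CommRing R] [IsLocalRing R]

private theorem nu_add {a b : R} (c : R) (h : ¬ IsUnit (b + c * a)) (ha : ¬ IsUnit a) :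
    ¬ IsUnit b := by
  intro hb
  have h1 : b = (b + c * a) + (-(c * a)) := by ring
  have h2 : ¬ IsUnit (-(c * a)) := by
    rw [IsUnit.neg_iff]
    exact fun h => ha (isUnit_of_mul_isUnit_right h)
  rw [h1] at hb
  rcases IsLocalRing.isUnit_or_isUnit_of_isUnit_add hb with h3 | h3
  · exact h h3
  · exact h2 h3

theorem Step.smooth {P Q : R × R × R} (h : Step P Q) (hP : Smooth P) : Smooth Q := by
  cases h with
  | vx =>
    obtain ⟨x, y, z⟩ := P
    by_contra hn
    simp only [Smooth, sx, not_or] at hn hP
    obtain ⟨h1, h2, h3⟩ := hn
    have h1' : ¬ IsUnit (2 * x - y * z) := by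
      rw [← IsUnit.neg_iff]
      convert h1 using 2
      ring
    have h2' : ¬ IsUnit (2 * y - x * z) := by
      refine nu_add (a := 2 * x - y * z) z ?_ h1'
      convert h2 using 2
      ring
    have h3' : ¬ IsUnit (2 * z - x * y) := by
      refine nu_add (a := 2 * x - y * z) y ?_ h1'
      convert h3 using 2
      ring
    rcases hP with h | h | h
    · exact h1' h
    · exact h2' h
    · exact h3' h
  | vy =>
    obtain ⟨x, y, z⟩ := P
    by_contra hn
    simp only [Smooth, sy, not_or] at hn hP
    obtain ⟨h2, h1, h3⟩ := hn
    have h1' : ¬ IsUnit (2 * y - x * z) := by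
      rw [← IsUnit.neg_iff]
      convert h1 using 2
      ring
    have h2' : ¬ IsUnit (2 * x - y * z) := by
      refine nu_add (a := 2 * y - x * z) z ?_ h1'
      convert h2 using 2
      ring
    have h3' : ¬ IsUnit (2 * z - x * y) := by
      refine nu_add (a := 2 * y - x * z) x ?_ h1'
      convert h3 using 2
      ring
    rcases hP with h | h | h
    · exact h2' h
    · exact h1' h
    · exact h3' h
  | vz =>
    obtain ⟨x, y, z⟩ := P
    by_contra hn
    simp only [Smooth, sz, not_or] at hn hP
    obtain ⟨h2, h3, h1⟩ := hn
    have h1' : ¬ IsUnit (2 * z - x * y) := by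
      rw [← IsUnit.neg_iff]
      convert h1 using 2
      ring
    have h2' : ¬ IsUnit (2 * x - y * z) := by
      refine nu_add (a := 2 * z - x * y) y ?_ h1'
      convert h2 using 2
      ring
    have h3' : ¬ IsUnit (2 * y - x * z) := by
      refine nu_add (a := 2 * z - x * y) x ?_ h1'
      convert h3 using 2
      ring
    rcases hP with h | h | h
    · exact h2' h
    · exact h3' h
    · exact h1' h
  | txy x y z =>
    rcases hP with h | h | h
    · exact Or.inr (Or.inl h)
    · exact Or.inl h
    · exact Or.inr (Or.inr (by convert h using 1; ring))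
  | txz x y z =>
    rcases hP with h | h | h
    · exact Or.inr (Or.inr (by convert h using 1; ring))
    · exact Or.inr (Or.inl (by convert h using 1; ring))
    · exact Or.inl (by convert h using 1; ring)
  | tyz x y z =>
    rcases hP with h | h | h
    · exact Or.inl (by convert h using 1; ring)
    · exact Or.inr (Or.inr h)
    · exact Or.inr (Or.inl h)
  | nxy x y z =>
    rcases hP with h | h | h
    · exact Or.inl (by convert h.neg using 1; ring)
    · exact Or.inr (Or.inl (by convert h.neg using 1; ring))
    · exact Or.inr (Or.inr (by convert h using 1; ring))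
  | nxz x y z =>
    rcases hP with h | h | h
    · exact Or.inl (by convert h.neg using 1; ring)
    · exact Or.inr (Or.inl (by convert h using 1; ring))
    · exact Or.inr (Or.inr (by convert h.neg using 1; ring))
  | nyz x y z =>
    rcases hP with h | h | h
    · exact Or.inl (by convert h using 1; ring)
    · exact Or.inr (Or.inl (by convert h.neg using 1; ring))
    · exact Or.inr (Or.inr (by convert h.neg using 1; ring))

theorem orb_subset_XStar {D : R} {P : R × R × R} (hP : P ∈ XStar D) : orb P ⊆ XStar D := by
  intro Q h
  have h' : Relation.ReflTransGen Step P Q := h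
  clear h
  induction h' with
  | refl => exact hP
  | tail _ hs ih => exact ⟨hs.onX ih.1, hs.smooth ih.2⟩

end loc

end Pool.Agent.Work.MP_60c97f_nt
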