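import Pool.Agent.Work.MP_60c97f_nt.Card
import Pool.Agent.Work.MP_60c97f_nt.Orb

/-!
# `Z/p²` is a local ring
-/

set_option autoImplicit false

namespace Pool.Agent.Work.MP_60c97f_nt

theorem isLocalRing_zmod_sq (p : ℕ) [Fact p.Prime] : IsLocalRing (ZMod (p ^ 2)) := by
  have hp : p.Prime := Fact.out
  have : Nontrivial (ZMod (p ^ 2)) := by
    have : Fact (1 < p ^ 2) := ⟨Nat.one_lt_pow two_ne_zero hp.one_lt⟩
    exact ZMod.nontrivial _
  refine IsLocalRing.of_isUnit_or_isUnit_one_sub_self fun a => ?_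
  rw [isUnit_iff_red, isUnit_iff_red]
  by_contra h
  push Not at h
  have h1 := h.2
  rw [map_sub, map_one, h.1, sub_zero] at h1
  exact one_ne_zero h1

theorem orb_subset {p : ℕ} [Fact p.Prime] {D : ZMod (p ^ 2)}
    {P : ZMod (p ^ 2) × ZMod (p ^ 2) × ZMod (p ^ 2)} (hP : P ∈ XStar D) : orb P ⊆ XStar D := by
  have := isLocalRing_zmod_sq p
  exact orb_subset_XStar hP

end Pool.Agent.Work.MP_60c97f_nt
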