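import Pool.Agent.Work.MP_60c97f_nt.Defs

/-!
# The product identity

Let `q² = (2 - D) q - 1` in an `R`-algebra `S` and `O` a finite set of points of `X_D` stable under the Vieta
involutions such that `x² - D`, `y² - D`, `z² - D` are units at every point of `O`. Then `q ^ |O| = 1`.
With `f(x,y|z) = x y + (q - 1) z` one has on `X_D`
`f(x,y|z) f(x,y|x y - z) = q (x² - D)(y² - D)` and
`f(x,y|z) f(y,z|x) f(z,x|y) = q (x² - D)(y² - D)(z² - D)`; take the products over `O`.
-/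

set_option autoImplicit false

namespace Pool.Agent.Work.MP_60c97f_nt

variable {S : Type} [CommRing S]

private theorem id_two {X Y Z D q : S} (hD : X ^ 2 + Y ^ 2 + Z ^ 2 = X * Y * Z + D)
    (hq : q ^ 2 = (2 - D) * q - 1) :
    (X * Y + (q - 1) * Z) * (X * Y + (q - 1) * (X * Y - Z)) = q * ((X ^ 2 - D) * (Y ^ 2 - D)) := by
  linear_combination (Z * (X * Y - Z)) * hq + (q * D) * hD

private theorem id_three {X Y Z D q : S} (hD : X ^ 2 + Y ^ 2 + Z ^ 2 = X * Y * Z + D)
    (hq : q ^ 2 = (2 - D) * q - 1) :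
    (X * Y + (q - 1) * Z) * (Y * Z + (q - 1) * X) * (Z * X + (q - 1) * Y) =
      q * ((X ^ 2 - D) * (Y ^ 2 - D) * (Z ^ 2 - D)) := by
  linear_combination (X ^ 2 * Y ^ 2 + Y ^ 2 * Z ^ 2 + Z ^ 2 * X ^ 2 + (q - 1) * (X * Y * Z) -
    (X * Y * Z) * D) * hq + ((q - 1) * (X * Y * Z) - q * D ^ 2) * hD

theorem pow_card_eq_one {R S : Type} [CommRing R] [CommRing S] (φ : R →+* S) (D : R) (q : S)
    (hq : q ^ 2 = (2 - φ D) * q - 1) (O : Finset (R × R × R)) (hX : ∀ P ∈ O, OnX D P)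
    (hO : Stable (O : Set (R × R × R)))
    (hu : ∀ P ∈ O, IsUnit (P.1 ^ 2 - D) ∧ IsUnit (P.2.1 ^ 2 - D) ∧ IsUnit (P.2.2 ^ 2 - D)) :
    q ^ O.card = 1 := by
  have hD : ∀ P ∈ O, φ P.1 ^ 2 + φ P.2.1 ^ 2 + φ P.2.2 ^ 2 = φ P.1 * φ P.2.1 * φ P.2.2 + φ D := by
    intro P hP
    have := congrArg φ (hX P hP)
    simpa using this
  have hqu : IsUnit q := IsUnit.of_mul_eq_one (2 - φ D - q) (by linear_combination -hq)
  set F1 : S := ∏ P ∈ O, (φ P.1 * φ P.2.1 + (q - 1) * φ P.2.2) with hF1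
  set F2 : S := ∏ P ∈ O, (φ P.2.1 * φ P.2.2 + (q - 1) * φ P.1) with hF2
  set F3 : S := ∏ P ∈ O, (φ P.2.2 * φ P.1 + (q - 1) * φ P.2.1) with hF3
  set A : S := ∏ P ∈ O, (φ P.1 ^ 2 - φ D) with hA
  set B : S := ∏ P ∈ O, (φ P.2.1 ^ 2 - φ D) with hB
  set C : S := ∏ P ∈ O, (φ P.2.2 ^ 2 - φ D) with hC
  have hAu : IsUnit A := by
    refine Finset.prod_induction _ IsUnit (fun a b ha hb => ha.mul hb) isUnit_one fun P hP => ?_
    have := (hu P hP).1.map φ
    rwa [map_sub, map_pow] at this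
  have hBu : IsUnit B := by
    refine Finset.prod_induction _ IsUnit (fun a b ha hb => ha.mul hb) isUnit_one fun P hP => ?_
    have := (hu P hP).2.1.map φ
    rwa [map_sub, map_pow] at this
  have hCu : IsUnit C := by
    refine Finset.prod_induction _ IsUnit (fun a b ha hb => ha.mul hb) isUnit_one fun P hP => ?_
    have := (hu P hP).2.2.map φ
    rwa [map_sub, map_pow] at this
  have e1 : F1 * F1 = q ^ O.card * (A * B) := by
    have h1 : F1 = ∏ P ∈ O, (φ P.1 * φ P.2.1 + (q - 1) * (φ P.1 * φ P.2.1 - φ P.2.2)) := by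
      rw [hF1]
      refine Finset.prod_nbij' sz sz (fun P hP => (hO P hP).2.2) (fun P hP => (hO P hP).2.2)
        (fun P _ => ?_) (fun P _ => ?_) (fun P _ => ?_)
      · simp [sz]
      · simp [sz]
      · simp [sz]
    rw [h1]
    nth_rewrite 1 [← h1]
    rw [hF1, ← Finset.prod_mul_distrib, hA, hB, ← Finset.prod_mul_distrib, ← Finset.prod_const,
      ← Finset.prod_mul_distrib]
    exact Finset.prod_congr rfl fun P hP => id_two (hD P hP) hq
  have e2 : F2 * F2 = q ^ O.card * (B * C) := by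
    have h1 : F2 = ∏ P ∈ O, (φ P.2.1 * φ P.2.2 + (q - 1) * (φ P.2.1 * φ P.2.2 - φ P.1)) := by
      rw [hF2]
      refine Finset.prod_nbij' sx sx (fun P hP => (hO P hP).1) (fun P hP => (hO P hP).1)
        (fun P _ => ?_) (fun P _ => ?_) (fun P _ => ?_)
      · simp [sx]
      · simp [sx]
      · simp [sx]
    rw [h1]
    nth_rewrite 1 [← h1]
    rw [hF2, ← Finset.prod_mul_distrib, hB, hC, ← Finset.prod_mul_distrib, ← Finset.prod_const,
      ← Finset.prod_mul_distrib]
    exact Finset.prod_congr rfl fun P hP => id_two (by linear_combination hD P hP) hq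
  have e3 : F3 * F3 = q ^ O.card * (C * A) := by
    have h1 : F3 = ∏ P ∈ O, (φ P.2.2 * φ P.1 + (q - 1) * (φ P.2.2 * φ P.1 - φ P.2.1)) := by
      rw [hF3]
      refine Finset.prod_nbij' sy sy (fun P hP => (hO P hP).2.1) (fun P hP => (hO P hP).2.1)
        (fun P _ => ?_) (fun P _ => ?_) (fun P _ => ?_)
      · simp [sy]
      · simp [sy]
      · simp [sy, mul_comm]
    rw [h1]
    nth_rewrite 1 [← h1]
    rw [hF3, ← Finset.prod_mul_distrib, hC, hA, ← Finset.prod_mul_distrib, ← Finset.prod_const,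
      ← Finset.prod_mul_distrib]
    exact Finset.prod_congr rfl fun P hP => id_two (by linear_combination hD P hP) hq
  have e4 : F1 * F2 * F3 = q ^ O.card * (A * B * C) := by
    rw [hF1, hF2, hF3, hA, hB, hC, ← Finset.prod_mul_distrib, ← Finset.prod_mul_distrib,
      ← Finset.prod_mul_distrib, ← Finset.prod_mul_distrib, ← Finset.prod_const,
      ← Finset.prod_mul_distrib]
    exact Finset.prod_congr rfl fun P hP => id_three (hD P hP) hq
  have e5 : (q ^ O.card * (A * B * C)) ^ 2 * q ^ O.card = (q ^ O.card * (A * B * C)) ^ 2 := by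
    have : (F1 * F2 * F3) ^ 2 = (F1 * F1) * (F2 * F2) * (F3 * F3) := by ring
    rw [e1, e2, e3, e4] at this
    linear_combination -this
  have hunit : IsUnit ((q ^ O.card * (A * B * C)) ^ 2) :=
    ((hqu.pow _).mul ((hAu.mul hBu).mul hCu)).pow 2
  exact hunit.mul_left_cancel (by rw [e5, mul_one])

end Pool.Agent.Work.MP_60c97f_nt
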