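import Pool.Agent.Work.MP_60c97f_nt.Fin

/-!
# The number of points in bad orbits
-/

set_option autoImplicit false

namespace Pool.Agent.Work.MP_60c97f_nt

variable {p : ℕ}

private theorem full_map {D : ZMod (p ^ 2)}
    {f : ZMod (p ^ 2) × ZMod (p ^ 2) × ZMod (p ^ 2) → ZMod (p ^ 2) × ZMod (p ^ 2) × ZMod (p ^ 2)}
    (hff : ∀ P, f (f P) = P) (hv : ∀ P Q, Q ∈ vorb P → f Q ∈ vorb (f P))
    (hX : ∀ P, OnX D P → OnX D (f P)) (hr : ∀ P Q, redP P = redP Q → redP (f P) = redP (f Q))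
    {P : ZMod (p ^ 2) × ZMod (p ^ 2) × ZMod (p ^ 2)} (h : Full D P) : Full D (f P) := by
  rintro Q hQ ⟨Q₁, hQ₁, hred⟩
  have h1 := hv _ _ hQ₁
  rw [hff] at h1
  have h2 := h (f Q) (hX Q hQ) ⟨f Q₁, h1, hr _ _ hred⟩
  have h3 := hv _ _ h2
  rwa [hff] at h3

private theorem full_swxy {D : ZMod (p ^ 2)} {P : ZMod (p ^ 2) × ZMod (p ^ 2) × ZMod (p ^ 2)}
    (h : Full D P) : Full D (swxy P) := by
  refine full_map (f := swxy) (fun P => rfl) (fun P Q => vorb_swxy) (fun P hP => ?_)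
    (fun P Q hr => ?_) h
  · simp only [OnX, swxy] at hP ⊢
    linear_combination hP
  · simp only [redP, Prod.mk.injEq, swxy] at hr ⊢
    exact ⟨hr.2.1, hr.1, hr.2.2⟩

private theorem full_swxz {D : ZMod (p ^ 2)} {P : ZMod (p ^ 2) × ZMod (p ^ 2) × ZMod (p ^ 2)}
    (h : Full D P) : Full D (swxz P) := by
  refine full_map (f := swxz) (fun P => rfl) (fun P Q => vorb_swxz) (fun P hP => ?_)
    (fun P Q hr => ?_) h
  · simp only [OnX, swxz] at hP ⊢
    linear_combination hP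
  · simp only [redP, Prod.mk.injEq, swxz] at hr ⊢
    exact ⟨hr.2.2, hr.2.1, hr.1⟩

private theorem full_swyz {D : ZMod (p ^ 2)} {P : ZMod (p ^ 2) × ZMod (p ^ 2) × ZMod (p ^ 2)}
    (h : Full D P) : Full D (swyz P) := by
  refine full_map (f := swyz) (fun P => rfl) (fun P Q => vorb_swyz) (fun P hP => ?_)
    (fun P Q hr => ?_) h
  · simp only [OnX, swyz] at hP ⊢
    linear_combination hP
  · simp only [redP, Prod.mk.injEq, swyz] at hr ⊢
    exact ⟨hr.1, hr.2.2, hr.2.1⟩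

private theorem full_ngxy {D : ZMod (p ^ 2)} {P : ZMod (p ^ 2) × ZMod (p ^ 2) × ZMod (p ^ 2)}
    (h : Full D P) : Full D (ngxy P) := by
  refine full_map (f := ngxy) (fun P => by simp [ngxy]) (fun P Q => vorb_ngxy) (fun P hP => ?_)
    (fun P Q hr => ?_) h
  · simp only [OnX, ngxy] at hP ⊢
    linear_combination hP
  · simp only [redP, Prod.mk.injEq, ngxy, map_neg, neg_inj] at hr ⊢
    exact hr

private theorem full_vorb {D : ZMod (p ^ 2)} {P Q : ZMod (p ^ 2) × ZMod (p ^ 2) × ZMod (p ^ 2)}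
    (h : Full D P) (hQ : Q ∈ vorb P) : Full D Q := by
  rw [Full, vorb_eq_of_mem hQ]
  exact h

theorem full_step {D : ZMod (p ^ 2)} {P Q : ZMod (p ^ 2) × ZMod (p ^ 2) × ZMod (p ^ 2)}
    (h : Full D P) (hs : Step P Q) : Full D Q := by
  cases hs with
  | vx => exact full_vorb h (vorb_step (mem_vorb_self _) (VStep.vx P))
  | vy => exact full_vorb h (vorb_step (mem_vorb_self _) (VStep.vy P))
  | vz => exact full_vorb h (vorb_step (mem_vorb_self _) (VStep.vz P))
  | txy x y z => exact full_swxy h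
  | txz x y z => exact full_swxz h
  | tyz x y z => exact full_swyz h
  | nxy x y z => exact full_ngxy h
  | nxz x y z => exact full_swyz (full_ngxy (full_swyz h))
  | nyz x y z => exact full_swxz (full_ngxy (full_swxz h))

theorem full_orb {D : ZMod (p ^ 2)} {P Q : ZMod (p ^ 2) × ZMod (p ^ 2) × ZMod (p ^ 2)}
    (h : Full D P) (hQ : Q ∈ orb P) : Full D Q := by
  have h' : Relation.ReflTransGen Step P Q := hQ
  clear hQ
  induction h' with
  | refl => exact h
  | tail _ hs ih => exact full_step ih hs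

variable [Fact p.Prime]

theorem sq_dvd_orb_of_full {D : ZMod (p ^ 2)}
    {P : ZMod (p ^ 2) × ZMod (p ^ 2) × ZMod (p ^ 2)} (hP : P ∈ XStar D) (h : Full D P) :
    p ^ 2 ∣ (orb P).ncard := by
  refine dvd_ncard_of_stable (X := orb P) (fun Q hQ => ?_) (orb P) (orb_stable P) le_rfl
  rw [vorb_eq_pre_of_full (orb_subset hP hQ) (full_orb h hQ), ncard_pre (orb_subset hP hQ)]
  exact dvd_mul_right _ _

theorem card_bad_points (hp : 5 ≤ p) {D : ZMod (p ^ 2)} (hD : ¬ IsSquare (red p D)) :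
    {P ∈ XStar D | ¬ p ^ 2 ∣ (orb P).ncard}.ncard ≤
      p ^ 2 * (220000 * (p ^ 2 - 1).divisors.card ^ 2 * p) := by
  classical
  have hpp : p.Prime := Fact.out
  have hp2 : p ≠ 2 := by omega
  have : NeZero p := ⟨hpp.ne_zero⟩
  have : NeZero (p ^ 2) := ⟨pow_ne_zero 2 hpp.ne_zero⟩
  have hfin : {P ∈ XStar D | ¬ p ^ 2 ∣ (orb P).ncard}.Finite := Set.toFinite _
  have hfinS : (SmallPt (red p D)).Finite := Set.toFinite _
  rw [Set.ncard_eq_toFinset_card _ hfin]
  refine (Finset.card_le_mul_card_image (f := redP) hfin.toFinset (p ^ 2) ?_).trans ?_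
  · intro r hr
    obtain ⟨P, hP, rfl⟩ := Finset.mem_image.1 hr
    rw [Set.Finite.mem_toFinset] at hP
    refine le_trans ?_ (fib_ncard hP.1).le
    rw [← Set.ncard_coe_finset]
    refine Set.ncard_le_ncard ?_ (Set.toFinite _)
    intro Q hQ
    rw [Finset.mem_coe, Finset.mem_filter, Set.Finite.mem_toFinset] at hQ
    exact ⟨hQ.1.1.1, hQ.2⟩
  · refine Nat.mul_le_mul_left _ (le_trans ?_ (card_smallPt hp2 (red p D)))
    rw [Set.ncard_eq_toFinset_card _ hfinS]
    refine Finset.card_le_card fun r hr => ?_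
    obtain ⟨P, hP, rfl⟩ := Finset.mem_image.1 hr
    rw [Set.Finite.mem_toFinset] at hP ⊢
    exact redP_mem_smallPt hp hD hP.1 (fun h => hP.2 (sq_dvd_orb_of_full hP.1 h))
      (mem_vorb_self P)

end Pool.Agent.Work.MP_60c97f_nt
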