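import Pool.Agent.Work.MP_60c97f_nt.VOrb

/-!
# Rotations as multiplications by `ω`, `ω² = x ω - 1`
-/

set_option autoImplicit false

namespace Pool.Agent.Work.MP_60c97f_nt

section gen

variable {R : Type} [CommRing R]

/-- The rotation `(x, y, z) ↦ (x, z, x z - y)`. -/
def rot (P : R × R × R) : R × R × R := (P.1, P.2.2, P.1 * P.2.2 - P.2.1)

theorem rot_rot (P : R × R × R) : rot (rot P) = sz (sy P) := by
  simp [rot, sz, sy]

theorem iter_rot_mem_vorb (P : R × R × R) (n : ℕ) : rot^[2 * n] P ∈ vorb P := by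
  induction n with
  | zero => exact mem_vorb_self P
  | succ n ih =>
    have h : rot^[2 * (n + 1)] P = rot (rot (rot^[2 * n] P)) := by
      rw [mul_add, mul_one, Function.iterate_succ_apply', Function.iterate_succ_apply']
    rw [h, rot_rot]
    exact vorb_step (vorb_step ih (VStep.vy _)) (VStep.vz _)

/-- `ω` -/
def om (x : R) : QuadraticAlgebra R (-1) x := ⟨0, 1⟩

/-- `θ = z - x y + y ω` -/
def th (x y z : R) : QuadraticAlgebra R (-1) x := ⟨z - x * y, y⟩

theorem om_mul_th (x y z : R) : om x * th x y z = th x z (x * z - y) := by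
  ext
  · simp [om, th]
  · simp [om, th]

theorem th_inj {x y z y' z' : R} (h : th x y z = th x y' z') : y = y' ∧ z = z' := by
  have h1 := congrArg QuadraticAlgebra.im h
  have h2 := congrArg QuadraticAlgebra.re h
  simp only [th] at h1 h2
  subst h1
  exact ⟨rfl, by linear_combination h2⟩

theorem rot_iter (x y z : R) (n : ℕ) :
    ∃ Y Z, rot^[n] (x, y, z) = (x, Y, Z) ∧ th x Y Z = om x ^ n * th x y z := by
  induction n with
  | zero => exact ⟨y, z, rfl, by simp⟩
  | succ n ih =>
    obtain ⟨Y, Z, h1, h2⟩ := ih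
    refine ⟨Z, x * Z - Y, ?_, ?_⟩
    · rw [Function.iterate_succ_apply', h1, rot]
    · rw [pow_succ', mul_assoc, ← h2, om_mul_th]

theorem om_pow_succ_re (x : R) (n : ℕ) : (om x ^ (n + 1)).re = -(om x ^ n).im := by
  rw [pow_succ]
  simp [om]

theorem om_pow_succ_im (x : R) (n : ℕ) :
    (om x ^ (n + 1)).im = (om x ^ n).re + x * (om x ^ n).im := by
  rw [pow_succ]
  simp [om]

/-- norm of the powers of `ω` -/
theorem norm_om_pow (x : R) (n : ℕ) :
    (om x ^ n).re ^ 2 + x * (om x ^ n).re * (om x ^ n).im + (om x ^ n).im ^ 2 = 1 := by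
  induction n with
  | zero => simp [QuadraticAlgebra.re_one, QuadraticAlgebra.im_one]
  | succ n ih =>
    rw [om_pow_succ_re, om_pow_succ_im]
    linear_combination ih

theorem om_mul_conj (x : R) :
    om x * (algebraMap R (QuadraticAlgebra R (-1) x) x - om x) = 1 := by
  rw [QuadraticAlgebra.algebraMap_eq]
  ext
  · simp [om, QuadraticAlgebra.re_one]
  · simp [om, QuadraticAlgebra.im_one]

/-- trace of the powers of `ω` -/
theorem trace_om_pow (x : R) (n : ℕ) :
    2 * (om x ^ n).re + x * (om x ^ n).im = dk x 1 n := by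
  induction n using Nat.twoStepInduction with
  | zero => simp [dk, QuadraticAlgebra.re_one, QuadraticAlgebra.im_one]
  | one => simp [dk, om]
  | more n h1 h2 =>
    rw [dk, ← h1, ← h2]
    simp only [om_pow_succ_re, om_pow_succ_im]
    ring

theorem map_om_pow {R' : Type} [CommRing R'] (f : R →+* R') (x : R) (n : ℕ) :
    f (om x ^ n).re = (om (f x) ^ n).re ∧ f (om x ^ n).im = (om (f x) ^ n).im := by
  induction n with
  | zero => simp [QuadraticAlgebra.re_one, QuadraticAlgebra.im_one]
  | succ n ih =>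
    rw [om_pow_succ_re, om_pow_succ_im, om_pow_succ_re, om_pow_succ_im, map_neg, map_add, map_mul,
      ih.1, ih.2]
    exact ⟨rfl, rfl⟩

end gen

section field

variable {p : ℕ} [Fact p.Prime]

theorem two_ne_zero' (hp : p ≠ 2) : (2 : ZMod p) ≠ 0 := by
  have hpp : p.Prime := Fact.out
  intro h
  have h1 : ((2 : ℕ) : ZMod p) = 0 := by exact_mod_cast h
  rw [ZMod.natCast_eq_zero_iff] at h1
  exact hp ((Nat.prime_dvd_prime_iff_eq hpp Nat.prime_two).1 h1)

theorem om_pow_p (hp : p ≠ 2) {x : ZMod p} (hx : x ^ 2 ≠ 4) :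
    om x ^ p = om x ∨ om x ^ p = algebraMap (ZMod p) (QuadraticAlgebra (ZMod p) (-1) x) x - om x := by
  have h2 := two_ne_zero' hp
  have htr := trace_om_pow x p
  have hn := norm_om_pow x p
  rw [dk_charP p, ZMod.pow_card] at htr
  set u := (om x ^ p).re with hu
  set v := (om x ^ p).im with hv
  have h4 : (4 - x ^ 2) * ((v - 1) * (v + 1)) = 0 := by
    linear_combination 4 * hn - (2 * u + x * v + x) * htr
  have h5 : (4 - x ^ 2) ≠ 0 := fun h => hx (by linear_combination -h)
  rcases mul_eq_zero.1 ((mul_eq_zero.1 h4).resolve_left h5) with h6 | h6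
  · left
    have hv1 : v = 1 := by linear_combination h6
    have hu0 : u = 0 := by
      have : 2 * u = 0 := by linear_combination htr - x * h6
      exact (mul_eq_zero.1 this).resolve_left h2
    ext
    · rw [← hu, hu0, om]
    · rw [← hv, hv1, om]
  · right
    have hv1 : v = -1 := by linear_combination h6
    have hu0 : u = x := by
      have : 2 * (u - x) = 0 := by linear_combination htr - x * h6
      have := (mul_eq_zero.1 this).resolve_left h2
      linear_combination this
    rw [QuadraticAlgebra.algebraMap_eq]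
    ext
    · rw [← hu, hu0]
      simp [om]
    · rw [← hv, hv1]
      simp [om]

theorem om_pow_card (hp : p ≠ 2) {x : ZMod p} (hx : x ^ 2 ≠ 4) : om x ^ (p ^ 2 - 1) = 1 := by
  have hpp : p.Prime := Fact.out
  set c := algebraMap (ZMod p) (QuadraticAlgebra (ZMod p) (-1) x) x - om x with hc
  have hoc : om x * c = 1 := om_mul_conj x
  have hco : c * om x = 1 := by rw [mul_comm]; exact hoc
  have hpow : om x ^ p ^ 2 = om x := by
    rw [pow_two, pow_mul]
    rcases om_pow_p hp hx with h | h
    · rw [h, h]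
    · rw [h]
      have h1 : c ^ p * om x ^ p = 1 := by rw [← mul_pow, hco, one_pow]
      rw [h] at h1
      calc c ^ p = c ^ p * (c * om x) := by rw [hco, mul_one]
        _ = (c ^ p * c) * om x := by ring
        _ = om x := by rw [h1, one_mul]
  have h1 : p ^ 2 = (p ^ 2 - 1) + 1 := by
    have := Nat.one_le_pow 2 p hpp.pos
    omega
  calc om x ^ (p ^ 2 - 1) = om x ^ (p ^ 2 - 1) * (om x * c) := by rw [hoc, mul_one]
    _ = om x ^ ((p ^ 2 - 1) + 1) * c := by rw [pow_succ]; ring
    _ = 1 := by rw [← h1, hpow, hoc]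

end field

end Pool.Agent.Work.MP_60c97f_nt
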