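import Pool.Agent.Work.MP_60c97f_nt.Bad
import Pool.Agent.Work.MP_60c97f_nt.Kp

/-!
# The rotation orbits in the section
-/

set_option autoImplicit false

namespace Pool.Agent.Work.MP_60c97f_nt

/-- the sequence `s (n + 2) = x s (n + 1) - s n` -/
def rs {R : Type} [CommRing R] (x y z : R) : ℕ → R
  | 0 => y
  | 1 => z
  | n + 2 => x * rs x y z (n + 1) - rs x y z n

theorem map_rs {R S : Type} [CommRing R] [CommRing S] (f : R →+* S) (x y z : R) (n : ℕ) :
    f (rs x y z n) = rs (f x) (f y) (f z) n := by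
  induction n using Nat.twoStepInduction with
  | zero => rfl
  | one => rfl
  | more n h1 h2 => simp [rs, h1, h2]

theorem rs_eq {R : Type} [CommRing R] {x y z t t' A B : R} (htt : t * t' = 1) (hx : t + t' = x)
    (h0 : A + B = y) (h1 : A * t + B * t' = z) (n : ℕ) :
    rs x y z n = A * t ^ n + B * t' ^ n := by
  induction n using Nat.twoStepInduction with
  | zero => simp [rs, h0]
  | one => simp [rs, h1]
  | more n h2 h3 =>
    rw [rs, h2, h3, ← hx]
    linear_combination (A * t ^ n + B * t' ^ n) * htt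

variable {p : ℕ} [Fact p.Prime]

/-- the rotation orbit of a point of a stable set -/
theorem rs_mem {R : Type} [CommRing R] {O : Set (R × R × R)} (hO : Stable O) {x y z : R}
    (h : (x, y, z) ∈ O) (n : ℕ) : (x, rs x y z (2 * n), rs x y z (2 * n + 1)) ∈ O := by
  induction n with
  | zero => exact h
  | succ n ih =>
    have h1 := (hO _ ((hO _ ih).2.1)).2.2
    simp only [sy, sz] at h1
    have h2 : rs x y z (2 * (n + 1)) = x * rs x y z (2 * n + 1) - rs x y z (2 * n) := rfl
    have h3 : rs x y z (2 * (n + 1) + 1) =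
        x * rs x y z (2 * (n + 1)) - rs x y z (2 * n + 1) := rfl
    rw [h3, h2]
    exact h1

/-- the logarithmic values satisfy the same recurrence -/
theorem kappa_rec {D x y z : ZMod (p ^ 2)} (h : OnX D (x, y, z)) (hx4 : red p x ^ 2 ≠ 4)
    (hx : dk x 1 p = x) (hfix : ∀ n, dk (rs x y z n) 1 p = rs x y z n) {c : ZMod p}
    (hc : (red p x ^ 2 - 4) * c = red p x ^ 2 - red p D) (n : ℕ) :
    Gv p (red p (rs x y z (n + 2))) 1 - Gv p (red p (rs x y z (n + 2))) c =
      red p x * (Gv p (red p (rs x y z (n + 1))) 1 - Gv p (red p (rs x y z (n + 1))) c) -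
        (Gv p (red p (rs x y z n)) 1 - Gv p (red p (rs x y z n)) c) := by
  have hunit : IsUnit (x ^ 2 - 4) := by
    rw [isUnit_iff_red, map_sub, map_pow, map_ofNat]
    exact sub_ne_zero.2 hx4
  obtain ⟨u, hu⟩ := hunit.exists_right_inv
  set Cc : ZMod (p ^ 2) := (x ^ 2 - D) * u with hCc
  have hredC : red p Cc = c := by
    have h1 : (red p x ^ 2 - 4) * red p u = 1 := by
      have := congrArg (red p) hu
      simpa only [map_mul, map_sub, map_pow, map_ofNat, map_one] using this
    have h2 : (red p x ^ 2 - 4) * (red p Cc - c) = 0 := by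
      rw [hCc, map_mul, map_sub, map_pow]
      linear_combination (red p x ^ 2 - red p D) * h1 - hc
    exact sub_eq_zero.1 ((mul_eq_zero.1 h2).resolve_left (sub_ne_zero.2 hx4))
  let S := QuadraticAlgebra (ZMod (p ^ 2)) (-1) x
  let φ : ZMod (p ^ 2) →+* S := algebraMap (ZMod (p ^ 2)) S
  have hinj : Function.Injective φ := QuadraticAlgebra.algebraMap_injective
  set t : S := om x with ht
  set t' : S := φ x - om x with ht'
  have htt : t * t' = 1 := om_mul_conj x
  have htx : t + t' = φ x := by rw [ht, ht']; ring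
  have hδ : (t - t') ^ 2 * φ u = 1 := by
    have h1 : (t - t') ^ 2 = φ (x ^ 2 - 4) := by
      rw [map_sub, map_pow, map_ofNat, ← htx]
      linear_combination (-4) * htt
    rw [h1, ← map_mul, hu, map_one]
  set A : S := (φ z - t' * φ y) * (t - t') * φ u with hA
  set B : S := (t * φ y - φ z) * (t - t') * φ u with hB
  have hAB0 : A + B = φ y := by
    rw [hA, hB]
    linear_combination (φ y) * hδ
  have hAB1 : A * t + B * t' = φ z := by
    rw [hA, hB]
    linear_combination (φ z) * hδ
  have hAB : A * B = φ Cc := by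
    have h1 : (φ z - t' * φ y) * (t * φ y - φ z) = φ (x ^ 2 - D) := by
      have h2 := congrArg φ h
      simp only [map_add, map_mul, map_pow] at h2
      rw [map_sub, map_pow]
      linear_combination (-(φ y) ^ 2) * htt + φ y * φ z * htx - h2
    rw [hCc, map_mul, ← h1, hA, hB]
    linear_combination ((φ z - t' * φ y) * (t * φ y - φ z) * φ u) * hδ
  have hseq : ∀ n, φ (rs x y z n) = A * t ^ n + B * t' ^ n := fun n => by
    rw [map_rs]
    exact rs_eq htt htx hAB0 hAB1 n
  have htn : ∀ n : ℕ, t ^ n * t' ^ n = 1 := fun n => by rw [← mul_pow, htt, one_pow]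
  have hV : ∀ n, φ (dk (rs x y z n) Cc p) = (A * t ^ n) ^ p + (B * t' ^ n) ^ p := by
    intro n
    rw [map_dk]
    refine dk_of_add_mul (hseq n).symm ?_ p
    linear_combination (A * B) * htn n + hAB
  have hX : φ x = t ^ p + t' ^ p := by
    have h1 := congrArg φ hx
    rw [map_dk, map_one, dk_of_add_mul htx htt] at h1
    exact h1.symm
  have hVrec : dk (rs x y z (n + 2)) Cc p =
      x * dk (rs x y z (n + 1)) Cc p - dk (rs x y z n) Cc p := by
    apply hinj
    rw [map_sub, map_mul, hV, hV, hV, hX]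
    have h1 : t ^ p * t' ^ p = 1 := htn p
    have e1 : ∀ k : ℕ, (A * t ^ k) ^ p = A ^ p * (t ^ p) ^ k := fun k => by
      rw [mul_pow, ← pow_mul, ← pow_mul, mul_comm k p]
    have e2 : ∀ k : ℕ, (B * t' ^ k) ^ p = B ^ p * (t' ^ p) ^ k := fun k => by
      rw [mul_pow, ← pow_mul, ← pow_mul, mul_comm k p]
    rw [e1, e1, e1, e2, e2, e2]
    linear_combination (-(A ^ p * (t ^ p) ^ n + B ^ p * (t' ^ p) ^ n)) * h1
  have hdiff : ∀ n, rs x y z n - dk (rs x y z n) Cc p =
      p * (Gv p (rs x y z n) 1 - Gv p (rs x y z n) Cc) := by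
    intro n
    have h1 := Gv_spec p (rs x y z n) (1 : ZMod (p ^ 2))
    have h2 := Gv_spec p (rs x y z n) Cc
    rw [hfix n] at h1
    linear_combination h1 - h2
  have hrec : rs x y z (n + 2) = x * rs x y z (n + 1) - rs x y z n := rfl
  have key : (p : ZMod (p ^ 2)) * ((Gv p (rs x y z (n + 2)) 1 - Gv p (rs x y z (n + 2)) Cc) -
      (x * (Gv p (rs x y z (n + 1)) 1 - Gv p (rs x y z (n + 1)) Cc) -
        (Gv p (rs x y z n) 1 - Gv p (rs x y z n) Cc))) = 0 := by
    linear_combination -(hdiff (n + 2)) + x * hdiff (n + 1) - hdiff n + hrec - hVrec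
  rw [p_mul_eq_zero_iff] at key
  simp only [map_sub, map_mul, map_Gv, map_one, hredC] at key
  exact sub_eq_zero.1 key

end Pool.Agent.Work.MP_60c97f_nt
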