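import Pool.Agent.Work.MP_60c97f_nt.ZeroEst

/-!
# Stepanov's method: derivatives and values
-/

set_option autoImplicit false

namespace Pool.Agent.Work.MP_60c97f_nt

open Polynomial

variable {F : Type} [Field F]

/-- the derivation `u d/dX` -/
noncomputable def dd (u : F[X]) : F[X] →ₗ[F] F[X] := (LinearMap.mulLeft F u) ∘ₗ derivative

theorem dd_apply (u f : F[X]) : dd u f = u * derivative f := rfl

theorem dd_mul (u f g : F[X]) : dd u (f * g) = dd u f * g + f * dd u g := by
  simp only [dd_apply, derivative_mul]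
  ring

theorem dd_pow_succ (u f : F[X]) (m : ℕ) : (dd u ^ (m + 1)) f = dd u ((dd u ^ m) f) := by
  rw [pow_succ', Module.End.mul_apply]

private theorem iter_aux (u g : F[X]) (c : F) (n : ℕ) : ∀ k ≤ n, ∃ g' : F[X],
    (dd u ^ k) ((X - C c) ^ n * g) = (X - C c) ^ (n - k) * g' ∧
      g'.eval c = (n.descFactorial k : F) * (u.eval c) ^ k * g.eval c := by
  intro k
  induction k with
  | zero =>
    intro _
    exact ⟨g, by simp, by simp⟩
  | succ k ih =>
    intro hk
    obtain ⟨g', h1, h2⟩ := ih (by omega)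
    obtain ⟨r, hr⟩ : ∃ r, n - k = r + 1 := ⟨n - k - 1, by omega⟩
    refine ⟨C ((r + 1 : ℕ) : F) * u * g' + (X - C c) * (u * derivative g'), ?_, ?_⟩
    · rw [dd_pow_succ, h1, hr, show n - (k + 1) = r by omega, dd_apply, derivative_mul,
        derivative_X_sub_C_pow]
      simp only [Nat.add_sub_cancel, map_natCast]
      ring
    · rw [Nat.descFactorial_succ, hr]
      simp only [eval_add, eval_mul, eval_sub, eval_X, eval_C, sub_self, zero_mul, add_zero, h2]
      push_cast
      ring

/-- vanishing of the first `n` derivatives at a point -/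
theorem dvd_of_iter {p : ℕ} [Fact p.Prime] [CharP F p] {u f : F[X]} {c : F} (hu : u.eval c ≠ 0) :
    ∀ n ≤ p, (∀ m < n, ((dd u ^ m) f).eval c = 0) → (X - C c) ^ n ∣ f := by
  have hp : p.Prime := Fact.out
  intro n
  induction n with
  | zero =>
    intro _ _
    rw [pow_zero]
    exact one_dvd f
  | succ n ih =>
    intro hn h
    obtain ⟨g, rfl⟩ := ih (by omega) fun m hm => h m (by omega)
    obtain ⟨g', h1, h2⟩ := iter_aux u g c n n le_rfl
    have h3 := h n (by omega)
    rw [h1, Nat.sub_self, pow_zero, one_mul, h2, Nat.descFactorial_self] at h3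
    have h4 : ((n.factorial : ℕ) : F) ≠ 0 := by
      intro h0
      rw [CharP.cast_eq_zero_iff F p, hp.dvd_factorial] at h0
      omega
    have h5 : g.eval c = 0 := by
      rcases mul_eq_zero.1 h3 with h6 | h6
      · rcases mul_eq_zero.1 h6 with h7 | h7
        · exact absurd h7 h4
        · exact absurd h7 (pow_ne_zero _ hu)
      · exact h6
    rw [pow_succ]
    exact mul_dvd_mul_left _ (dvd_iff_isRoot.2 h5)

section rep

variable (p : ℕ) [Fact p.Prime] (a b : F) (Q : F[X])

/-- the polynomial `E` -/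
noncomputable def Ep : F[X] := (C a * X ^ 2 + C b) ^ 2 - 4 * X ^ 2

/-- the operator -/
noncomputable def up : F[X] := 2 * X * Ep a b

/-- the functions of type `l`, `m` -/
def Vg (l m : ℕ) : Set F[X] :=
  {f | ∃ (P : F[X]) (r s t : ℕ), P.natDegree ≤ 6 * m ∧ r + s + t = l ∧
    f = P * Q ^ r * (Ep a b ^ ((p - 1) / 2)) ^ s * ((C a * X ^ 2 - C b) ^ p) ^ t}

/-- the span -/
noncomputable def Vs (l m : ℕ) : AddSubmonoid F[X] := AddSubmonoid.closure (Vg p a b Q l m)

theorem natDegree_Ep : (Ep a b).natDegree ≤ 4 := by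
  rw [Ep]
  refine (natDegree_sub_le _ _).trans (max_le ?_ ?_)
  · refine natDegree_pow_le.trans ?_
    have : (C a * X ^ 2 + C b : F[X]).natDegree ≤ 2 := by compute_degree
    omega
  · have : (4 * X ^ 2 : F[X]).natDegree ≤ 2 := by compute_degree
    omega

variable {p a b Q}

omit [Fact p.Prime] in
theorem mem_Vs {l m : ℕ} {P : F[X]} {r s t : ℕ} (hP : P.natDegree ≤ 6 * m) (h : r + s + t = l) :
    P * Q ^ r * (Ep a b ^ ((p - 1) / 2)) ^ s * ((C a * X ^ 2 - C b) ^ p) ^ t ∈ Vs p a b Q l m :=
  AddSubmonoid.subset_closure ⟨P, r, s, t, hP, h, rfl⟩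

omit [Fact p.Prime] in
theorem mul_mem_Vs {l m : ℕ} {P f : F[X]} (hP : P.natDegree ≤ 6) (hf : f ∈ Vs p a b Q l m) :
    P * f ∈ Vs p a b Q l (m + 1) := by
  induction hf using AddSubmonoid.closure_induction with
  | mem f hf =>
    obtain ⟨P', r, s, t, h1, h2, rfl⟩ := hf
    have h3 : P * (P' * Q ^ r * (Ep a b ^ ((p - 1) / 2)) ^ s * ((C a * X ^ 2 - C b) ^ p) ^ t) =
        (P * P') * Q ^ r * (Ep a b ^ ((p - 1) / 2)) ^ s * ((C a * X ^ 2 - C b) ^ p) ^ t := by ring
    rw [h3]
    refine mem_Vs ?_ h2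
    refine natDegree_mul_le.trans ?_
    omega
  | zero => rw [mul_zero]; exact zero_mem _
  | add f g _ _ hf hg => rw [mul_add]; exact add_mem hf hg

omit [Fact p.Prime] in
theorem dd_Q (hQ : X * derivative Q = (C a * X ^ 2 - C b) * Ep a b ^ ((p - 1) / 2) -
      (C a * X ^ 2 - C b) ^ p) :
    dd (up a b) Q = 2 * Ep a b * (C a * X ^ 2 - C b) * Ep a b ^ ((p - 1) / 2) -
      2 * Ep a b * (C a * X ^ 2 - C b) ^ p := by
  rw [dd_apply, up]
  linear_combination (2 * Ep a b) * hQ

variable [CharP F p]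

theorem dd_e (hp : p ≠ 2) : dd (up a b) (Ep a b ^ ((p - 1) / 2)) =
    -(X * derivative (Ep a b)) * Ep a b ^ ((p - 1) / 2) := by
  have hpp : p.Prime := Fact.out
  obtain ⟨k, hk⟩ : ∃ k, p = 2 * k + 1 := by
    rcases hpp.eq_two_or_odd' with h | h
    · exact absurd h hp
    · exact h
  have hk2 : (p - 1) / 2 = k := by omega
  obtain ⟨j, rfl⟩ : ∃ j, k = j + 1 := ⟨k - 1, by have := hpp.two_le; omega⟩
  rw [hk2, dd_apply, up, derivative_pow, Nat.add_sub_cancel]
  have h1 : (2 : F[X]) * C ((j + 1 : ℕ) : F) = -1 := by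
    have h2 : ((p : ℕ) : F[X]) = 0 := CharP.cast_eq_zero F[X] p
    rw [hk] at h2
    rw [map_natCast]
    push_cast at h2 ⊢
    linear_combination h2
  rw [pow_succ]
  linear_combination (X * Ep a b * Ep a b ^ j * derivative (Ep a b)) * h1

omit [Fact p.Prime] in
theorem dd_h : dd (up a b) ((C a * X ^ 2 - C b) ^ p) = 0 := by
  have h2 : ((p : ℕ) : F) = 0 := CharP.cast_eq_zero F p
  rw [dd_apply, derivative_pow, h2, C_0, zero_mul, zero_mul, mul_zero]

theorem dd_mem_Vs (hp : p ≠ 2) (hQ : X * derivative Q = (C a * X ^ 2 - C b) *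
      Ep a b ^ ((p - 1) / 2) - (C a * X ^ 2 - C b) ^ p) {l m : ℕ} {f : F[X]}
    (hf : f ∈ Vs p a b Q l m) : dd (up a b) f ∈ Vs p a b Q l (m + 1) := by
  induction hf using AddSubmonoid.closure_induction with
  | mem f hf =>
    obtain ⟨P, r, s, t, h1, h2, rfl⟩ := hf
    set e : F[X] := Ep a b ^ ((p - 1) / 2) with he
    set h : F[X] := (C a * X ^ 2 - C b) ^ p with hh
    have e1 : dd (up a b) e = -(X * derivative (Ep a b)) * e := dd_e hp
    have e2 : dd (up a b) h = 0 := dd_h
    have e3 := dd_Q hQ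
    rw [← he, ← hh] at e3
    have hpow : ∀ (g : F[X]) (n : ℕ), dd (up a b) (g ^ n) = (n : F[X]) * g ^ (n - 1) * dd (up a b) g := by
      intro g n
      rw [dd_apply, dd_apply, derivative_pow, map_natCast]
      ring
    have hE := natDegree_Ep a b
    have hE' : (derivative (Ep a b)).natDegree ≤ 3 := (natDegree_derivative_le _).trans (by omega)
    have hL : (C a * X ^ 2 - C b : F[X]).natDegree ≤ 2 := by compute_degree
    have h2d : (2 : F[X]).natDegree = 0 := natDegree_ofNat 2
    have hnd : ∀ n : ℕ, (n : F[X]).natDegree = 0 := fun n => natDegree_natCast n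
    have hXd : (X : F[X]).natDegree ≤ 1 := natDegree_X_le
    -- the four terms
    have t1 : (dd (up a b) P) * Q ^ r * e ^ s * h ^ t ∈ Vs p a b Q l (m + 1) := by
      refine mem_Vs ?_ h2
      rw [dd_apply, up]
      have hd : (derivative P).natDegree ≤ P.natDegree - 1 := natDegree_derivative_le _
      by_cases h0 : P.natDegree = 0
      · obtain ⟨c, hc⟩ := natDegree_eq_zero.1 h0
        rw [← hc, derivative_C, mul_zero, natDegree_zero]
        exact Nat.zero_le _
      · refine natDegree_mul_le.trans ?_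
        have h3 : (2 * X * Ep a b).natDegree ≤ 5 := by
          refine natDegree_mul_le.trans ?_
          have : (2 * X : F[X]).natDegree ≤ 1 := natDegree_mul_le.trans (by omega)
          omega
        omega
    have t2 : (r : F[X]) * ((2 * Ep a b * (C a * X ^ 2 - C b) * P) * Q ^ (r - 1) * e ^ (s + 1) *
        h ^ t) ∈ Vs p a b Q l (m + 1) := by
      rcases r with _ | r
      · simp only [Nat.cast_zero, zero_mul]
        exact zero_mem _
      · rw [Nat.add_sub_cancel]
        have h3 : ((r + 1 : ℕ) : F[X]) * ((2 * Ep a b * (C a * X ^ 2 - C b) * P) * Q ^ r *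
            e ^ (s + 1) * h ^ t) = (((r + 1 : ℕ) : F[X]) * (2 * Ep a b * (C a * X ^ 2 - C b) * P)) *
            Q ^ r * e ^ (s + 1) * h ^ t := by ring
        rw [h3]
        refine mem_Vs ?_ (by omega)
        refine natDegree_mul_le.trans ?_
        rw [hnd, zero_add]
        refine natDegree_mul_le.trans ?_
        have h4 : (2 * Ep a b * (C a * X ^ 2 - C b)).natDegree ≤ 6 := by
          refine natDegree_mul_le.trans ?_
          have : (2 * Ep a b : F[X]).natDegree ≤ 4 := natDegree_mul_le.trans (by omega)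
          omega
        omega
    have t3 : (r : F[X]) * ((-(2 * Ep a b) * P) * Q ^ (r - 1) * e ^ s *
        h ^ (t + 1)) ∈ Vs p a b Q l (m + 1) := by
      rcases r with _ | r
      · simp only [Nat.cast_zero, zero_mul]
        exact zero_mem _
      · rw [Nat.add_sub_cancel]
        have h3 : ((r + 1 : ℕ) : F[X]) * ((-(2 * Ep a b) * P) * Q ^ r *
            e ^ s * h ^ (t + 1)) = (((r + 1 : ℕ) : F[X]) * (-(2 * Ep a b) * P)) *
            Q ^ r * e ^ s * h ^ (t + 1) := by ring
        rw [h3]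
        refine mem_Vs ?_ (by omega)
        refine natDegree_mul_le.trans ?_
        rw [hnd, zero_add]
        refine natDegree_mul_le.trans ?_
        rw [natDegree_neg]
        have : (2 * Ep a b : F[X]).natDegree ≤ 4 := natDegree_mul_le.trans (by omega)
        omega
    have t4 : (-(s : F[X]) * (X * derivative (Ep a b)) * P) * Q ^ r * e ^ s * h ^ t ∈
        Vs p a b Q l (m + 1) := by
      refine mem_Vs ?_ h2
      refine natDegree_mul_le.trans ?_
      have h3 : (-(s : F[X]) * (X * derivative (Ep a b))).natDegree ≤ 4 := by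
        refine natDegree_mul_le.trans ?_
        rw [natDegree_neg, hnd, zero_add]
        refine natDegree_mul_le.trans ?_
        omega
      omega
    have key : dd (up a b) (P * Q ^ r * e ^ s * h ^ t) =
        (dd (up a b) P) * Q ^ r * e ^ s * h ^ t +
        (r : F[X]) * ((2 * Ep a b * (C a * X ^ 2 - C b) * P) * Q ^ (r - 1) * e ^ (s + 1) * h ^ t) +
        (r : F[X]) * ((-(2 * Ep a b) * P) * Q ^ (r - 1) * e ^ s * h ^ (t + 1)) +
        (-(s : F[X]) * (X * derivative (Ep a b)) * P) * Q ^ r * e ^ s * h ^ t := by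
      have h5 : (s : F[X]) * e ^ (s - 1) * e = (s : F[X]) * e ^ s := by
        rcases s with _ | s
        · simp
        · rw [Nat.add_sub_cancel, pow_succ]
          ring
      rw [dd_mul, dd_mul, dd_mul, hpow Q r, hpow e s, hpow h t, e1, e2, e3, pow_succ, pow_succ]
      linear_combination (-(P * Q ^ r * h ^ t * (X * derivative (Ep a b)))) * h5
    rw [key]
    exact add_mem (add_mem (add_mem t1 t2) t3) t4
  | zero => rw [map_zero]; exact zero_mem _
  | add f g _ _ hf hg => rw [map_add]; exact add_mem hf hg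

/-- iterated derivatives of the basis functions -/
theorem iter_basis (hp : p ≠ 2) (hQ : X * derivative Q = (C a * X ^ 2 - C b) *
      Ep a b ^ ((p - 1) / 2) - (C a * X ^ 2 - C b) ^ p) (w₀ : F) (j e l m : ℕ) :
    ∃ f ∈ Vs p a b Q l m, (dd (up a b) ^ m) (((X - C w₀) ^ p) ^ j * (X ^ e * Q ^ l)) =
      ((X - C w₀) ^ p) ^ j * (X ^ e * f) := by
  have h2 : ((p : ℕ) : F) = 0 := CharP.cast_eq_zero F p
  have hw : dd (up a b) (((X - C w₀) ^ p) ^ j) = 0 := by
    rw [dd_apply, ← pow_mul, derivative_pow]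
    push_cast
    rw [h2, zero_mul, C_0, zero_mul, zero_mul, mul_zero]
  have hX : dd (up a b) (X ^ e : F[X]) = (2 * (e : F[X]) * Ep a b) * X ^ e := by
    rw [dd_apply, up]
    rcases e with _ | e
    · simp
    · rw [derivative_X_pow, Nat.add_sub_cancel, pow_succ, map_natCast]
      ring
  induction m with
  | zero =>
    refine ⟨Q ^ l, ?_, by simp⟩
    have := mem_Vs (p := p) (a := a) (b := b) (Q := Q) (m := 0) (P := 1) (r := l) (s := 0) (t := 0)
      (l := l) (by simp) (by simp)
    simpa using this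
  | succ m ih =>
    obtain ⟨f, hf, h3⟩ := ih
    refine ⟨dd (up a b) f + (2 * (e : F[X]) * Ep a b) * f, ?_, ?_⟩
    · refine add_mem (dd_mem_Vs hp hQ hf) (mul_mem_Vs ?_ hf)
      refine natDegree_mul_le.trans ?_
      have h4 : (2 * (e : F[X])).natDegree ≤ 0 := by
        refine natDegree_mul_le.trans ?_
        rw [natDegree_natCast, add_zero]
        exact (natDegree_ofNat (R := F) 2).le
      have := natDegree_Ep a b
      omega
    · rw [dd_pow_succ, h3, dd_mul, hw, dd_mul, hX]
      ring

end rep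

end Pool.Agent.Work.MP_60c97f_nt
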