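import Pool.Agent.Work.MP_60c97f_nt.StepA

/-!
# Stepanov's method: the bound
-/

set_option autoImplicit false

namespace Pool.Agent.Work.MP_60c97f_nt

open Polynomial

variable {F : Type} [Field F] {p : ℕ} {a b : F} {Q : F[X]}

/-- values of the elements of `Vs` at the points of `Z` -/
theorem value_Vs {Z : Finset F} {gK ge gh : F[X]} (hgK : gK.natDegree ≤ 4)
    (hge : ge.natDegree ≤ 4) (hgh : gh.natDegree ≤ 4)
    (vK : ∀ w ∈ Z, gK.eval w = w ^ 2 * Q.eval w)
    (ve : ∀ w ∈ Z, ge.eval w = w ^ 2 * (Ep a b ^ ((p - 1) / 2)).eval w)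
    (vh : ∀ w ∈ Z, gh.eval w = w ^ 2 * ((C a * X ^ 2 - C b) ^ p : F[X]).eval w)
    {l m : ℕ} {f : F[X]} (hf : f ∈ Vs p a b Q l m) :
    ∃ g : F[X], g.natDegree ≤ 6 * m + 4 * l ∧ ∀ w ∈ Z, g.eval w = w ^ (2 * l) * f.eval w := by
  induction hf using AddSubmonoid.closure_induction with
  | mem f hf =>
    obtain ⟨P, r, s, t, h1, h2, rfl⟩ := hf
    refine ⟨P * gK ^ r * ge ^ s * gh ^ t, ?_, fun w hw => ?_⟩
    · have d1 : (gK ^ r).natDegree ≤ r * 4 := natDegree_pow_le.trans (Nat.mul_le_mul_left r hgK)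
      have d2 : (ge ^ s).natDegree ≤ s * 4 := natDegree_pow_le.trans (Nat.mul_le_mul_left s hge)
      have d3 : (gh ^ t).natDegree ≤ t * 4 := natDegree_pow_le.trans (Nat.mul_le_mul_left t hgh)
      have d4 : (P * gK ^ r).natDegree ≤ P.natDegree + (gK ^ r).natDegree := natDegree_mul_le
      have d5 : (P * gK ^ r * ge ^ s).natDegree ≤ (P * gK ^ r).natDegree + (ge ^ s).natDegree :=
        natDegree_mul_le
      have d6 : (P * gK ^ r * ge ^ s * gh ^ t).natDegree ≤
          (P * gK ^ r * ge ^ s).natDegree + (gh ^ t).natDegree := natDegree_mul_le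
      omega
    · have h3 : w ^ (2 * l) = (w ^ 2) ^ r * (w ^ 2) ^ s * (w ^ 2) ^ t := by
        rw [← h2, pow_mul, pow_add, pow_add]
      rw [eval_mul, eval_mul, eval_mul, eval_pow, eval_pow, eval_pow, vK w hw, ve w hw, vh w hw, h3,
        eval_mul, eval_mul, eval_mul, eval_pow (n := r), eval_pow (n := s), eval_pow (n := t),
        mul_pow, mul_pow, mul_pow]
      ring
  | zero => exact ⟨0, by simp, by simp⟩
  | add f g _ _ hf hg =>
    obtain ⟨f', h1, h2⟩ := hf
    obtain ⟨g', h3, h4⟩ := hg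
    refine ⟨f' + g', (natDegree_add_le _ _).trans (max_le h1 h3), fun w hw => ?_⟩
    rw [eval_add, h2 w hw, h4 w hw, eval_add]
    ring

variable [Fact p.Prime] [CharP F p]

/-- values of the derivatives of the basis functions -/
theorem value_basis (hp : p ≠ 2) (hQ : X * derivative Q = (C a * X ^ 2 - C b) *
      Ep a b ^ ((p - 1) / 2) - (C a * X ^ 2 - C b) ^ p) {w₀ : F}
    {Z : Finset F} {d : ℕ} (hZd : ∀ w ∈ Z, w ^ d = 1) {gW gK ge gh : F[X]}
    (hgW : gW.natDegree ≤ 2) (hgK : gK.natDegree ≤ 4)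
    (hge : ge.natDegree ≤ 4) (hgh : gh.natDegree ≤ 4)
    (vW : ∀ w ∈ Z, gW.eval w = w * (w - w₀) ^ p)
    (vK : ∀ w ∈ Z, gK.eval w = w ^ 2 * Q.eval w)
    (ve : ∀ w ∈ Z, ge.eval w = w ^ 2 * (Ep a b ^ ((p - 1) / 2)).eval w)
    (vh : ∀ w ∈ Z, gh.eval w = w ^ 2 * ((C a * X ^ 2 - C b) ^ p : F[X]).eval w)
    {nI nJ nL i j k l : ℕ} (hi : i < nI) (hj : j < nJ) (hl : l < nL) (m : ℕ) :
    ∃ g : F[X], g.natDegree ≤ nI + 6 * m + 4 * nL + 2 * nJ ∧
      ∀ w ∈ Z, g.eval w = w ^ (2 * nL + nJ) *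
        ((dd (up a b) ^ m) (((X - C w₀) ^ p) ^ j * (X ^ (i + d * k) * Q ^ l))).eval w := by
  obtain ⟨f, hf, h1⟩ := iter_basis hp hQ w₀ j (i + d * k) l m
  obtain ⟨g, h2, h3⟩ := value_Vs hgK hge hgh vK ve vh hf
  refine ⟨X ^ (2 * (nL - l)) * g * gW ^ j * X ^ (nJ - j) * X ^ i, ?_, fun w hw => ?_⟩
  · have d0 : (X ^ (2 * (nL - l)) : F[X]).natDegree ≤ 2 * (nL - l) := natDegree_X_pow_le _
    have d1 : (X ^ (2 * (nL - l)) * g : F[X]).natDegree ≤
        (X ^ (2 * (nL - l)) : F[X]).natDegree + g.natDegree := natDegree_mul_le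
    have d2 : (gW ^ j).natDegree ≤ j * 2 := natDegree_pow_le.trans (Nat.mul_le_mul_left j hgW)
    have d3 : (X ^ (2 * (nL - l)) * g * gW ^ j : F[X]).natDegree ≤
        (X ^ (2 * (nL - l)) * g : F[X]).natDegree + (gW ^ j).natDegree := natDegree_mul_le
    have d4 : (X ^ (nJ - j) : F[X]).natDegree ≤ nJ - j := natDegree_X_pow_le _
    have d5 : (X ^ (2 * (nL - l)) * g * gW ^ j * X ^ (nJ - j) : F[X]).natDegree ≤
        (X ^ (2 * (nL - l)) * g * gW ^ j : F[X]).natDegree + (X ^ (nJ - j) : F[X]).natDegree :=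
      natDegree_mul_le
    have d6 : (X ^ i : F[X]).natDegree ≤ i := natDegree_X_pow_le _
    have d7 : (X ^ (2 * (nL - l)) * g * gW ^ j * X ^ (nJ - j) * X ^ i : F[X]).natDegree ≤
        (X ^ (2 * (nL - l)) * g * gW ^ j * X ^ (nJ - j) : F[X]).natDegree +
          (X ^ i : F[X]).natDegree := natDegree_mul_le
    omega
  · rw [h1]
    simp only [eval_mul, eval_pow, eval_sub, eval_X, eval_C]
    rw [vW w hw, h3 w hw]
    have e1 : w ^ (i + d * k) = w ^ i := by
      rw [pow_add, pow_mul, hZd w hw, one_pow, mul_one]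
    have e2 : w ^ (2 * nL + nJ) = w ^ (2 * (nL - l)) * w ^ (2 * l) * w ^ j * w ^ (nJ - j) := by
      rw [← pow_add, ← pow_add, ← pow_add]
      congr 1
      omega
    rw [e1, e2, mul_pow]
    ring

/-- the combination of the basis functions -/
noncomputable def Psi (p : ℕ) (Q : F[X]) (w₀ : F) (d nI nJ nK nL : ℕ)
    (c : ℕ → ℕ → ℕ → ℕ → F) : F[X] :=
  ∑ j ∈ Finset.range nJ, ((X - C w₀) ^ p) ^ j * ∑ i ∈ Finset.range nI, ∑ k ∈ Finset.range nK,
    X ^ (i + d * k) * (∑ l ∈ Finset.range nL, C (c i j k l) * X ^ l : F[X]).comp Q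

/-- The basis functions are linearly independent. -/
theorem Psi_ne_zero (hQ : X * derivative Q = (C a * X ^ 2 - C b) *
      Ep a b ^ ((p - 1) / 2) - (C a * X ^ 2 - C b) ^ p) {w₀ : F} (hw₀ : w₀ ≠ 0)
    (hE0 : (Ep a b).eval w₀ = 0) (hab : a * w₀ ^ 2 - b ≠ 0) {d nI nJ nK nL : ℕ} (hId : nI ≤ d)
    (hexp : ∀ i < nI, ∀ k < nK, i + d * k < p) (hLp : nL ≤ p)
    (hN : nI * nK * nL ≤ (p - 1) / 2) {c : ℕ → ℕ → ℕ → ℕ → F}
    (h0 : Psi p Q w₀ d nI nJ nK nL c = 0) :
    ∀ j < nJ, ∀ i < nI, ∀ k < nK, ∀ l < nL, c i j k l = 0 := by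
  classical
  have hpp : p.Prime := Fact.out
  set h : F := (a * w₀ ^ 2 - b) ^ p with hh
  have hh0 : h ≠ 0 := pow_ne_zero _ hab
  have hK : (X - C w₀) ^ ((p - 1) / 2) ∣ X * derivative Q + C h := by
    have h1 : (X - C w₀) ∣ Ep a b := dvd_iff_isRoot.2 hE0
    have h2 : (X - C w₀) ^ ((p - 1) / 2) ∣ Ep a b ^ ((p - 1) / 2) := pow_dvd_pow_of_dvd h1 _
    have h3 : (X - C w₀) ^ ((p - 1) / 2) ∣ (C a * X ^ 2 - C b) ^ p - C h := by
      have h4 : (C a * X ^ 2 - C b) ^ p - C h =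
          ((C a * X ^ 2 - C b) - C (a * w₀ ^ 2 - b)) ^ p := by
        rw [hh, C_pow]
        exact (sub_pow_char (p := p) (C a * X ^ 2 - C b) (C (a * w₀ ^ 2 - b))).symm
      rw [h4]
      refine (pow_dvd_pow _ (by omega : (p - 1) / 2 ≤ p)).trans (pow_dvd_pow_of_dvd ?_ p)
      refine ⟨C a * (X + C w₀), ?_⟩
      rw [C_sub, C_mul, C_pow]
      ring
    rw [hQ]
    have h5 : (C a * X ^ 2 - C b) * Ep a b ^ ((p - 1) / 2) - (C a * X ^ 2 - C b) ^ p + C h =
        (C a * X ^ 2 - C b) * Ep a b ^ ((p - 1) / 2) - ((C a * X ^ 2 - C b) ^ p - C h) := by ring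
    rw [h5]
    exact dvd_sub (Dvd.dvd.mul_left h2 _) h3
  have hd : 0 < nI → 0 < d := fun h => by omega
  intro j
  induction j using Nat.strong_induction_on with
  | _ j ih =>
    intro hj i hi k hk l hl
    have hd0 : 0 < d := by omega
    -- the exponents
    set A : Finset ℕ := (Finset.range nI ×ˢ Finset.range nK).image fun x => x.1 + d * x.2 with hA
    have hinj : Set.InjOn (fun x : ℕ × ℕ => x.1 + d * x.2)
        (Finset.range nI ×ˢ Finset.range nK : Finset (ℕ × ℕ)) := by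
      rintro ⟨i₁, k₁⟩ h₁ ⟨i₂, k₂⟩ h₂ heq
      simp only [Finset.coe_product, Finset.coe_range, Set.mem_prod, Set.mem_Iio] at h₁ h₂ heq
      have e1 : (i₁ + d * k₁) % d = i₁ := by
        rw [Nat.add_mul_mod_self_left, Nat.mod_eq_of_lt (by omega)]
      have e2 : (i₂ + d * k₂) % d = i₂ := by
        rw [Nat.add_mul_mod_self_left, Nat.mod_eq_of_lt (by omega)]
      have e3 : i₁ = i₂ := by rw [← e1, ← e2, heq]
      subst e3
      have e4 : d * k₁ = d * k₂ := by omega
      exact Prod.ext rfl (Nat.eq_of_mul_eq_mul_left hd0 e4)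
    set cc : ℕ → F[X] := fun e => ∑ l ∈ Finset.range nL, C (c (e % d) j (e / d) l) * X ^ l with hcc
    have hccv : ∀ i < nI, ∀ k < nK,
        cc (i + d * k) = ∑ l ∈ Finset.range nL, C (c i j k l) * X ^ l := by
      intro i hi k hk
      have e1 : (i + d * k) % d = i := by
        rw [Nat.add_mul_mod_self_left, Nat.mod_eq_of_lt (by omega)]
      have e2 : (i + d * k) / d = k := by
        rw [Nat.add_mul_div_left _ _ hd0, Nat.div_eq_of_lt (by omega), zero_add]
      simp only [hcc, e1, e2]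
    have hdvd : (X - C w₀) ^ (nI * nK * nL) ∣ ∑ e ∈ A, X ^ e * (cc e).comp Q := by
      have h1 : ∑ e ∈ A, X ^ e * (cc e).comp Q = ∑ i ∈ Finset.range nI, ∑ k ∈ Finset.range nK,
          X ^ (i + d * k) * (∑ l ∈ Finset.range nL, C (c i j k l) * X ^ l : F[X]).comp Q := by
        rw [hA, Finset.sum_image hinj, Finset.sum_product]
        refine Finset.sum_congr rfl fun i hi => Finset.sum_congr rfl fun k hk => ?_
        rw [hccv i (Finset.mem_range.1 hi) k (Finset.mem_range.1 hk)]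
      rw [h1]
      -- split the sum over j
      set Φ : ℕ → F[X] := fun j => ∑ i ∈ Finset.range nI, ∑ k ∈ Finset.range nK,
          X ^ (i + d * k) * (∑ l ∈ Finset.range nL, C (c i j k l) * X ^ l : F[X]).comp Q with hΦ
      have h2 : ∀ j' < j, Φ j' = 0 := by
        intro j' hj'
        simp only [hΦ]
        refine Finset.sum_eq_zero fun i hi => Finset.sum_eq_zero fun k hk => ?_
        have h3 : (∑ l ∈ Finset.range nL, C (c i j' k l) * X ^ l : F[X]) = 0 := by
          refine Finset.sum_eq_zero fun l hl => ?_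
          rw [ih j' hj' (by omega) i (Finset.mem_range.1 hi) k (Finset.mem_range.1 hk) l
            (Finset.mem_range.1 hl), C_0, zero_mul]
        rw [h3, zero_comp, mul_zero]
      have h3 : Psi p Q w₀ d nI nJ nK nL c = ∑ j' ∈ Finset.range nJ, ((X - C w₀) ^ p) ^ j' * Φ j' :=
        rfl
      rw [h0] at h3
      have h4 : (X - C w₀) ^ (p * j) * (X - C w₀) ^ p ∣ (X - C w₀) ^ (p * j) * Φ j := by
        have h5 : (X - C w₀) ^ (p * j) * Φ j = -∑ j' ∈ (Finset.range nJ).erase j,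
            ((X - C w₀) ^ p) ^ j' * Φ j' := by
          rw [← Finset.add_sum_erase _ _ (Finset.mem_range.2 hj)] at h3
          rw [pow_mul]
          linear_combination -h3
        rw [h5, ← pow_add]
        refine (dvd_neg).2 (Finset.dvd_sum fun j' hj' => ?_)
        rw [Finset.mem_erase, Finset.mem_range] at hj'
        rcases lt_or_gt_of_ne hj'.1 with h6 | h6
        · rw [h2 j' h6, mul_zero]
          exact dvd_zero _
        · rw [← pow_mul]
          refine Dvd.dvd.mul_right (pow_dvd_pow _ ?_) _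
          calc p * j + p = p * (j + 1) := by ring
            _ ≤ p * j' := Nat.mul_le_mul_left p h6
      have h5 : (X - C w₀) ^ p ∣ Φ j :=
        (mul_dvd_mul_iff_left (pow_ne_zero _ (X_sub_C_ne_zero w₀))).1 h4
      exact (pow_dvd_pow _ (by omega)).trans h5
    have hcard : ∑ e ∈ A, nL ≤ nI * nK * nL := by
      rw [Finset.sum_const, smul_eq_mul]
      refine Nat.mul_le_mul_right _ (Finset.card_image_le.trans ?_)
      rw [Finset.card_product, Finset.card_range, Finset.card_range]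
    have hz := zero_estimate hw₀ hh0 hK A (fun e he => by
      rw [hA, Finset.mem_image] at he
      obtain ⟨⟨i, k⟩, h1, rfl⟩ := he
      rw [Finset.mem_product, Finset.mem_range, Finset.mem_range] at h1
      exact hexp i h1.1 k h1.2) (fun _ => nL) cc (fun _ _ => hLp) (fun e _ => by
        rw [mem_degreeLT]
        refine lt_of_le_of_lt (degree_sum_le _ _) ?_
        rw [Finset.sup_lt_iff (WithBot.bot_lt_coe _)]
        intro l hl
        rw [Finset.mem_range] at hl
        exact lt_of_le_of_lt (degree_C_mul_X_pow_le _ _) (by exact_mod_cast hl))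
      _ hN hcard hdvd (i + d * k) (by
        rw [hA, Finset.mem_image]
        exact ⟨(i, k), Finset.mem_product.2 ⟨Finset.mem_range.2 hi, Finset.mem_range.2 hk⟩, rfl⟩)
    rw [hccv i hi k hk] at hz
    have h1 := congrArg (fun f => coeff f l) hz
    simp only [finsetSum_coeff, coeff_C_mul, coeff_X_pow, coeff_zero] at h1
    rw [Finset.sum_eq_single_of_mem l (Finset.mem_range.2 hl)] at h1
    · simpa using h1
    · intro l' _ hne
      rw [if_neg (Ne.symm hne), mul_zero]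

end Pool.Agent.Work.MP_60c97f_nt
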