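import Pool.Agent.Work.MP_60c97f_nt.FibCard

/-!
# Orbits which are not full: the section
-/

set_option autoImplicit false

namespace Pool.Agent.Work.MP_60c97f_nt

variable {p : ℕ} [Fact p.Prime]

omit [Fact p.Prime] in
theorem VStep.transport {P₁ P₂ P₁' : ZMod (p ^ 2) × ZMod (p ^ 2) × ZMod (p ^ 2)}
    (h : VStep P₁ P₂) (hred : redP P₁' = redP P₁) :
    ∃ P₂', VStep P₁' P₂' ∧ redP P₂' = redP P₂ := by
  obtain ⟨x', y', z'⟩ := P₁'
  cases h with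
  | vx =>
    obtain ⟨x, y, z⟩ := P₁
    simp only [redP, Prod.mk.injEq] at hred
    exact ⟨_, VStep.vx _, by simp [redP, sx, hred]⟩
  | vy =>
    obtain ⟨x, y, z⟩ := P₁
    simp only [redP, Prod.mk.injEq] at hred
    exact ⟨_, VStep.vy _, by simp [redP, sy, hred]⟩
  | vz =>
    obtain ⟨x, y, z⟩ := P₁
    simp only [redP, Prod.mk.injEq] at hred
    exact ⟨_, VStep.vz _, by simp [redP, sz, hred]⟩

omit [Fact p.Prime] in
theorem vorb_transport {P Q P' : ZMod (p ^ 2) × ZMod (p ^ 2) × ZMod (p ^ 2)}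
    (h : Q ∈ vorb P) (hred : redP P' = redP P) : ∃ Q' ∈ vorb P', redP Q' = redP Q :=
  vorb_ind (M := fun T => ∃ Q' ∈ vorb P', redP Q' = redP T) ⟨P', mem_vorb_self P', hred⟩
    (fun _ _ _ ih hs => by
      obtain ⟨Q', hQ', hr⟩ := ih
      obtain ⟨Q'', hs', hr'⟩ := hs.transport hr
      exact ⟨Q'', vorb_step hQ' hs', hr'⟩) h

/-- The orbit of `P` contains all the points over its reduction. -/
def Full (D : ZMod (p ^ 2)) (P : ZMod (p ^ 2) × ZMod (p ^ 2) × ZMod (p ^ 2)) : Prop :=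
  ∀ Q, OnX D Q → redP Q ∈ redP '' vorb P → Q ∈ vorb P

/-- the point of the section -/
def TP (P : ZMod (p ^ 2) × ZMod (p ^ 2) × ZMod (p ^ 2)) :
    ZMod (p ^ 2) × ZMod (p ^ 2) × ZMod (p ^ 2) :=
  (dk P.1 1 p, dk P.2.1 1 p, dk P.2.2 1 p)

theorem TP_congr {P Q : ZMod (p ^ 2) × ZMod (p ^ 2) × ZMod (p ^ 2)} (h : redP P = redP Q) :
    TP P = TP Q := by
  simp only [redP, Prod.mk.injEq] at h
  simp only [TP, dk_congr' h.1, dk_congr' h.2.1, dk_congr' h.2.2]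

theorem redP_TP (P : ZMod (p ^ 2) × ZMod (p ^ 2) × ZMod (p ^ 2)) : redP (TP P) = redP P := by
  simp only [redP, TP, red_dk]

theorem TP_TP (P : ZMod (p ^ 2) × ZMod (p ^ 2) × ZMod (p ^ 2)) : TP (TP P) = TP P :=
  TP_congr (redP_TP P)

theorem eq_TP_of_not_hasGood {P : ZMod (p ^ 2) × ZMod (p ^ 2) × ZMod (p ^ 2)}
    (h : ¬ HasGood P) : P = TP P ∧ red p P.1 ^ 2 ≠ 4 ∧ red p P.2.1 ^ 2 ≠ 4 ∧
      red p P.2.2 ^ 2 ≠ 4 := by
  simp only [HasGood, Good, not_or, not_not] at h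
  obtain ⟨⟨h1, h2⟩, ⟨h3, h4⟩, ⟨h5, h6⟩⟩ := h
  refine ⟨?_, h1, h3, h5⟩
  rw [TP, h2, h4, h6]

theorem xstar_of_redP {D : ZMod (p ^ 2)} {T T' : ZMod (p ^ 2) × ZMod (p ^ 2) × ZMod (p ^ 2)}
    (h : OnX D T) (hT' : T' ∈ XStar D) (hr : redP T = redP T') : T ∈ XStar D := by
  refine ⟨h, ?_⟩
  obtain ⟨-, hs⟩ := hT'
  simp only [redP, Prod.mk.injEq] at hr
  simp only [Smooth, isUnit_iff_red, map_sub, map_mul, map_ofNat] at hs ⊢
  rwa [hr.1, hr.2.1, hr.2.2]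

omit [Fact p.Prime] in
theorem full_of_fibre {D : ZMod (p ^ 2)}
    {P Q₀ : ZMod (p ^ 2) × ZMod (p ^ 2) × ZMod (p ^ 2)} (hQ₀ : Q₀ ∈ vorb P)
    (hall : ∀ W, OnX D W → redP W = redP Q₀ → W ∈ vorb P) : Full D P := by
  rintro Q hQ ⟨Q₁, hQ₁, hred⟩
  have h1 : Q₀ ∈ vorb Q₁ := vorb_trans (vorb_symm hQ₁) hQ₀
  obtain ⟨Q', hQ', hr⟩ := vorb_transport h1 (P' := Q) hred.symm
  exact vorb_trans (hall Q' (vorb_onX hQ' hQ) hr) (vorb_symm hQ')

theorem full_of_hasGood (hp : 5 ≤ p) {D : ZMod (p ^ 2)} (hD4 : red p D ≠ 4)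
    (hDs : red p D = 0 ∨ ¬ IsSquare (red p D))
    {P Q₀ : ZMod (p ^ 2) × ZMod (p ^ 2) × ZMod (p ^ 2)} (hP : P ∈ XStar D) (hQ₀ : Q₀ ∈ vorb P)
    (hall : ∀ Q', OnX D Q' → redP Q' = redP Q₀ → HasGood Q') : Full D P := by
  have hQ₀X := vorb_subset hP hQ₀
  exact full_of_fibre hQ₀ fun W hW hr => vorb_trans hQ₀
    (fib hp hD4 hDs hQ₀X hW hr (hall Q₀ hQ₀X.1 rfl) (hall W hW hr))

theorem section_of_not_full (hp : 5 ≤ p) {D : ZMod (p ^ 2)} (hD4 : red p D ≠ 4)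
    (hDs : red p D = 0 ∨ ¬ IsSquare (red p D))
    {P Q : ZMod (p ^ 2) × ZMod (p ^ 2) × ZMod (p ^ 2)} (hP : P ∈ XStar D) (hnf : ¬ Full D P)
    (hQ : Q ∈ vorb P) : OnX D (TP Q) ∧ red p Q.1 ^ 2 ≠ 4 ∧ red p Q.2.1 ^ 2 ≠ 4 ∧
      red p Q.2.2 ^ 2 ≠ 4 := by
  have key : ∃ Q', OnX D Q' ∧ redP Q' = redP Q ∧ ¬ HasGood Q' := by
    by_contra hcon
    push Not at hcon
    exact hnf (full_of_hasGood hp hD4 hDs hP hQ hcon)
  obtain ⟨Q', hX, hr, hg⟩ := key
  obtain ⟨h1, h2, h3, h4⟩ := eq_TP_of_not_hasGood hg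
  have hT : TP Q = Q' := by rw [← TP_congr hr, ← h1]
  simp only [redP, Prod.mk.injEq] at hr
  refine ⟨by rw [hT]; exact hX, ?_, ?_, ?_⟩
  · rw [← hr.1]; exact h2
  · rw [← hr.2.1]; exact h3
  · rw [← hr.2.2]; exact h4

omit [Fact p.Prime] in
private theorem vstep_cases {P Q : ZMod (p ^ 2) × ZMod (p ^ 2) × ZMod (p ^ 2)} (h : VStep P Q) :
    Q = sx P ∨ Q = sy P ∨ Q = sz P := by
  cases h with
  | vx => exact Or.inl rfl
  | vy => exact Or.inr (Or.inl rfl)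
  | vz => exact Or.inr (Or.inr rfl)

/-- A step from a point of the section leads to a point of the section. -/
theorem step_TP (hp : 5 ≤ p) {D : ZMod (p ^ 2)} (hD4 : red p D ≠ 4)
    (hDs : red p D = 0 ∨ ¬ IsSquare (red p D))
    {P Q T : ZMod (p ^ 2) × ZMod (p ^ 2) × ZMod (p ^ 2)} (hP : P ∈ XStar D) (hnf : ¬ Full D P)
    (hQ : Q ∈ vorb P) (hs : VStep (TP Q) T) : T = TP T := by
  have hpp : p.Prime := Fact.out
  have : NeZero (p ^ 2) := ⟨pow_ne_zero 2 hpp.ne_zero⟩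
  by_contra hT
  have hTg : HasGood T := by
    by_contra h
    exact hT (eq_TP_of_not_hasGood h).1
  have hQX := vorb_subset hP hQ
  obtain ⟨hRX, -⟩ := section_of_not_full hp hD4 hDs hP hnf hQ
  obtain ⟨T', hs', hr'⟩ := hs.transport (redP_TP Q).symm
  have hT'X : T' ∈ XStar D := vorb_subset hP (vorb_step hQ hs')
  have hTX : T ∈ XStar D := xstar_of_redP (hs.step.onX hRX) hT'X hr'.symm
  -- a good point of the fibre in the orbit of the section
  have key : ∃ W, OnX D W ∧ redP W = redP Q ∧ HasGood W ∧ W ∈ vorb (TP Q) := by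
    have hcard : ({TP Q, sx (TP T), sy (TP T), sz (TP T)} :
        Set (ZMod (p ^ 2) × ZMod (p ^ 2) × ZMod (p ^ 2))).ncard < p ^ 2 := by
      have h1 : ({TP Q, sx (TP T), sy (TP T), sz (TP T)} :
          Set (ZMod (p ^ 2) × ZMod (p ^ 2) × ZMod (p ^ 2))).ncard ≤ 4 := by
        refine (Set.ncard_insert_le _ _).trans (Nat.succ_le_succ ?_)
        refine (Set.ncard_insert_le _ _).trans (Nat.succ_le_succ ?_)
        refine (Set.ncard_insert_le _ _).trans (Nat.succ_le_succ ?_)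
        rw [Set.ncard_singleton]
      nlinarith
    have hcard2 := hcard.trans_eq (fib_ncard hQX).symm
    obtain ⟨W, ⟨hWX, hWr⟩, hWn⟩ := Set.exists_mem_notMem_of_ncard_lt_ncard hcard2
    simp only [Set.mem_insert_iff, Set.mem_singleton_iff, not_or] at hWn
    obtain ⟨n1, n2, n3, n4⟩ := hWn
    have hWg : HasGood W := by
      by_contra h
      exact n1 (by rw [(eq_TP_of_not_hasGood h).1, TP_congr hWr])
    obtain ⟨W', hW', hrW'⟩ := hs.transport (P₁' := W) (by rw [hWr, redP_TP])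
    have hW'g : HasGood W' := by
      by_contra h
      have h1 : W' = TP T := by rw [(eq_TP_of_not_hasGood h).1, TP_congr hrW']
      rw [h1] at hW'
      rcases vstep_cases hW'.symm with h2 | h2 | h2
      · exact n2 h2
      · exact n3 h2
      · exact n4 h2
    refine ⟨W, hWX, hWr, hWg, ?_⟩
    have h2 : W' ∈ vorb T := fib hp hD4 hDs hTX (hW'.step.onX hWX) hrW' hTg hW'g
    exact vorb_trans (vorb_trans (vorb_step (mem_vorb_self _) hs) h2)
      (vorb_symm (vorb_step (mem_vorb_self _) hW'))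
  obtain ⟨W, hWX, hWr, hWg, hWm⟩ := key
  have hall : ∀ V, OnX D V → redP V = redP Q → V ∈ vorb (TP Q) := by
    intro V hV hr
    by_cases hVg : HasGood V
    · have hWS : W ∈ XStar D := xstar_of_redP hWX hQX hWr
      exact vorb_trans hWm (fib hp hD4 hDs hWS hV (by rw [hr, hWr]) hWg hVg)
    · rw [(eq_TP_of_not_hasGood hVg).1, TP_congr hr]
      exact mem_vorb_self _
  apply hnf
  have h3 : Q ∈ vorb (TP Q) := hall Q hQX.1 rfl
  exact full_of_fibre hQ fun V hV hr => vorb_trans hQ (vorb_trans (vorb_symm h3) (hall V hV hr))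

/-- The section over the reduction of an orbit which is not full is stable. -/
theorem stable_section (hp : 5 ≤ p) {D : ZMod (p ^ 2)} (hD4 : red p D ≠ 4)
    (hDs : red p D = 0 ∨ ¬ IsSquare (red p D))
    {P : ZMod (p ^ 2) × ZMod (p ^ 2) × ZMod (p ^ 2)} (hP : P ∈ XStar D) (hnf : ¬ Full D P) :
    Stable (TP '' vorb P) := by
  have key : ∀ R T, VStep R T → R ∈ TP '' vorb P → T ∈ TP '' vorb P := by
    rintro R T hs ⟨Q, hQ, rfl⟩
    have h1 := step_TP hp hD4 hDs hP hnf hQ hs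
    obtain ⟨T', hs', hr'⟩ := hs.transport (redP_TP Q).symm
    exact ⟨T', vorb_step hQ hs', by rw [TP_congr hr', ← h1]⟩
  exact fun Q hQ => ⟨key _ _ (VStep.vx Q) hQ, key _ _ (VStep.vy Q) hQ, key _ _ (VStep.vz Q) hQ⟩

end Pool.Agent.Work.MP_60c97f_nt
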