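import Pool.Agent.Work.MP_60c97f_nt.Dk

/-!
# The logarithm type polynomial

`Kp a b` in `𝔽[X]` is `(dk (a X² + b) X² p - (a X²) ^ p - b ^ p) / p` reduced modulo `p`.
-/

set_option autoImplicit false

namespace Pool.Agent.Work.MP_60c97f_nt

open Polynomial

section ring

variable {R : Type} [CommRing R]

/-- `un (t + u) (t u) n = (t ^ n - u ^ n) / (t - u)`. -/
def un {R : Type} [CommRing R] (y s : R) : ℕ → R
  | 0 => 0
  | 1 => 1
  | n + 2 => y * un y s (n + 1) - s * un y s n

theorem dk_succ_eq (y s : R) (n : ℕ) :
    dk y s (n + 1) = y * un y s (n + 1) - 2 * s * un y s n := by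
  induction n using Nat.twoStepInduction with
  | zero => simp [dk, un]
  | one => simp [dk, un]; ring
  | more n h1 h2 =>
    rw [dk, h1, h2, un]
    simp only [un]
    ring

theorem map_un {S : Type} [CommRing S] (f : R →+* S) (y s : R) (n : ℕ) :
    f (un y s n) = un (f y) (f s) n := by
  induction n using Nat.twoStepInduction with
  | zero => simp [un]
  | one => simp [un]
  | more n h1 h2 => simp [un, h1, h2]

theorem un_mul (t u : R) (n : ℕ) : un (t + u) (t * u) n * (t - u) = t ^ n - u ^ n := by
  induction n using Nat.twoStepInduction with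
  | zero => simp [un]
  | one => simp [un]
  | more n h1 h2 =>
    rw [un]
    linear_combination (t + u) * h2 - t * u * h1

theorem dk_homog (l y s : R) (n : ℕ) : dk (l * y) (l ^ 2 * s) n = l ^ n * dk y s n := by
  induction n using Nat.twoStepInduction with
  | zero => simp [dk]
  | one => simp [dk]
  | more n h1 h2 =>
    rw [dk, h1, h2, dk]
    ring

theorem derivative_dk (y s : R[X]) (n : ℕ) :
    derivative (dk y s (n + 1)) =
      (n + 1 : ℕ) * (un y s (n + 1) * derivative y - un y s n * derivative s) := by
  induction n using Nat.twoStepInduction with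
  | zero => simp [dk, un]
  | one =>
    simp only [dk, un, derivative_sub, derivative_mul, derivative_ofNat]
    push_cast
    ring
  | more n h1 h2 =>
    rw [dk, derivative_sub, derivative_mul, derivative_mul, h2, h1, dk_succ_eq y s (n + 1),
      dk_succ_eq y s n]
    simp only [un]
    push_cast
    ring

/-- in characteristic `p` -/
theorem un_charP (p : ℕ) [Fact p.Prime] [CharP R p] (hp : p ≠ 2) (y s : R) :
    un y s p = (y ^ 2 - 4 * s) ^ ((p - 1) / 2) := by
  have hpp : p.Prime := Fact.out
  let A := QuadraticAlgebra R (-s) y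
  have hinj : Function.Injective (algebraMap R A) := QuadraticAlgebra.algebraMap_injective
  have : CharP A p := charP_of_injective_algebraMap hinj p
  let t : A := ⟨0, 1⟩
  have h1 : t + (algebraMap R A y - t) = algebraMap R A y := by ring
  have h2 : t * (algebraMap R A y - t) = algebraMap R A s := by
    simp only [t, A, QuadraticAlgebra.algebraMap_eq]
    ext <;> simp
  have h3 : algebraMap R A (un y s p) * (t - (algebraMap R A y - t)) =
      t ^ p - (algebraMap R A y - t) ^ p := by
    rw [map_un, ← h1, ← h2, h1]
    have := un_mul t (algebraMap R A y - t) p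
    rwa [h1] at this
  have h4 : (t - (algebraMap R A y - t)) ^ 2 = algebraMap R A (y ^ 2 - 4 * s) := by
    rw [map_sub, map_pow, map_mul, map_ofNat]
    linear_combination (-4) * h2
  obtain ⟨k, hk⟩ : ∃ k, p = 2 * k + 1 := by
    rcases hpp.eq_two_or_odd' with h | h
    · exact absurd h hp
    · exact h
  have hk2 : (p - 1) / 2 = k := by omega
  have h5 : t ^ p - (algebraMap R A y - t) ^ p = (t - (algebraMap R A y - t)) ^ p :=
    (sub_pow_char t (algebraMap R A y - t)).symm
  have h6 : (t - (algebraMap R A y - t)) ^ p =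
      algebraMap R A ((y ^ 2 - 4 * s) ^ k) * (t - (algebraMap R A y - t)) := by
    rw [map_pow, ← h4, ← pow_mul, ← pow_succ, ← hk]
  rw [h5, h6] at h3
  have h7 := congrArg QuadraticAlgebra.im h3
  simp only [t, A, QuadraticAlgebra.algebraMap_eq, QuadraticAlgebra.im_mul, QuadraticAlgebra.im_sub,
    QuadraticAlgebra.re_sub] at h7
  have h8 : 2 * (un y s p - (y ^ 2 - 4 * s) ^ k) = 0 := by linear_combination h7
  have h9 : (2 : R) * ((k + 1 : ℕ) : R) = 1 := by
    have : ((2 * k + 1 : ℕ) : R) = 0 := by rw [← hk]; exact CharP.cast_eq_zero R p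
    push_cast at this ⊢
    linear_combination this
  have h10 : un y s p - (y ^ 2 - 4 * s) ^ k = 0 := by
    linear_combination ((k + 1 : ℕ) : R) * h8 - (un y s p - (y ^ 2 - 4 * s) ^ k) * h9
  rw [hk2]
  exact sub_eq_zero.1 h10

end ring

end Pool.Agent.Work.MP_60c97f_nt
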