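import Pool.Agent.Work.MP_60c97f_nt.Loc

/-!
# Orbits of the group generated by the three Vieta involutions
-/

set_option autoImplicit false

namespace Pool.Agent.Work.MP_60c97f_nt

variable {R : Type} [CommRing R]

/-- One Vieta involution. -/
inductive VStep {R : Type} [CommRing R] : R × R × R → R × R × R → Prop
  | vx (P : R × R × R) : VStep P (sx P)
  | vy (P : R × R × R) : VStep P (sy P)
  | vz (P : R × R × R) : VStep P (sz P)

/-- The orbit of `P` under the group generated by the three Vieta involutions. -/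
def vorb {R : Type} [CommRing R] (P : R × R × R) : Set (R × R × R) :=
  {Q | Relation.ReflTransGen VStep P Q}

theorem VStep.step {P Q : R × R × R} (h : VStep P Q) : Step P Q := by
  cases h with
  | vx => exact Step.vx P
  | vy => exact Step.vy P
  | vz => exact Step.vz P

theorem VStep.symm {P Q : R × R × R} (h : VStep P Q) : VStep Q P := by
  cases h with
  | vx =>
    have h := VStep.vx (sx P)
    have e : sx (sx P) = P := by simp [sx]
    rwa [e] at h
  | vy =>
    have h := VStep.vy (sy P)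
    have e : sy (sy P) = P := by simp [sy]
    rwa [e] at h
  | vz =>
    have h := VStep.vz (sz P)
    have e : sz (sz P) = P := by simp [sz]
    rwa [e] at h

theorem mem_vorb_self (P : R × R × R) : P ∈ vorb P := Relation.ReflTransGen.refl

theorem vorb_trans {P Q T : R × R × R} (h : Q ∈ vorb P) (h' : T ∈ vorb Q) : T ∈ vorb P :=
  Relation.ReflTransGen.trans h h'

theorem vorb_step {P Q T : R × R × R} (h : Q ∈ vorb P) (hs : VStep Q T) : T ∈ vorb P :=
  Relation.ReflTransGen.tail h hs

/-- induction along an orbit -/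
theorem vorb_ind {P : R × R × R} {M : R × R × R → Prop} (h0 : M P)
    (hs : ∀ Q T, Q ∈ vorb P → M Q → VStep Q T → M T) {Q : R × R × R} (h : Q ∈ vorb P) : M Q := by
  have h' : Relation.ReflTransGen VStep P Q := h
  clear h
  induction h' with
  | refl => exact h0
  | tail hr hst ih => exact hs _ _ hr ih hst

theorem vorb_symm {P Q : R × R × R} (h : Q ∈ vorb P) : P ∈ vorb Q :=
  vorb_ind (M := fun T => P ∈ vorb T) (mem_vorb_self P)
    (fun _ _ _ ih hs => vorb_trans (vorb_step (mem_vorb_self _) hs.symm) ih) h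

theorem vorb_eq_of_mem {P Q : R × R × R} (h : Q ∈ vorb P) : vorb Q = vorb P :=
  Set.Subset.antisymm (fun _ hT => vorb_trans h hT) fun _ hT => vorb_trans (vorb_symm h) hT

theorem vorb_stable (P : R × R × R) : Stable (vorb P) := fun Q hQ =>
  ⟨vorb_step hQ (VStep.vx Q), vorb_step hQ (VStep.vy Q), vorb_step hQ (VStep.vz Q)⟩

theorem Stable.vstep {O : Set (R × R × R)} (hO : Stable O) {P Q : R × R × R} (h : VStep P Q)
    (hP : P ∈ O) : Q ∈ O := by
  cases h with
  | vx => exact (hO P hP).1
  | vy => exact (hO P hP).2.1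
  | vz => exact (hO P hP).2.2

theorem Stable.vorb_subset {O : Set (R × R × R)} (hO : Stable O) {P : R × R × R} (hP : P ∈ O) :
    vorb P ⊆ O := fun _ hQ =>
  vorb_ind (M := fun T => T ∈ O) hP (fun _ _ _ ih hs => hO.vstep hs ih) hQ

theorem stable_diff_vorb {O : Set (R × R × R)} (hO : Stable O) (P : R × R × R) :
    Stable (O \ vorb P) := by
  have key : ∀ Q T, VStep Q T → Q ∈ O \ vorb P → T ∈ O \ vorb P := by
    rintro Q T hs ⟨h1, h2⟩
    exact ⟨hO.vstep hs h1, fun h3 => h2 (vorb_step h3 hs.symm)⟩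
  exact fun Q hQ => ⟨key _ _ (VStep.vx Q) hQ, key _ _ (VStep.vy Q) hQ, key _ _ (VStep.vz Q) hQ⟩

theorem vorb_onX {D : R} {P Q : R × R × R} (h : Q ∈ vorb P) (hP : OnX D P) : OnX D Q :=
  vorb_ind (M := fun T => OnX D T) hP (fun _ _ _ ih hs => hs.step.onX ih) h

/-- the transpositions -/
def swxy {R : Type} (P : R × R × R) : R × R × R := (P.2.1, P.1, P.2.2)

/-- the transpositions -/
def swxz {R : Type} (P : R × R × R) : R × R × R := (P.2.2, P.2.1, P.1)

/-- the transpositions -/
def swyz {R : Type} (P : R × R × R) : R × R × R := (P.1, P.2.2, P.2.1)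

/-- a sign change -/
def ngxy {R : Type} [CommRing R] (P : R × R × R) : R × R × R := (-P.1, -P.2.1, P.2.2)

theorem vorb_map {f : R × R × R → R × R × R} (hf : ∀ P Q, VStep P Q → VStep (f P) (f Q))
    {P Q : R × R × R} (h : Q ∈ vorb P) : f Q ∈ vorb (f P) :=
  vorb_ind (M := fun T => f T ∈ vorb (f P)) (mem_vorb_self _)
    (fun _ _ _ ih hs => vorb_step ih (hf _ _ hs)) h

theorem VStep.of_eq_x {P Q : R × R × R} (h : Q = sx P) : VStep P Q := h ▸ VStep.vx P

theorem VStep.of_eq_y {P Q : R × R × R} (h : Q = sy P) : VStep P Q := h ▸ VStep.vy P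

theorem VStep.of_eq_z {P Q : R × R × R} (h : Q = sz P) : VStep P Q := h ▸ VStep.vz P

theorem vorb_swxy {P Q : R × R × R} (h : Q ∈ vorb P) : swxy Q ∈ vorb (swxy P) := by
  refine vorb_map (fun P Q hs => ?_) h
  cases hs with
  | vx => exact VStep.of_eq_y (by simp [swxy, sx, sy])
  | vy => exact VStep.of_eq_x (by simp [swxy, sx, sy])
  | vz => exact VStep.of_eq_z (by simp [swxy, sz, mul_comm])

theorem vorb_swxz {P Q : R × R × R} (h : Q ∈ vorb P) : swxz Q ∈ vorb (swxz P) := by
  refine vorb_map (fun P Q hs => ?_) h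
  cases hs with
  | vx => exact VStep.of_eq_z (by simp [swxz, sx, sz, mul_comm])
  | vy => exact VStep.of_eq_y (by simp [swxz, sy, mul_comm])
  | vz => exact VStep.of_eq_x (by simp [swxz, sx, sz, mul_comm])

theorem vorb_swyz {P Q : R × R × R} (h : Q ∈ vorb P) : swyz Q ∈ vorb (swyz P) := by
  refine vorb_map (fun P Q hs => ?_) h
  cases hs with
  | vx => exact VStep.of_eq_x (by simp [swyz, sx, mul_comm])
  | vy => exact VStep.of_eq_z (by simp [swyz, sy, sz])
  | vz => exact VStep.of_eq_y (by simp [swyz, sy, sz])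

theorem vorb_ngxy {P Q : R × R × R} (h : Q ∈ vorb P) : ngxy Q ∈ vorb (ngxy P) := by
  refine vorb_map (fun P Q hs => ?_) h
  cases hs with
  | vx => exact VStep.of_eq_x (by simp [ngxy, sx, sub_eq_add_neg, add_comm])
  | vy => exact VStep.of_eq_y (by simp [ngxy, sy, sub_eq_add_neg, add_comm])
  | vz => exact VStep.of_eq_z (by simp [ngxy, sz])

theorem vorb_subset {p : ℕ} [Fact p.Prime] {D : ZMod (p ^ 2)}
    {P : ZMod (p ^ 2) × ZMod (p ^ 2) × ZMod (p ^ 2)} (hP : P ∈ XStar D) : vorb P ⊆ XStar D := by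
  have := isLocalRing_zmod_sq p
  exact fun Q hQ => vorb_ind (M := fun T => T ∈ XStar D) hP
    (fun _ _ _ ih hs => ⟨hs.step.onX ih.1, hs.step.smooth ih.2⟩) hQ

end Pool.Agent.Work.MP_60c97f_nt
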