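import Mathlib

/-!
# A zero estimate

Let `K` be a polynomial over a field of characteristic `p` such that `X K' + h` is divisible by `(X - w₀) ^ N`,
`h ≠ 0`, `w₀ ≠ 0`, i.e. `K` is `- h log X` up to order `N` at `w₀`. A non-trivial combination of `m` functions
`X ^ e K ^ l` (`e < p`, `l < p`) is not divisible by `(X - w₀) ^ m` if `m ≤ N`.
-/

set_option autoImplicit false

namespace Pool.Agent.Work.MP_60c97f_nt

open Polynomial

variable {F : Type} [Field F]

private theorem dvd_derivative {w f : F[X]} {n : ℕ} (h : w ^ (n + 1) ∣ f) :
    w ^ n ∣ derivative f := by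
  obtain ⟨g, rfl⟩ := h
  rw [derivative_mul, derivative_pow, Nat.add_sub_cancel]
  refine dvd_add ?_ ?_
  · exact Dvd.dvd.mul_right (Dvd.dvd.mul_right (Dvd.dvd.mul_left (dvd_refl _) _) _) _
  · exact Dvd.dvd.mul_right (pow_dvd_pow w (Nat.le_succ n)) _

private theorem zero_of_smul_sub {p : ℕ} [CharP F p] {c h : F} (hc : c ≠ 0) {P : F[X]}
    (hP : C c * P - C h * derivative P = 0) : P = 0 := by
  by_contra hne
  have h1 : (C c * P).natDegree = P.natDegree := natDegree_C_mul hc
  have h2 : C c * P = C h * derivative P := by linear_combination hP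
  by_cases h0 : P.natDegree = 0
  · obtain ⟨a, ha⟩ := natDegree_eq_zero.1 h0
    rw [← ha, derivative_C, mul_zero] at h2
    have : C c * C a ≠ 0 := mul_ne_zero (C_ne_zero.2 hc) (by rw [ha]; exact hne)
    exact this h2
  · have h3 : (C h * derivative P).natDegree ≤ (derivative P).natDegree := natDegree_C_mul_le _ _
    have h4 : (derivative P).natDegree < P.natDegree := natDegree_derivative_lt h0
    rw [← h2, h1] at h3
    omega

private theorem const_of_derivative {p : ℕ} [CharP F p] {P : F[X]} (hdeg : P.natDegree < p)
    (hP : derivative P = 0) : P = C (P.coeff 0) := by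
  ext n
  rw [coeff_C]
  by_cases hn : n = 0
  · simp [hn]
  · rw [if_neg hn]
    rcases lt_or_ge P.natDegree n with h | h
    · exact coeff_eq_zero_of_natDegree_lt h
    · have h1 := congrArg (fun f => coeff f (n - 1)) hP
      simp only [coeff_derivative, coeff_zero] at h1
      rw [Nat.sub_add_cancel (Nat.pos_of_ne_zero hn)] at h1
      have h2 : ((n - 1 : ℕ) : F) + 1 = (n : F) := by
        rw [← Nat.cast_add_one, Nat.sub_add_cancel (Nat.pos_of_ne_zero hn)]
      rw [h2] at h1
      refine (mul_eq_zero.1 h1).resolve_right ?_
      intro h5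
      rw [CharP.cast_eq_zero_iff F p] at h5
      exact absurd (Nat.le_of_dvd (Nat.pos_of_ne_zero hn) h5) (by omega)

/-- The zero estimate. -/
theorem zero_estimate {p : ℕ} [Fact p.Prime] [CharP F p] {w₀ h : F} (hw : w₀ ≠ 0) (hh : h ≠ 0)
    {K : F[X]} {N : ℕ} (hK : (X - C w₀) ^ N ∣ X * derivative K + C h) (A : Finset ℕ)
    (hA : ∀ e ∈ A, e < p) :
    ∀ (m : ℕ → ℕ) (c : ℕ → F[X]), (∀ e ∈ A, m e ≤ p) → (∀ e ∈ A, c e ∈ degreeLT F (m e)) →
      ∀ n ≤ N, ∑ e ∈ A, m e ≤ n → (X - C w₀) ^ n ∣ ∑ e ∈ A, X ^ e * (c e).comp K →
      ∀ e ∈ A, c e = 0 := by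
  have hpp : p.Prime := Fact.out
  intro m
  induction hs : ∑ e ∈ A, m e using Nat.strong_induction_on generalizing m with
  | _ s ih =>
    intro c hm hc n hnN hsn hdvd
    by_cases hex : ∃ e₁ ∈ A, m e₁ ≠ 0
    · obtain ⟨e₁, he₁, hme₁⟩ := hex
      obtain ⟨n', rfl⟩ : ∃ n', n = n' + 1 := by
        have h1 : m e₁ ≤ ∑ e ∈ A, m e := Finset.single_le_sum (fun _ _ => Nat.zero_le _) he₁
        exact ⟨n - 1, by omega⟩
      -- the new family
      set m' : ℕ → ℕ := Function.update m e₁ (m e₁ - 1) with hm'
      set c' : ℕ → F[X] := fun e => C ((e : F) - (e₁ : F)) * c e - C h * derivative (c e) with hc'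
      have hsum : ∑ e ∈ A, m' e < ∑ e ∈ A, m e := by
        refine Finset.sum_lt_sum (fun e he => ?_) ⟨e₁, he₁, ?_⟩
        · by_cases hee : e = e₁
          · subst hee; simp [hm']
          · simp [hm', Function.update_of_ne hee]
        · simp only [hm', Function.update_self]
          omega
      have hmem : ∀ e ∈ A, c' e ∈ degreeLT F (m' e) := by
        intro e he
        by_cases hee : e = e₁
        · subst hee
          simp only [hc', sub_self, C_0, zero_mul, zero_sub, hm', Function.update_self]
          refine Submodule.neg_mem _ ?_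
          have h1 := hc e he
          rw [← smul_eq_C_mul]
          refine Submodule.smul_mem _ _ ?_
          rw [mem_degreeLT] at h1 ⊢
          by_cases h0 : c e = 0
          · rw [h0, derivative_zero, degree_zero]
            exact WithBot.bot_lt_coe _
          · have h2 : (c e).natDegree < m e := by
              rw [degree_eq_natDegree h0] at h1
              exact_mod_cast h1
            by_cases h3 : derivative (c e) = 0
            · rw [h3, degree_zero]
              exact WithBot.bot_lt_coe _
            · rw [degree_eq_natDegree h3]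
              have h4 : (c e).natDegree ≠ 0 := by
                intro h5
                obtain ⟨a, ha⟩ := natDegree_eq_zero.1 h5
                rw [← ha, derivative_C] at h3
                exact h3 rfl
              have h5 := natDegree_derivative_lt h4
              exact_mod_cast (by omega : (derivative (c e)).natDegree < m e - 1)
        · simp only [hm', Function.update_of_ne hee]
          have h1 := hc e he
          refine Submodule.sub_mem _ ?_ ?_
          · rw [← smul_eq_C_mul]
            exact Submodule.smul_mem _ _ h1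
          · rw [← smul_eq_C_mul]
            refine Submodule.smul_mem _ _ ?_
            rw [mem_degreeLT] at h1 ⊢
            exact lt_of_le_of_lt (degree_derivative_le) h1
      have hdvd' : (X - C w₀) ^ n' ∣ ∑ e ∈ A, X ^ e * (c' e).comp K := by
        have h1 := dvd_derivative hdvd
        have h2 : (X - C w₀) ^ n' ∣ X * derivative (∑ e ∈ A, X ^ e * (c e).comp K) -
            C (e₁ : F) * (∑ e ∈ A, X ^ e * (c e).comp K) :=
          dvd_sub (Dvd.dvd.mul_left h1 _)
            (Dvd.dvd.mul_left ((pow_dvd_pow _ (Nat.le_succ n')).trans hdvd) _)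
        have h3 : (X - C w₀) ^ n' ∣ (X * derivative K + C h) :=
          (pow_dvd_pow _ (by omega)).trans hK
        have h4 : ∑ e ∈ A, X ^ e * (c' e).comp K =
            (X * derivative (∑ e ∈ A, X ^ e * (c e).comp K) -
            C (e₁ : F) * (∑ e ∈ A, X ^ e * (c e).comp K)) -
            (∑ e ∈ A, X ^ e * (derivative (c e)).comp K) * (X * derivative K + C h) := by
          rw [derivative_sum, Finset.mul_sum, Finset.mul_sum, Finset.sum_mul,
            ← Finset.sum_sub_distrib, ← Finset.sum_sub_distrib]
          refine Finset.sum_congr rfl fun e _ => ?_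
          have h5 : X * derivative (X ^ e : F[X]) = C (e : F) * X ^ e := by
            rcases e with _ | e
            · simp
            · rw [derivative_X_pow, Nat.add_sub_cancel, pow_succ, map_natCast]
              ring
          rw [derivative_mul, derivative_comp]
          simp only [hc', sub_comp, mul_comp, C_comp, C_sub]
          linear_combination (-((c e).comp K)) * h5
        rw [h4]
        exact dvd_sub h2 (Dvd.dvd.mul_left h3 _)
      have hzero := ih (∑ e ∈ A, m' e) (by omega) m' rfl c' (fun e he => by
        by_cases hee : e = e₁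
        · subst hee
          simp only [hm', Function.update_self]
          have := hm e he
          omega
        · simp only [hm', Function.update_of_ne hee]
          exact hm e he) hmem n' (by omega) (by omega) hdvd'
      have hcne : ∀ e ∈ A, e ≠ e₁ → c e = 0 := by
        intro e he hee
        refine zero_of_smul_sub (p := p) (c := (e : F) - (e₁ : F)) (h := h) ?_ (hzero e he)
        intro h1
        rw [sub_eq_zero] at h1
        have h2 := (CharP.natCast_eq_natCast F p).1 h1
        rw [Nat.ModEq, Nat.mod_eq_of_lt (hA e he), Nat.mod_eq_of_lt (hA e₁ he₁)] at h2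
        exact hee h2
      have hce₁ : c e₁ = C ((c e₁).coeff 0) := by
        have h1 := hzero e₁ he₁
        simp only [hc', sub_self, C_0, zero_mul, zero_sub, neg_eq_zero] at h1
        have h2 : derivative (c e₁) = 0 := (mul_eq_zero.1 h1).resolve_left (C_ne_zero.2 hh)
        refine const_of_derivative (p := p) ?_ h2
        have h3 := hc e₁ he₁
        rw [mem_degreeLT] at h3
        by_cases h0 : c e₁ = 0
        · rw [h0, natDegree_zero]
          exact hpp.pos
        · rw [degree_eq_natDegree h0] at h3
          have h4 : (c e₁).natDegree < m e₁ := by exact_mod_cast h3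
          have := hm e₁ he₁
          omega
      have hsum1 : ∑ e ∈ A, X ^ e * (c e).comp K = X ^ e₁ * C ((c e₁).coeff 0) := by
        rw [Finset.sum_eq_single_of_mem e₁ he₁]
        · rw [hce₁, C_comp, coeff_C_zero]
        · intro e he hee
          rw [hcne e he hee, zero_comp, mul_zero]
      rw [hsum1] at hdvd
      have h5 : (X - C w₀) ∣ X ^ e₁ * C ((c e₁).coeff 0) :=
        (dvd_pow_self _ (Nat.succ_ne_zero n')).trans hdvd
      rw [dvd_iff_isRoot, IsRoot.def, eval_mul, eval_pow, eval_X, eval_C] at h5
      have h6 := (mul_eq_zero.1 h5).resolve_left (pow_ne_zero _ hw)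
      intro e he
      by_cases hee : e = e₁
      · rw [hee, hce₁, h6, C_0]
      · exact hcne e he hee
    · push Not at hex
      intro e he
      have h1 := hc e he
      rw [hex e he, mem_degreeLT, Nat.cast_zero] at h1
      exact degree_eq_bot.1 (Nat.WithBot.lt_zero_iff.1 h1)

end Pool.Agent.Work.MP_60c97f_nt
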